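import Mathlib

set_option autoImplicit false

namespace Pool.Agent.H665R3.Balls

open Filter Topology

/-- A quadratic function without mixed term, normalised so that the coefficient of `y ^ 2` is `1`. -/
def F (A C D E : ℝ) (p : ℝ × ℝ) : ℝ := p.2 ^ 2 + A * p.1 ^ 2 + C * p.1 + D * p.2 + E

/-- `S` is cut out of `P` by an axis-parallel ellipse with no point of `P` on its boundary. -/
def Cut (P S : Finset (ℝ × ℝ)) : Prop :=
  ∃ A C D E : ℝ, 0 < A ∧ ∀ p ∈ P, (p ∈ S → F A C D E p < 0) ∧ (p ∉ S → 0 < F A C D E p)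

/-- `S` is cut out of `P` by a horizontal unit parabola whose apex has first coordinate `0`. -/
def Par (P S : Finset (ℝ × ℝ)) : Prop :=
  ∃ y : ℝ, ∀ p ∈ P, (p ∈ S → (p.2 - y) ^ 2 < p.1) ∧ (p ∉ S → p.1 < (p.2 - y) ^ 2)

def Pos (P : Finset (ℝ × ℝ)) : Prop := ∀ p ∈ P, 0 < p.1 ∧ 0 < p.2

def Inj2 (P : Finset (ℝ × ℝ)) : Prop := ∀ p ∈ P, ∀ q ∈ P, p.2 = q.2 → p = q

def Good (c m : ℕ) (P : Finset (ℝ × ℝ)) : Prop :=
  ∀ col : ℝ × ℝ → ℕ, (∀ p ∈ P, col p < c) →
    ∃ S ⊆ P, m ≤ S.card ∧ (∃ k, ∀ p ∈ S, col p = k) ∧ Cut P S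

def Semi (c m j : ℕ) (P : Finset (ℝ × ℝ)) : Prop :=
  ∀ col : ℝ × ℝ → ℕ, (∀ p ∈ P, col p < c + 1) →
    (∃ S ⊆ P, m ≤ S.card ∧ (∃ k, ∀ p ∈ S, col p = k) ∧ Cut P S) ∨
    (∃ S ⊆ P, S.card = j ∧ (∀ p ∈ S, col p = c) ∧ Par P S)

def al (X τ : ℝ) (p : ℝ × ℝ) : ℝ × ℝ := (X + τ * p.1, p.2)

def be (σ : ℝ) (q p : ℝ × ℝ) : ℝ × ℝ := (σ ^ 2 * p.1, q.2 + σ * p.2)

/-- A function continuous at `0` and positive there is positive on small positive numbers. -/
lemma ev_pos (f : ℝ → ℝ) (hf : Continuous f) (h : 0 < f 0) : ∀ᶠ t in 𝓝[>] (0 : ℝ), 0 < f t := by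
  have h1 : ∀ᶠ t in 𝓝 (0 : ℝ), 0 < f t := hf.continuousAt.eventually (lt_mem_nhds h)
  exact h1.filter_mono nhdsWithin_le_nhds

lemma ev_ne (f : ℝ → ℝ) (hf : Continuous f) (h : f 0 ≠ 0) : ∀ᶠ t in 𝓝[>] (0 : ℝ), f t ≠ 0 := by
  have h1 : ∀ᶠ t in 𝓝 (0 : ℝ), f t ≠ 0 := hf.continuousAt.eventually (isOpen_ne.mem_nhds h)
  exact h1.filter_mono nhdsWithin_le_nhds

lemma ev_self : ∀ᶠ t in 𝓝[>] (0 : ℝ), 0 < t := self_mem_nhdsWithin

lemma exists_of_ev {p : ℝ → Prop} (h : ∀ᶠ t in 𝓝[>] (0 : ℝ), p t) : ∃ t, p t := h.exists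

/-- choice of `X` -/
lemma exists_X (Q : Finset (ℝ × ℝ)) (hi : Inj2 Q) :
    ∃ X : ℝ, 0 < X ∧ ∀ q ∈ Q, ∀ q' ∈ Q, q ≠ q' → 2 * X < (q.2 - q'.2) ^ 2 := by
  have h : ∀ᶠ X in 𝓝[>] (0 : ℝ), 0 < X ∧ ∀ q ∈ Q, ∀ q' ∈ Q, q ≠ q' → 2 * X < (q.2 - q'.2) ^ 2 := by
    refine ev_self.and ?_
    rw [Finset.eventually_all]
    intro q hq
    rw [Finset.eventually_all]
    intro q' hq'
    by_cases hne : q = q'
    · exact Eventually.of_forall (fun X h => absurd hne h)
    · have h2 : q.2 - q'.2 ≠ 0 := fun h => hne (hi q hq q' hq' (by linarith))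
      have := ev_pos (fun X => (q.2 - q'.2) ^ 2 - 2 * X) (by fun_prop) (by
        show 0 < (q.2 - q'.2) ^ 2 - 2 * 0
        have : 0 < (q.2 - q'.2) ^ 2 := by positivity
        linarith)
      filter_upwards [this] with X hX _
      linarith
  exact h.exists

/-- The scaled version of the quadratic function realising `S ⊆ Q`. -/
lemma exists_tau (Q : Finset (ℝ × ℝ)) (X : ℝ) (hX : 0 < X) :
    ∃ τ : ℝ, 0 < τ ∧ (∀ q ∈ Q, X + τ * q.1 < 2 * X) ∧
      ∀ S ∈ Q.powerset, Cut Q S → ∃ A C D E : ℝ, 0 < A ∧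
        (∀ p ∈ Q, (p ∈ S → F A C D E (al X τ p) < 0) ∧ (p ∉ S → 0 < F A C D E (al X τ p))) ∧
        ∀ q ∈ Q, 0 < F A C D E (0, q.2) := by
  have h : ∀ᶠ τ in 𝓝[>] (0 : ℝ), 0 < τ ∧ (∀ q ∈ Q, X + τ * q.1 < 2 * X) ∧
      ∀ S ∈ Q.powerset, Cut Q S → ∃ A C D E : ℝ, 0 < A ∧
        (∀ p ∈ Q, (p ∈ S → F A C D E (al X τ p) < 0) ∧ (p ∉ S → 0 < F A C D E (al X τ p))) ∧
        ∀ q ∈ Q, 0 < F A C D E (0, q.2) := by
    refine ev_self.and (Eventually.and ?_ ?_)
    · rw [Finset.eventually_all]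
      intro q hq
      have := ev_pos (fun τ => 2 * X - (X + τ * q.1)) (by fun_prop) (by simp; linarith)
      filter_upwards [this] with τ hτ
      linarith
    · rw [Finset.eventually_all]
      intro S hS
      by_cases hc : Cut Q S
      swap
      · exact Eventually.of_forall (fun τ h => absurd h hc)
      obtain ⟨A, C, D, E, hA, hP⟩ := hc
      have hev : ∀ᶠ τ in 𝓝[>] (0 : ℝ), ∀ q ∈ Q,
          0 < τ ^ 2 * (q.2 ^ 2 + D * q.2 + E) + A * X ^ 2 - C * X * τ := by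
        rw [Finset.eventually_all]
        intro q hq
        refine ev_pos (fun τ => τ ^ 2 * (q.2 ^ 2 + D * q.2 + E) + A * X ^ 2 - C * X * τ)
          (by fun_prop) ?_
        simp only [ne_eq, OfNat.ofNat_ne_zero, not_false_eq_true, zero_pow, zero_mul, mul_zero,
          sub_zero, zero_add]
        positivity
      filter_upwards [hev, ev_self] with τ h1 h2 _
      refine ⟨A / τ ^ 2, C / τ - 2 * A * X / τ ^ 2, D, E + A * X ^ 2 / τ ^ 2 - C * X / τ,
        by positivity, ?_, ?_⟩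
      · intro p hp
        have key : F (A / τ ^ 2) (C / τ - 2 * A * X / τ ^ 2) D
            (E + A * X ^ 2 / τ ^ 2 - C * X / τ) (al X τ p) = F A C D E p := by
          simp only [F, al]
          field_simp
          ring
        rw [key]
        exact hP p hp
      · intro q hq
        have key : F (A / τ ^ 2) (C / τ - 2 * A * X / τ ^ 2) D
            (E + A * X ^ 2 / τ ^ 2 - C * X / τ) (0, q.2) =
            (τ ^ 2 * (q.2 ^ 2 + D * q.2 + E) + A * X ^ 2 - C * X * τ) / τ ^ 2 := by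
          simp only [F]
          field_simp
          ring
        rw [key]
        have := h1 q hq
        positivity
  exact h.exists


/-- (a) quadratic functions positive at the cluster centres are positive on small clusters. -/
lemma ev_a (Q R : Finset (ℝ × ℝ)) (A C D E : ℝ) (h : ∀ q ∈ Q, 0 < F A C D E (0, q.2)) :
    ∀ᶠ σ in 𝓝[>] (0 : ℝ), ∀ q ∈ Q, ∀ p ∈ R, 0 < F A C D E (be σ q p) := by
  rw [Finset.eventually_all]
  intro q hq
  rw [Finset.eventually_all]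
  intro p hp
  refine ev_pos (fun σ => F A C D E (be σ q p)) (by unfold F be; fun_prop) ?_
  have := h q hq
  simpa [F, be] using this

/-- (b) ellipses inside a cluster. -/
lemma ev_b (Q R : Finset (ℝ × ℝ)) (X τ : ℝ) (hX : 0 < X) (hτ : 0 < τ) (hQ : Pos Q)
    (hi : Inj2 Q) (S : Finset (ℝ × ℝ)) (hS : Cut R S) :
    ∀ᶠ σ in 𝓝[>] (0 : ℝ), ∀ q ∈ Q, ∃ A C D E : ℝ, 0 < A ∧
      (∀ p ∈ R, (p ∈ S → F A C D E (be σ q p) < 0) ∧ (p ∉ S → 0 < F A C D E (be σ q p))) ∧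
      (∀ q' ∈ Q, 0 < F A C D E (al X τ q')) ∧
      (∀ q' ∈ Q, q' ≠ q → ∀ p ∈ R, 0 < F A C D E (be σ q' p)) := by
  obtain ⟨A, C, D, E, hA, hP⟩ := hS
  rw [Finset.eventually_all]
  intro q hq
  have h1 : ∀ᶠ σ in 𝓝[>] (0 : ℝ), ∀ q' ∈ Q,
      0 < σ ^ 2 * ((q'.2 - q.2) ^ 2 + C * (X + τ * q'.1) + D * σ * (q'.2 - q.2) + E * σ ^ 2)
        + A * (X + τ * q'.1) ^ 2 := by
    rw [Finset.eventually_all]
    intro q' hq'
    refine ev_pos (fun σ => σ ^ 2 * ((q'.2 - q.2) ^ 2 + C * (X + τ * q'.1)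
      + D * σ * (q'.2 - q.2) + E * σ ^ 2) + A * (X + τ * q'.1) ^ 2) (by fun_prop) ?_
    have := (hQ q' hq').1
    simp only [ne_eq, OfNat.ofNat_ne_zero, not_false_eq_true, zero_pow, zero_mul, zero_add]
    positivity
  have h2 : ∀ᶠ σ in 𝓝[>] (0 : ℝ), ∀ q' ∈ Q, q' ≠ q → ∀ p ∈ R,
      0 < (q'.2 + σ * p.2 - q.2) ^ 2 + A * σ ^ 2 * p.1 ^ 2 + C * σ ^ 2 * p.1
        + D * σ * (q'.2 + σ * p.2 - q.2) + E * σ ^ 2 := by
    rw [Finset.eventually_all]
    intro q' hq'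
    by_cases hne : q' = q
    · exact Eventually.of_forall (fun σ h => absurd hne h)
    have h3 : q'.2 - q.2 ≠ 0 := fun h => hne (hi q' hq' q hq (by linarith))
    have h4 : ∀ᶠ σ in 𝓝[>] (0 : ℝ), ∀ p ∈ R,
      0 < (q'.2 + σ * p.2 - q.2) ^ 2 + A * σ ^ 2 * p.1 ^ 2 + C * σ ^ 2 * p.1
        + D * σ * (q'.2 + σ * p.2 - q.2) + E * σ ^ 2 := by
      rw [Finset.eventually_all]
      intro p hp
      refine ev_pos (fun σ => (q'.2 + σ * p.2 - q.2) ^ 2 + A * σ ^ 2 * p.1 ^ 2 + C * σ ^ 2 * p.1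
        + D * σ * (q'.2 + σ * p.2 - q.2) + E * σ ^ 2) (by fun_prop) ?_
      simp only [ne_eq, OfNat.ofNat_ne_zero, not_false_eq_true, zero_pow, zero_mul, mul_zero,
        add_zero]
      positivity
    filter_upwards [h4] with σ h _
    exact h
  filter_upwards [h1, h2, ev_self] with σ h1 h2 hσ
  refine ⟨A / σ ^ 2, C, D * σ - 2 * q.2, q.2 ^ 2 - D * σ * q.2 + E * σ ^ 2, by positivity, ?_, ?_, ?_⟩
  · intro p hp
    have key : F (A / σ ^ 2) C (D * σ - 2 * q.2) (q.2 ^ 2 - D * σ * q.2 + E * σ ^ 2) (be σ q p)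
        = σ ^ 2 * F A C D E p := by
      simp only [F, be]
      field_simp
      ring
    rw [key]
    have h := hP p hp
    refine ⟨fun hs => ?_, fun hs => ?_⟩
    · have := h.1 hs
      have h5 : 0 < σ ^ 2 := by positivity
      nlinarith
    · have := h.2 hs
      positivity
  · intro q' hq'
    have key : F (A / σ ^ 2) C (D * σ - 2 * q.2) (q.2 ^ 2 - D * σ * q.2 + E * σ ^ 2) (al X τ q')
        = (σ ^ 2 * ((q'.2 - q.2) ^ 2 + C * (X + τ * q'.1) + D * σ * (q'.2 - q.2) + E * σ ^ 2)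
        + A * (X + τ * q'.1) ^ 2) / σ ^ 2 := by
      simp only [F, al]
      field_simp
      ring
    rw [key]
    have := h1 q' hq'
    positivity
  · intro q' hq' hne p hp
    have key : F (A / σ ^ 2) C (D * σ - 2 * q.2) (q.2 ^ 2 - D * σ * q.2 + E * σ ^ 2) (be σ q' p)
        = (q'.2 + σ * p.2 - q.2) ^ 2 + A * σ ^ 2 * p.1 ^ 2 + C * σ ^ 2 * p.1
        + D * σ * (q'.2 + σ * p.2 - q.2) + E * σ ^ 2 := by
      simp only [F, be]
      field_simp
      ring
    rw [key]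
    exact h2 q' hq' hne p hp

/-- (c) parabolas inside a cluster. -/
lemma ev_c (Q R : Finset (ℝ × ℝ)) (X τ : ℝ) (hX : 0 < X) (hτ : 0 < τ) (hQ : Pos Q)
    (h2X : ∀ q ∈ Q, X + τ * q.1 < 2 * X)
    (hsep : ∀ q ∈ Q, ∀ q' ∈ Q, q ≠ q' → 2 * X < (q.2 - q'.2) ^ 2)
    (S : Finset (ℝ × ℝ)) (hS : Par R S) :
    ∀ᶠ σ in 𝓝[>] (0 : ℝ), ∀ q ∈ Q, ∃ y : ℝ,
      (∀ p ∈ R, (p ∈ S → ((be σ q p).2 - y) ^ 2 < (be σ q p).1) ∧
        (p ∉ S → (be σ q p).1 < ((be σ q p).2 - y) ^ 2)) ∧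
      ((al X τ q).2 - y) ^ 2 < (al X τ q).1 ∧
      (∀ q' ∈ Q, q' ≠ q → (al X τ q').1 < ((al X τ q').2 - y) ^ 2) ∧
      (∀ q' ∈ Q, q' ≠ q → ∀ p ∈ R, (be σ q' p).1 < ((be σ q' p).2 - y) ^ 2) := by
  obtain ⟨y, hP⟩ := hS
  rw [Finset.eventually_all]
  intro q hq
  have h1 : ∀ᶠ σ in 𝓝[>] (0 : ℝ), 0 < (X + τ * q.1) - σ ^ 2 * y ^ 2 := by
    refine ev_pos (fun σ => (X + τ * q.1) - σ ^ 2 * y ^ 2) (by fun_prop) ?_
    have := (hQ q hq).1
    simp only [ne_eq, OfNat.ofNat_ne_zero, not_false_eq_true, zero_pow, zero_mul, sub_zero]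
    positivity
  have h2 : ∀ᶠ σ in 𝓝[>] (0 : ℝ), ∀ q' ∈ Q, q' ≠ q →
      0 < (q'.2 - (q.2 + σ * y)) ^ 2 - (X + τ * q'.1) := by
    rw [Finset.eventually_all]
    intro q' hq'
    by_cases hne : q' = q
    · exact Eventually.of_forall (fun σ h => absurd hne h)
    have h3 := ev_pos (fun σ => (q'.2 - (q.2 + σ * y)) ^ 2 - (X + τ * q'.1)) (by fun_prop) (by
      have h5 := hsep q' hq' q hq hne
      have h6 := h2X q' hq'
      simp only [zero_mul, add_zero]
      linarith)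
    filter_upwards [h3] with σ h _
    exact h
  have h4 : ∀ᶠ σ in 𝓝[>] (0 : ℝ), ∀ q' ∈ Q, q' ≠ q → ∀ p ∈ R,
      0 < (q'.2 + σ * p.2 - (q.2 + σ * y)) ^ 2 - σ ^ 2 * p.1 := by
    rw [Finset.eventually_all]
    intro q' hq'
    by_cases hne : q' = q
    · exact Eventually.of_forall (fun σ h => absurd hne h)
    have h3 : ∀ᶠ σ in 𝓝[>] (0 : ℝ), ∀ p ∈ R,
        0 < (q'.2 + σ * p.2 - (q.2 + σ * y)) ^ 2 - σ ^ 2 * p.1 := by
      rw [Finset.eventually_all]
      intro p hp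
      refine ev_pos (fun σ => (q'.2 + σ * p.2 - (q.2 + σ * y)) ^ 2 - σ ^ 2 * p.1)
        (by fun_prop) ?_
      have h5 := hsep q' hq' q hq hne
      simp only [ne_eq, OfNat.ofNat_ne_zero, not_false_eq_true, zero_pow, zero_mul, add_zero,
        sub_zero]
      linarith
    filter_upwards [h3] with σ h _
    exact h
  filter_upwards [h1, h2, h4, ev_self] with σ h1 h2 h4 hσ
  refine ⟨q.2 + σ * y, ?_, ?_, ?_, ?_⟩
  · intro p hp
    have h := hP p hp
    have e : (q.2 + σ * p.2 - (q.2 + σ * y)) ^ 2 = σ ^ 2 * (p.2 - y) ^ 2 := by ring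
    simp only [be]
    rw [e]
    have h5 : 0 < σ ^ 2 := by positivity
    exact ⟨fun hs => mul_lt_mul_of_pos_left (h.1 hs) h5,
      fun hs => mul_lt_mul_of_pos_left (h.2 hs) h5⟩
  · have e : (q.2 - (q.2 + σ * y)) ^ 2 = σ ^ 2 * y ^ 2 := by ring
    simp only [al]
    rw [e]
    linarith
  · intro q' hq' hne
    have := h2 q' hq' hne
    simp only [al]
    linarith
  · intro q' hq' hne p hp
    have := h4 q' hq' hne p hp
    simp only [be]
    linarith

/-- (d) distinct second coordinates. -/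
lemma ev_d (Q R : Finset (ℝ × ℝ)) (hi : Inj2 Q) :
    ∀ᶠ σ in 𝓝[>] (0 : ℝ), ∀ q ∈ Q, ∀ q' ∈ Q, q ≠ q' →
      (∀ p ∈ R, q.2 ≠ q'.2 + σ * p.2) ∧
      (∀ p ∈ R, ∀ p' ∈ R, q.2 + σ * p.2 ≠ q'.2 + σ * p'.2) := by
  rw [Finset.eventually_all]
  intro q hq
  rw [Finset.eventually_all]
  intro q' hq'
  by_cases hne : q = q'
  · exact Eventually.of_forall (fun σ h => absurd hne h)
  have h3 : q.2 - q'.2 ≠ 0 := fun h => hne (hi q hq q' hq' (by linarith))
  have h4 : ∀ᶠ σ in 𝓝[>] (0 : ℝ), ∀ p ∈ R, q.2 - (q'.2 + σ * p.2) ≠ 0 := by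
    rw [Finset.eventually_all]
    intro p hp
    refine ev_ne (fun σ => q.2 - (q'.2 + σ * p.2)) (by fun_prop) ?_
    simpa using h3
  have h5 : ∀ᶠ σ in 𝓝[>] (0 : ℝ), ∀ p ∈ R, ∀ p' ∈ R,
      q.2 + σ * p.2 - (q'.2 + σ * p'.2) ≠ 0 := by
    rw [Finset.eventually_all]
    intro p hp
    rw [Finset.eventually_all]
    intro p' hp'
    refine ev_ne (fun σ => q.2 + σ * p.2 - (q'.2 + σ * p'.2)) (by fun_prop) ?_
    simpa using h3
  filter_upwards [h4, h5] with σ h4 h5 _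
  exact ⟨fun p hp h => h4 p hp (by linarith), fun p hp p' hp' h => h5 p hp p' hp' (by linarith)⟩

/-- the set built in the recursion -/
noncomputable def build (X τ σ : ℝ) (Q R : Finset (ℝ × ℝ)) : Finset (ℝ × ℝ) :=
  Q.image (al X τ) ∪ Q.biUnion (fun q => R.image (be σ q))

lemma mem_build {X τ σ : ℝ} {Q R : Finset (ℝ × ℝ)} {p : ℝ × ℝ} :
    p ∈ build X τ σ Q R ↔ (∃ q ∈ Q, al X τ q = p) ∨ (∃ q ∈ Q, ∃ r ∈ R, be σ q r = p) := by
  simp only [build, Finset.mem_union, Finset.mem_image, Finset.mem_biUnion]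

lemma al_inj {X τ : ℝ} (hτ : 0 < τ) : Function.Injective (al X τ) := by
  intro p q h
  simp only [al, Prod.mk.injEq] at h
  have h1 : p.1 = q.1 := mul_left_cancel₀ hτ.ne' (by linarith [h.1])
  exact Prod.ext h1 h.2

lemma be_inj {σ : ℝ} (hσ : 0 < σ) (q : ℝ × ℝ) : Function.Injective (be σ q) := by
  intro p r h
  simp only [be, Prod.mk.injEq] at h
  have h1 : p.1 = r.1 := mul_left_cancel₀ (pow_pos hσ 2).ne' h.1
  have h2 : p.2 = r.2 := mul_left_cancel₀ hσ.ne' (by linarith [h.2])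
  exact Prod.ext h1 h2

/-- The recursion step. -/
lemma step (c m j : ℕ) (Q R : Finset (ℝ × ℝ)) (hQ : Good c m Q) (hQp : Pos Q) (hQi : Inj2 Q)
    (hR : Semi c m j R) (hRp : Pos R) (hRi : Inj2 R) :
    ∃ P : Finset (ℝ × ℝ), Semi c m (j + 1) P ∧ Pos P ∧ Inj2 P := by
  obtain ⟨X, hX, hsep⟩ := exists_X Q hQi
  obtain ⟨τ, hτ, h2X, hcut⟩ := exists_tau Q X hX
  have hA : ∀ᶠ σ in 𝓝[>] (0 : ℝ), ∀ S ∈ Q.powerset, Cut Q S → ∃ A C D E : ℝ, 0 < A ∧
        (∀ p ∈ Q, (p ∈ S → F A C D E (al X τ p) < 0) ∧ (p ∉ S → 0 < F A C D E (al X τ p))) ∧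
        ∀ q ∈ Q, ∀ p ∈ R, 0 < F A C D E (be σ q p) := by
    rw [Finset.eventually_all]
    intro S hS
    by_cases hc : Cut Q S
    swap
    · exact Eventually.of_forall (fun τ h => absurd h hc)
    obtain ⟨A, C, D, E, hA, h1, h2⟩ := hcut S hS hc
    filter_upwards [ev_a Q R A C D E h2] with σ h3 _
    exact ⟨A, C, D, E, hA, h1, h3⟩
  have hB : ∀ᶠ σ in 𝓝[>] (0 : ℝ), ∀ S ∈ R.powerset, Cut R S → ∀ q ∈ Q, ∃ A C D E : ℝ, 0 < A ∧
      (∀ p ∈ R, (p ∈ S → F A C D E (be σ q p) < 0) ∧ (p ∉ S → 0 < F A C D E (be σ q p))) ∧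
      (∀ q' ∈ Q, 0 < F A C D E (al X τ q')) ∧
      (∀ q' ∈ Q, q' ≠ q → ∀ p ∈ R, 0 < F A C D E (be σ q' p)) := by
    rw [Finset.eventually_all]
    intro S hS
    by_cases hc : Cut R S
    swap
    · exact Eventually.of_forall (fun τ h => absurd h hc)
    filter_upwards [ev_b Q R X τ hX hτ hQp hQi S hc] with σ h _
    exact h
  have hC : ∀ᶠ σ in 𝓝[>] (0 : ℝ), ∀ S ∈ R.powerset, Par R S → ∀ q ∈ Q, ∃ y : ℝ,
      (∀ p ∈ R, (p ∈ S → ((be σ q p).2 - y) ^ 2 < (be σ q p).1) ∧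
        (p ∉ S → (be σ q p).1 < ((be σ q p).2 - y) ^ 2)) ∧
      ((al X τ q).2 - y) ^ 2 < (al X τ q).1 ∧
      (∀ q' ∈ Q, q' ≠ q → (al X τ q').1 < ((al X τ q').2 - y) ^ 2) ∧
      (∀ q' ∈ Q, q' ≠ q → ∀ p ∈ R, (be σ q' p).1 < ((be σ q' p).2 - y) ^ 2) := by
    rw [Finset.eventually_all]
    intro S hS
    by_cases hc : Par R S
    swap
    · exact Eventually.of_forall (fun τ h => absurd h hc)
    filter_upwards [ev_c Q R X τ hX hτ hQp h2X hsep S hc] with σ h _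
    exact h
  obtain ⟨σ, hA, hB, hC, hD, hσ⟩ := (hA.and (hB.and (hC.and ((ev_d Q R hQi).and ev_self)))).exists
  refine ⟨build X τ σ Q R, ?_, ?_, ?_⟩
  · intro col hcol
    have halm : ∀ q ∈ Q, al X τ q ∈ build X τ σ Q R := fun q hq => mem_build.2 (Or.inl ⟨q, hq, rfl⟩)
    have hbem : ∀ q ∈ Q, ∀ r ∈ R, be σ q r ∈ build X τ σ Q R :=
      fun q hq r hr => mem_build.2 (Or.inr ⟨q, hq, r, hr, rfl⟩)
    by_cases hcase : ∀ q ∈ Q, col (al X τ q) ≠ c
    · left
      obtain ⟨S, hSQ, hSm, ⟨k, hk⟩, hSc⟩ := hQ (fun q => col (al X τ q)) (fun q hq => by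
        have h1 := hcol _ (halm q hq)
        have h2 := hcase q hq
        show col (al X τ q) < c
        omega)
      obtain ⟨A, C, D, E, hA1, hA2, hA3⟩ := hA S (Finset.mem_powerset.2 hSQ) hSc
      refine ⟨S.image (al X τ), ?_, ?_, ⟨k, ?_⟩, ⟨A, C, D, E, hA1, ?_⟩⟩
      · intro p hp
        obtain ⟨q, hq, rfl⟩ := Finset.mem_image.1 hp
        exact halm q (hSQ hq)
      · rw [Finset.card_image_of_injective _ (al_inj hτ)]
        exact hSm
      · intro p hp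
        obtain ⟨q, hq, rfl⟩ := Finset.mem_image.1 hp
        exact hk q hq
      · intro p hp
        refine ⟨fun hs => ?_, fun hs => ?_⟩
        · obtain ⟨q, hq, rfl⟩ := Finset.mem_image.1 hs
          exact (hA2 q (hSQ hq)).1 hq
        · rcases mem_build.1 hp with ⟨q, hq, rfl⟩ | ⟨q, hq, r, hr, rfl⟩
          · exact (hA2 q hq).2 (fun h => hs (Finset.mem_image_of_mem _ h))
          · exact hA3 q hq r hr
    · push Not at hcase
      obtain ⟨q, hq, hqc⟩ := hcase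
      rcases hR (fun r => col (be σ q r)) (fun r hr => hcol _ (hbem q hq r hr)) with
        ⟨S, hSR, hSm, ⟨k, hk⟩, hSc⟩ | ⟨S, hSR, hSj, hSc, hSP⟩
      · left
        obtain ⟨A, C, D, E, hB1, hB2, hB3, hB4⟩ := hB S (Finset.mem_powerset.2 hSR) hSc q hq
        refine ⟨S.image (be σ q), ?_, ?_, ⟨k, ?_⟩, ⟨A, C, D, E, hB1, ?_⟩⟩
        · intro p hp
          obtain ⟨r, hr, rfl⟩ := Finset.mem_image.1 hp
          exact hbem q hq r (hSR hr)
        · rw [Finset.card_image_of_injective _ (be_inj hσ q)]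
          exact hSm
        · intro p hp
          obtain ⟨r, hr, rfl⟩ := Finset.mem_image.1 hp
          exact hk r hr
        · intro p hp
          refine ⟨fun hs => ?_, fun hs => ?_⟩
          · obtain ⟨r, hr, rfl⟩ := Finset.mem_image.1 hs
            exact (hB2 r (hSR hr)).1 hr
          · rcases mem_build.1 hp with ⟨q', hq', rfl⟩ | ⟨q', hq', r, hr, rfl⟩
            · exact hB3 q' hq'
            · by_cases hqq : q' = q
              · subst hqq
                exact (hB2 r hr).2 (fun h => hs (Finset.mem_image_of_mem _ h))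
              · exact hB4 q' hq' hqq r hr
      · right
        obtain ⟨y, hC1, hC2, hC3, hC4⟩ := hC S (Finset.mem_powerset.2 hSR) hSP q hq
        have hnot : al X τ q ∉ S.image (be σ q) := by
          intro h
          obtain ⟨r, hr, h⟩ := Finset.mem_image.1 h
          have h2 := congrArg Prod.snd h
          simp only [al, be] at h2
          have := mul_pos hσ (hRp r (hSR hr)).2
          linarith
        refine ⟨insert (al X τ q) (S.image (be σ q)), ?_, ?_, ?_, ⟨y, ?_⟩⟩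
        · intro p hp
          rcases Finset.mem_insert.1 hp with rfl | hp
          · exact halm q hq
          · obtain ⟨r, hr, rfl⟩ := Finset.mem_image.1 hp
            exact hbem q hq r (hSR hr)
        · rw [Finset.card_insert_of_notMem hnot,
            Finset.card_image_of_injective _ (be_inj hσ q), hSj]
        · intro p hp
          rcases Finset.mem_insert.1 hp with rfl | hp
          · exact hqc
          · obtain ⟨r, hr, rfl⟩ := Finset.mem_image.1 hp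
            exact hSc r hr
        · intro p hp
          refine ⟨fun hs => ?_, fun hs => ?_⟩
          · rcases Finset.mem_insert.1 hs with rfl | hs
            · exact hC2
            · obtain ⟨r, hr, rfl⟩ := Finset.mem_image.1 hs
              exact (hC1 r (hSR hr)).1 hr
          · rcases mem_build.1 hp with ⟨q', hq', rfl⟩ | ⟨q', hq', r, hr, rfl⟩
            · by_cases hqq : q' = q
              · subst hqq
                exact absurd (Finset.mem_insert_self _ _) hs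
              · exact hC3 q' hq' hqq
            · by_cases hqq : q' = q
              · subst hqq
                exact (hC1 r hr).2
                  (fun h => hs (Finset.mem_insert_of_mem (Finset.mem_image_of_mem _ h)))
              · exact hC4 q' hq' hqq r hr
  · intro p hp
    rcases mem_build.1 hp with ⟨q, hq, rfl⟩ | ⟨q, hq, r, hr, rfl⟩
    · have := hQp q hq
      have h1 := mul_pos hτ this.1
      exact ⟨by show 0 < X + τ * q.1; linarith, this.2⟩
    · have h1 := hQp q hq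
      have h2 := hRp r hr
      exact ⟨mul_pos (pow_pos hσ 2) h2.1, add_pos h1.2 (mul_pos hσ h2.2)⟩
  · intro p hp p' hp' h
    rcases mem_build.1 hp with ⟨q, hq, rfl⟩ | ⟨q, hq, r, hr, rfl⟩
    · rcases mem_build.1 hp' with ⟨q', hq', rfl⟩ | ⟨q', hq', r', hr', rfl⟩
      · rw [hQi q hq q' hq' h]
      · exfalso
        have h2 : q.2 = q'.2 + σ * r'.2 := h
        by_cases hqq : q = q'
        · subst hqq
          have := mul_pos hσ (hRp r' hr').2
          linarith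
        · exact (hD q hq q' hq' hqq).1 r' hr' h2
    · rcases mem_build.1 hp' with ⟨q', hq', rfl⟩ | ⟨q', hq', r', hr', rfl⟩
      · exfalso
        have h2 : q.2 + σ * r.2 = q'.2 := h
        by_cases hqq : q' = q
        · subst hqq
          have := mul_pos hσ (hRp r hr).2
          linarith
        · exact (hD q' hq' q hq hqq).1 r hr h2.symm
      · have h2 : q.2 + σ * r.2 = q'.2 + σ * r'.2 := h
        by_cases hqq : q = q'
        · subst hqq
          have h3 : r.2 = r'.2 := mul_left_cancel₀ hσ.ne' (by linarith)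
          rw [hRi r hr r' hr' h3]
        · exact absurd h2 ((hD q hq q' hq' hqq).2 r hr r' hr')

lemma par_cut (P S : Finset (ℝ × ℝ)) (h : Par P S) : Cut P S := by
  obtain ⟨y, hy⟩ := h
  have h1 : ∀ᶠ δ in 𝓝[>] (0 : ℝ), ∀ p ∈ P, p ∈ S → 0 < p.1 - (p.2 - y) ^ 2 - δ * p.1 ^ 2 := by
    rw [Finset.eventually_all]
    intro p hp
    by_cases hs : p ∈ S
    swap
    · exact Eventually.of_forall (fun δ h => absurd h hs)
    have := ev_pos (fun δ => p.1 - (p.2 - y) ^ 2 - δ * p.1 ^ 2) (by fun_prop) (by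
      have := (hy p hp).1 hs
      simp only [zero_mul, sub_zero]
      linarith)
    filter_upwards [this] with δ h _
    exact h
  obtain ⟨δ, h2, hδ⟩ := (h1.and ev_self).exists
  refine ⟨δ, -1, -2 * y, y ^ 2, hδ, fun p hp => ⟨fun hs => ?_, fun hs => ?_⟩⟩
  · have := h2 p hp hs
    simp only [F]
    nlinarith
  · have h3 := (hy p hp).2 hs
    have h4 : 0 ≤ δ * p.1 ^ 2 := by positivity
    simp only [F]
    nlinarith

lemma exists_semi (c m : ℕ) (Q : Finset (ℝ × ℝ)) (hQ : Good c m Q) (hQp : Pos Q) (hQi : Inj2 Q) :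
    ∀ j : ℕ, ∃ P : Finset (ℝ × ℝ), Semi c m j P ∧ Pos P ∧ Inj2 P := by
  intro j
  induction j with
  | zero =>
    refine ⟨∅, ?_, ?_, ?_⟩
    · intro col _
      right
      refine ⟨∅, subset_rfl, rfl, ?_, ⟨0, ?_⟩⟩
      · simp
      · simp
    · intro p hp
      simp at hp
    · intro p hp
      simp at hp
  | succ j ih =>
    obtain ⟨R, h1, h2, h3⟩ := ih
    exact step c m j Q R hQ hQp hQi h1 h2 h3

/-- For every number `c` of colours and every `m` there is a planar set all whose `c`-colourings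
have a monochromatic axis-parallel ellipse with at least `m` points. -/
theorem exists_good (c m : ℕ) : ∃ P : Finset (ℝ × ℝ), Good c m P ∧ Pos P ∧ Inj2 P := by
  induction c with
  | zero =>
    refine ⟨{(1, 1)}, ?_, ?_, ?_⟩
    · intro col hcol
      exact absurd (hcol (1, 1) (by simp)) (by omega)
    · intro p hp
      simp only [Finset.mem_singleton] at hp
      subst hp
      norm_num
    · intro p hp q hq _
      simp only [Finset.mem_singleton] at hp hq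
      rw [hp, hq]
  | succ c ih =>
    obtain ⟨Q, hQ, hQp, hQi⟩ := ih
    obtain ⟨P, hP, hPp, hPi⟩ := exists_semi c m Q hQ hQp hQi m
    refine ⟨P, ?_, hPp, hPi⟩
    intro col hcol
    rcases hP col hcol with h | ⟨S, hS, hSm, hSc, hSP⟩
    · exact h
    · exact ⟨S, hS, hSm.ge, ⟨c, hSc⟩, par_cut P S hSP⟩

end Pool.Agent.H665R3.Balls
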