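import Mathlib
import Pool.Agent.H665R3.Balls

set_option autoImplicit false

namespace Pool.Agent.H665R3.Balls

open Filter Topology

/-- the lift of a planar point to space -/
noncomputable def psi (ε : ℝ) (p : ℝ × ℝ) : EuclideanSpace ℝ (Fin 3) :=
  !₂[ε * p.1, ε * p.2, ε ^ 2 * p.1 ^ 2]

lemma dist_psi (ε A C D : ℝ) (p : ℝ × ℝ) :
    dist (psi ε p) (!₂[-(C * ε) / 2, -(D * ε) / 2, -(A - 1) / 2]) ^ 2 =
      (ε * p.1 + C * ε / 2) ^ 2 + (ε * p.2 + D * ε / 2) ^ 2 +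
        (ε ^ 2 * p.1 ^ 2 + (A - 1) / 2) ^ 2 := by
  rw [EuclideanSpace.dist_eq, Real.sq_sqrt (by positivity), Fin.sum_univ_three]
  simp only [Real.dist_eq, sq_abs, psi]
  simp
  ring

lemma lift (P S : Finset (ℝ × ℝ)) (h : Cut P S) (hne : S.Nonempty) (hSP : S ⊆ P) :
    ∀ᶠ ε in 𝓝[>] (0 : ℝ), ∃ (z : EuclideanSpace ℝ (Fin 3)) (r : ℝ), 0 < r ∧
      ∀ p ∈ P, (p ∈ S → dist (psi ε p) z < r) ∧ (p ∉ S → r < dist (psi ε p) z) := by
  obtain ⟨A, C, D, E, hA, hP⟩ := h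
  have h1 : ∀ᶠ ε in 𝓝[>] (0 : ℝ), ∀ p ∈ P, p ∈ S → 0 < -(F A C D E p) - ε ^ 2 * p.1 ^ 4 := by
    rw [Finset.eventually_all]
    intro p hp
    by_cases hs : p ∈ S
    swap
    · exact Eventually.of_forall (fun δ h => absurd h hs)
    have := ev_pos (fun ε => -(F A C D E p) - ε ^ 2 * p.1 ^ 4) (by fun_prop) (by
      have := (hP p hp).1 hs
      simp only [ne_eq, OfNat.ofNat_ne_zero, not_false_eq_true, zero_pow, zero_mul, sub_zero]
      linarith)
    filter_upwards [this] with δ h _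
    exact h
  filter_upwards [h1, ev_self] with ε h1 hε
  set z : EuclideanSpace ℝ (Fin 3) := !₂[-(C * ε) / 2, -(D * ε) / 2, -(A - 1) / 2] with hz
  set ρ : ℝ := (C * ε / 2) ^ 2 + (D * ε / 2) ^ 2 + ((A - 1) / 2) ^ 2 - E * ε ^ 2 with hρ
  have key : ∀ p : ℝ × ℝ, dist (psi ε p) z ^ 2 = ρ + ε ^ 2 * (F A C D E p + ε ^ 2 * p.1 ^ 4) := by
    intro p
    rw [hz, dist_psi, hρ]
    simp only [F]
    ring
  have hin : ∀ p ∈ P, p ∈ S → dist (psi ε p) z ^ 2 < ρ := by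
    intro p hp hs
    rw [key]
    have h2 := h1 p hp hs
    have h3 : 0 < ε ^ 2 := by positivity
    have h4 : F A C D E p + ε ^ 2 * p.1 ^ 4 < 0 := by linarith
    have := mul_neg_of_pos_of_neg h3 h4
    linarith
  obtain ⟨s, hs⟩ := hne
  have hρ0 : 0 < ρ := lt_of_le_of_lt (sq_nonneg _) (hin s (hSP hs) hs)
  refine ⟨z, Real.sqrt ρ, Real.sqrt_pos.2 hρ0, fun p hp => ⟨fun hps => ?_, fun hps => ?_⟩⟩
  · exact Real.lt_sqrt_of_sq_lt (hin p hp hps)
  · rw [Real.sqrt_lt' ?_]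
    · rw [key]
      have h3 : 0 < ε ^ 2 := by positivity
      have h4 : 0 < F A C D E p + ε ^ 2 * p.1 ^ 4 := by
        have := (hP p hp).2 hps
        positivity
      have := mul_pos h3 h4
      linarith
    · have h3 : 0 < ε ^ 2 := by positivity
      have h4 : 0 < F A C D E p + ε ^ 2 * p.1 ^ 4 := by
        have := (hP p hp).2 hps
        positivity
      have := mul_pos h3 h4
      have h5 : 0 < dist (psi ε p) z ^ 2 := by rw [key]; linarith
      by_contra hcon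
      have h6 : dist (psi ε p) z = 0 := le_antisymm (not_lt.1 hcon) dist_nonneg
      rw [h6] at h5
      norm_num at h5

/-- Main result. -/
theorem main (c m : ℕ) : ∃ P : Finset (EuclideanSpace ℝ (Fin 3)),
    ∀ col : EuclideanSpace ℝ (Fin 3) → Fin c,
      ∃ (z : EuclideanSpace ℝ (Fin 3)) (r : ℝ), 0 < r ∧
        (∀ p ∈ P, dist p z ≠ r) ∧
        m ≤ {p : EuclideanSpace ℝ (Fin 3) | p ∈ P ∧ dist p z ≤ r}.ncard ∧
        ∃ k : Fin c, ∀ p ∈ P, dist p z ≤ r → col p = k := by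
  classical
  obtain ⟨P, hP, hPp, hPi⟩ := exists_good c (m + 1)
  have hev : ∀ᶠ ε in 𝓝[>] (0 : ℝ), ∀ S ∈ P.powerset, Cut P S → S.Nonempty →
      ∃ (z : EuclideanSpace ℝ (Fin 3)) (r : ℝ), 0 < r ∧
      ∀ p ∈ P, (p ∈ S → dist (psi ε p) z < r) ∧ (p ∉ S → r < dist (psi ε p) z) := by
    rw [Finset.eventually_all]
    intro S hS
    by_cases hc : Cut P S
    swap
    · exact Eventually.of_forall (fun τ h => absurd h hc)
    by_cases hne : S.Nonempty
    swap
    · exact Eventually.of_forall (fun τ _ h => absurd h hne)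
    filter_upwards [lift P S hc hne (Finset.mem_powerset.1 hS)] with σ h _ _
    exact h
  obtain ⟨ε, hev, hε⟩ := (hev.and ev_self).exists
  have hinj : ∀ p ∈ P, ∀ q ∈ P, psi ε p = psi ε q → p = q := by
    intro p hp q hq h
    have h1 := congrFun (congrArg (fun v : EuclideanSpace ℝ (Fin 3) => v.ofLp) h) 1
    simp only [psi] at h1
    have h2 : ε * p.2 = ε * q.2 := by simpa using h1
    exact hPi p hp q hq (mul_left_cancel₀ hε.ne' h2)
  refine ⟨P.image (psi ε), fun col => ?_⟩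
  obtain ⟨S, hSP, hSm, ⟨k, hk⟩, hcut⟩ := hP (fun p => (col (psi ε p)).val)
    (fun p _ => (col (psi ε p)).isLt)
  have hne : S.Nonempty := Finset.card_pos.1 (by omega)
  obtain ⟨z, r, hr, hzr⟩ := hev S (Finset.mem_powerset.2 hSP) hcut hne
  have hset : {p : EuclideanSpace ℝ (Fin 3) | p ∈ P.image (psi ε) ∧ dist p z ≤ r} =
      ((S.image (psi ε) : Finset _) : Set (EuclideanSpace ℝ (Fin 3))) := by
    ext p
    simp only [Finset.mem_image, Set.mem_setOf_eq, Finset.coe_image, Set.mem_image,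
      Finset.mem_coe]
    constructor
    · rintro ⟨⟨q, hq, rfl⟩, hd⟩
      refine ⟨q, ?_, rfl⟩
      by_contra hs
      exact absurd ((hzr q hq).2 hs) (not_lt.2 hd)
    · rintro ⟨q, hq, rfl⟩
      exact ⟨⟨q, hSP hq, rfl⟩, ((hzr q (hSP hq)).1 hq).le⟩
  obtain ⟨s, hs⟩ := hne
  refine ⟨z, r, hr, ?_, ?_, ⟨col (psi ε s), ?_⟩⟩
  · intro p hp
    obtain ⟨q, hq, rfl⟩ := Finset.mem_image.1 hp
    by_cases hs : q ∈ S
    · exact ((hzr q hq).1 hs).ne
    · exact ((hzr q hq).2 hs).ne'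
  · rw [hset, Set.ncard_coe_finset, Finset.card_image_of_injOn]
    · omega
    · intro p hp q hq h
      exact hinj p (hSP hp) q (hSP hq) h
  · intro p hp hd
    obtain ⟨q, hq, rfl⟩ := Finset.mem_image.1 hp
    have hqS : q ∈ S := by
      by_contra hs
      exact absurd ((hzr q hq).2 hs) (not_lt.2 hd)
    apply Fin.ext
    rw [hk q hqS, hk s hs]

end Pool.Agent.H665R3.Balls
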