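import Mathlib

/-!
Codes closed under Boolean operations: the size bound for conjunction and majority.
-/

set_option autoImplicit false

namespace Pool.Agent.H665R3.CodeOps

open Finset

variable {n : ℕ}

/-- Closed under a ternary operation. -/
def T3 (C : Finset (Fin n → Bool)) (h : Bool → Bool → Bool → Bool) : Prop :=
  ∀ x ∈ C, ∀ y ∈ C, ∀ z ∈ C, (fun j => h (x j) (y j) (z j)) ∈ C

/-- Minimum distance at least `d`. -/
def MD (C : Finset (Fin n → Bool)) (d : ℕ) : Prop :=
  ∀ x ∈ C, ∀ y ∈ C, x ≠ y → d ≤ hammingDist x y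

def Res (C : Finset (Fin n → Bool)) (S : Finset (Fin n)) : Prop :=
  ∀ x ∈ C, ∀ y ∈ C, (∀ j ∈ S, x j = y j) → x = y

theorem exists_res (C : Finset (Fin n → Bool)) : ∃ S : Finset (Fin n), Res C S ∧
    ∀ i ∈ S, ∃ x ∈ C, ∃ y ∈ C, (∀ j ∈ S, j ≠ i → x j = y j) ∧ x i = true ∧ y i = false := by
  classical
  obtain ⟨S, hS, hmin⟩ := Finset.exists_min_image ((univ : Finset (Finset (Fin n))).filter
    (fun S => Res C S)) Finset.card ⟨univ, by
      simp only [mem_filter, mem_univ, true_and]
      intro x _ y _ h
      funext j
      exact h j (mem_univ j)⟩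
  simp only [mem_filter, mem_univ, true_and] at hS hmin
  refine ⟨S, hS, fun i hi => ?_⟩
  have hn : ¬ Res C (S.erase i) := by
    intro h
    have h1 := hmin _ h
    have h2 := Finset.card_erase_lt_of_mem hi
    omega
  unfold Res at hn
  push Not at hn
  obtain ⟨x, hx, y, hy, hxy, hne⟩ := hn
  have hag : ∀ j ∈ S, j ≠ i → x j = y j := fun j hj hji => hxy j (mem_erase.mpr ⟨hji, hj⟩)
  have hi' : x i ≠ y i := by
    intro h
    apply hne
    apply hS x hx y hy
    intro j hj
    by_cases hji : j = i
    · rw [hji, h]
    · exact hag j hj hji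
  cases hxi : x i
  · refine ⟨y, hy, x, hx, fun j hj hji => (hag j hj hji).symm, ?_, hxi⟩
    cases hyi : y i
    · exact absurd (hxi.trans hyi.symm) hi'
    · rfl
  · refine ⟨x, hx, y, hy, hag, hxi, ?_⟩
    cases hyi : y i
    · rfl
    · exact absurd (hxi.trans hyi.symm) hi'

theorem card_le_of_res {d : ℕ} (hd : 1 ≤ d) (C : Finset (Fin n → Bool)) (S : Finset (Fin n))
    (hS : Res C S) (D : Fin n → Finset (Fin n)) (hD : ∀ i ∈ S, d ≤ (D i).card)
    (hdis : ∀ i ∈ S, ∀ k ∈ S, i ≠ k → Disjoint (D i) (D k)) : C.card ≤ 2 ^ (n / d) := by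
  classical
  have h1 : S.card * d ≤ n := by
    calc S.card * d = ∑ _i ∈ S, d := by simp
      _ ≤ ∑ i ∈ S, (D i).card := Finset.sum_le_sum hD
      _ = (S.biUnion D).card := (Finset.card_biUnion hdis).symm
      _ ≤ (univ : Finset (Fin n)).card := Finset.card_le_card (Finset.subset_univ _)
      _ = n := by simp
  have h2 : S.card ≤ n / d := (Nat.le_div_iff_mul_le (by omega)).mpr h1
  have h3 : C.card ≤ (S.powerset).card := by
    apply Finset.card_le_card_of_injOn (fun x => S.filter (fun j => x j = true))
    · intro x _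
      exact Finset.mem_coe.mpr (Finset.mem_powerset.mpr (Finset.filter_subset _ _))
    · intro x hx y hy hxy
      apply hS x hx y hy
      intro j hj
      have := congrArg (fun T => j ∈ T) hxy
      simp only [mem_filter, hj, true_and, eq_iff_iff] at this
      exact Bool.eq_iff_iff.mpr this
  rw [Finset.card_powerset] at h3
  exact h3.trans (Nat.pow_le_pow_right (by norm_num) h2)

theorem bound_maj {d : ℕ} (hd : 1 ≤ d) (C : Finset (Fin n → Bool)) (hC : MD C d)
    (hm : T3 C (fun x y z => (x && y) || (x && z) || (y && z))) : C.card ≤ 2 ^ (n / d) := by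
  classical
  obtain ⟨S, hS, hpair⟩ := exists_res C
  have hex : ∀ i : Fin n, ∃ x y : Fin n → Bool, i ∈ S → (x ∈ C ∧ y ∈ C ∧
      (∀ j ∈ S, j ≠ i → x j = y j) ∧ x i = true ∧ y i = false) := by
    intro i
    by_cases hi : i ∈ S
    · obtain ⟨x, hx, y, hy, h⟩ := hpair i hi
      exact ⟨x, y, fun _ => ⟨hx, hy, h⟩⟩
    · exact ⟨fun _ => true, fun _ => true, fun h => absurd h hi⟩
  choose X Y hXY using hex
  have key : ∀ i ∈ S, ∀ c, X i c ≠ Y i c → ∀ z ∈ C, z c = if z i = true then X i c else Y i c := by
    intro i hi c hc z hz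
    obtain ⟨hX, hY, hag, hXi, hYi⟩ := hXY i hi
    have hw := hm _ hX _ hY _ hz
    have hval : ∀ a b : Bool, a ≠ b → ((a && b) || (a && z c) || (b && z c)) = z c := by
      intro a b hab
      cases a <;> cases b <;> cases z c <;> simp_all
    by_cases hzi : z i = true
    · rw [if_pos hzi]
      have he := hS _ hw _ hX (by
        intro j hj
        by_cases hji : j = i
        · subst hji; simp [hXi, hYi, hzi]
        · rw [← hag j hj hji]; cases X i j <;> simp)
      have := congrFun he c
      simp only at this
      rw [hval _ _ hc] at this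
      exact this
    · rw [if_neg hzi]
      have hzi' : z i = false := by simpa using hzi
      have he := hS _ hw _ hY (by
        intro j hj
        by_cases hji : j = i
        · subst hji; simp [hXi, hYi, hzi']
        · rw [← hag j hj hji]; cases X i j <;> simp)
      have := congrFun he c
      simp only at this
      rw [hval _ _ hc] at this
      exact this
  apply card_le_of_res hd C S hS (fun i => univ.filter (fun j => X i j ≠ Y i j))
  · intro i hi
    obtain ⟨hX, hY, hag, hXi, hYi⟩ := hXY i hi
    apply hC _ hX _ hY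
    intro h
    rw [h, hYi] at hXi
    exact absurd hXi (by simp)
  · intro i hi k hk hik
    rw [Finset.disjoint_left]
    intro c hci hck
    simp only [mem_filter, mem_univ, true_and] at hci hck
    obtain ⟨hX, hY, hag, hXk, hYk⟩ := hXY k hk
    have e1 := key i hi c hci _ hX
    have e2 := key i hi c hci _ hY
    rw [hag i hi hik] at e1
    exact hck (e1.trans e2.symm)

theorem min_word (C : Finset (Fin n → Bool))
    (hm : T3 C (fun x y _ => x && y)) (i : Fin n) (hi : ∃ x ∈ C, x i = true) :
    ∃ M ∈ C, M i = true ∧ ∀ X ∈ C, X i = true → ∀ j, M j = true → X j = true := by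
  classical
  obtain ⟨x0, hx0, hx0i⟩ := hi
  obtain ⟨M, hM, hmin⟩ := Finset.exists_min_image (C.filter (fun x => x i = true))
    (fun x => (univ.filter (fun j => x j = true)).card) ⟨x0, by simp [hx0, hx0i]⟩
  simp only [mem_filter] at hM hmin
  refine ⟨M, hM.1, hM.2, fun X hX hXi j hj => ?_⟩
  have hw := hm M hM.1 X hX X hX
  have h1 := hmin _ ⟨hw, by simp [hM.2, hXi]⟩
  have h2 : (univ.filter (fun j => (M j && X j) = true)) = univ.filter (fun j => M j = true) := by
    apply Finset.eq_of_subset_of_card_le
    · intro a ha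
      simp only [mem_filter, mem_univ, true_and, Bool.and_eq_true] at ha ⊢
      exact ha.1
    · exact h1
  have h3 : j ∈ univ.filter (fun j => (M j && X j) = true) := by
    rw [h2]; simp [hj]
  simp only [mem_filter, mem_univ, true_and, Bool.and_eq_true] at h3
  exact h3.2

theorem bound_and {d : ℕ} (hd : 1 ≤ d) (C : Finset (Fin n → Bool)) (hC : MD C d)
    (hm : T3 C (fun x y _ => x && y)) : C.card ≤ 2 ^ (n / d) := by
  classical
  obtain ⟨S, hS, hpair⟩ := exists_res C
  have hex : ∀ i : Fin n, ∃ M y : Fin n → Bool, i ∈ S → (M ∈ C ∧ y ∈ C ∧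
      (∀ j ∈ S, j ≠ i → M j = true → y j = true) ∧ M i = true ∧ y i = false ∧
      ∀ X ∈ C, X i = true → ∀ j, M j = true → X j = true) := by
    intro i
    by_cases hi : i ∈ S
    · obtain ⟨x, hx, y, hy, h, hxi, hyi⟩ := hpair i hi
      obtain ⟨M, hM, hMi, hmin⟩ := min_word C hm i ⟨x, hx, hxi⟩
      refine ⟨M, y, fun _ => ⟨hM, hy, fun j hj hji hMj => ?_, hMi, hyi, hmin⟩⟩
      rw [← h j hj hji]
      exact hmin x hx hxi j hMj
    · exact ⟨fun _ => true, fun _ => true, fun h => absurd h hi⟩
  choose M Y hMY using hex
  have hand : ∀ x ∈ C, ∀ y ∈ C, (fun j => x j && y j) ∈ C := fun x hx y hy => hm x hx y hy y hy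
  apply card_le_of_res hd C S hS (fun i => univ.filter (fun j => M i j = true ∧ Y i j = false))
  · intro i hi
    obtain ⟨hM, hY, hag, hMi, hYi, hmin⟩ := hMY i hi
    have h1 := hC _ hM _ (hand _ hM _ hY) (by
      intro h
      have := congrFun h i
      simp [hMi, hYi] at this)
    refine h1.trans (le_of_eq ?_)
    unfold hammingDist
    congr 1
    apply Finset.filter_congr
    intro j _
    have hb : ∀ a b : Bool, (a ≠ (a && b)) ↔ (a = true ∧ b = false) := by decide
    exact hb _ _
  · intro i hi k hk hik
    rw [Finset.disjoint_left]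
    intro c hci hck
    simp only [mem_filter, mem_univ, true_and] at hci hck
    obtain ⟨hM, hY, hag, hMi, hYi, hmin⟩ := hMY i hi
    obtain ⟨hM', hY', hag', hMk, hYk, hmin'⟩ := hMY k hk
    by_cases h1 : M k i = true
    · by_cases h2 : M i k = true
      · have h3 := hag k hk (Ne.symm hik) h2
        have h4 := hmin' _ (hand _ hM _ hY) (by simp [h2, h3]) i h1
        simp [hYi] at h4
      · -- symmetric case
        have h2' : M i k = false := by simpa using h2
        have he := hS _ (hand _ hM' _ hM) _ (hand _ (hand _ hM' _ hY') _ hM) (by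
          intro j hj
          by_cases hjk : j = k
          · subst hjk; simp [h2']
          · by_cases hMj : M k j = true
            · have := hag' j hj hjk hMj
              simp [this]
            · have : M k j = false := by simpa using hMj
              simp [this])
        have := congrFun he c
        simp [hci.1, hck.1, hck.2] at this
    · have h1' : M k i = false := by simpa using h1
      have he := hS _ (hand _ hM _ hM') _ (hand _ (hand _ hM _ hY) _ hM') (by
        intro j hj
        by_cases hji : j = i
        · subst hji; simp [h1']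
        · by_cases hMj : M i j = true
          · have := hag j hj hji hMj
            simp [this]
          · have : M i j = false := by simpa using hMj
            simp [this])
      have := congrFun he c
      simp [hci.1, hck.1, hci.2] at this

theorem bound_or {d : ℕ} (hd : 1 ≤ d) (C : Finset (Fin n → Bool)) (hC : MD C d)
    (hm : T3 C (fun x y _ => x || y)) : C.card ≤ 2 ^ (n / d) := by
  classical
  have hinj : Function.Injective (fun (x : Fin n → Bool) (j : Fin n) => !(x j)) := by
    intro x y h
    funext j
    have := congrFun h j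
    simpa using this
  rw [← Finset.card_image_of_injective C hinj]
  apply bound_and hd
  · intro x hx y hy hxy
    obtain ⟨x', hx', rfl⟩ := Finset.mem_image.mp hx
    obtain ⟨y', hy', rfl⟩ := Finset.mem_image.mp hy
    have h1 := hC x' hx' y' hy' (fun h => hxy (by rw [h]))
    refine h1.trans (le_of_eq ?_)
    unfold hammingDist
    congr 1
    apply Finset.filter_congr
    intro j _
    simp
  · intro x hx y hy z hz
    obtain ⟨x', hx', rfl⟩ := Finset.mem_image.mp hx
    obtain ⟨y', hy', rfl⟩ := Finset.mem_image.mp hy
    apply Finset.mem_image.mpr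
    refine ⟨_, hm x' hx' y' hy' y' hy', ?_⟩
    funext j
    simp

end Pool.Agent.H665R3.CodeOps
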