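import Mathlib

/-!
Ternary Boolean operations with a non-affine binary restriction generate conjunction,
disjunction or majority.
-/

set_option autoImplicit false

namespace Pool.Agent.H665R3.CodeOps

def pj1 : Bool → Bool → Bool → Bool := fun x _ _ => x
def pj2 : Bool → Bool → Bool → Bool := fun _ y _ => y
def pj3 : Bool → Bool → Bool → Bool := fun _ _ z => z

def cmp (h a b c : Bool → Bool → Bool → Bool) : Bool → Bool → Bool → Bool :=
  fun x y z => h (a x y z) (b x y z) (c x y z)

def tms (h : Bool → Bool → Bool → Bool) : List (Bool → Bool → Bool → Bool) :=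
  [cmp h (cmp h pj2 pj1 pj1) (cmp h pj1 pj2 pj2) (cmp h pj2 pj1 pj1),
   cmp h pj1 pj2 (cmp h pj3 pj3 pj3),
   cmp h (cmp h pj2 pj2 pj1) (cmp h pj2 pj2 pj1) pj1,
   cmp h (cmp h pj1 pj2 pj2) pj2 pj1,
   cmp h pj2 (cmp h pj2 pj1 pj2) pj1,
   cmp h (cmp h pj3 pj2 pj1) pj1 (cmp h pj1 pj1 pj2),
   cmp h pj1 (cmp h pj1 pj2 pj1) (cmp h pj1 pj2 pj2),
   cmp h (cmp h pj1 pj1 pj2) pj1 (cmp h pj2 pj1 pj2),
   cmp h (cmp h pj3 pj1 pj1) (cmp h pj3 pj2 pj3) (cmp h pj2 pj3 pj1),
   cmp h (cmp h pj2 pj2 pj1) (cmp h pj2 pj3 pj1) (cmp h pj2 pj3 pj2),
   cmp h pj3 (cmp h pj3 pj1 pj3) (cmp h pj1 pj2 pj2)]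

def eq3 (a b : Bool → Bool → Bool → Bool) : Bool :=
  (a false false false == b false false false) && (a false false true == b false false true) &&
  (a false true false == b false true false) && (a false true true == b false true true) &&
  (a true false false == b true false false) && (a true false true == b true false true) &&
  (a true true false == b true true false) && (a true true true == b true true true)

theorem eq3_eq {a b : Bool → Bool → Bool → Bool} (h : eq3 a b = true) : a = b := by
  simp only [eq3, Bool.and_eq_true, beq_iff_eq] at h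
  obtain ⟨⟨⟨⟨⟨⟨⟨h0, h1⟩, h2⟩, h3⟩, h4⟩, h5⟩, h6⟩, h7⟩ := h
  funext x y z
  cases x <;> cases y <;> cases z <;> assumption

def andT : Bool → Bool → Bool → Bool := fun x y _ => x && y
def orT : Bool → Bool → Bool → Bool := fun x y _ => x || y
def majT : Bool → Bool → Bool → Bool := fun x y z => (x && y) || (x && z) || (y && z)

def tab (a0 a1 a2 a3 a4 a5 a6 a7 : Bool) : Bool → Bool → Bool → Bool := fun x y z =>
  match x, y, z with
  | false, false, false => a0
  | false, false, true => a1
  | false, true, false => a2
  | false, true, true => a3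
  | true, false, false => a4
  | true, false, true => a5
  | true, true, false => a6
  | true, true, true => a7

theorem check : ∀ a0 a1 a2 a3 a4 a5 a6 a7 : Bool, (a1 ^^ a3 ^^ a5 ^^ a7) = true →
    (tms (tab a0 a1 a2 a3 a4 a5 a6 a7)).any
      (fun t => eq3 t andT || eq3 t orT || eq3 t majT) = true := by
  decide

theorem tern (h : Bool → Bool → Bool → Bool)
    (hh : (h false false true ^^ h false true true ^^ h true false true ^^ h true true true) = true) :
    ∃ t ∈ tms h, t = andT ∨ t = orT ∨ t = majT := by
  have e : h = tab (h false false false) (h false false true) (h false true false)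
      (h false true true) (h true false false) (h true false true) (h true true false)
      (h true true true) := by
    funext x y z
    cases x <;> cases y <;> cases z <;> rfl
  have := check (h false false false) (h false false true) (h false true false)
      (h false true true) (h true false false) (h true false true) (h true true false)
      (h true true true) hh
  rw [← e] at this
  rw [List.any_eq_true] at this
  obtain ⟨t, ht, h1⟩ := this
  simp only [Bool.or_eq_true] at h1
  refine ⟨t, ht, ?_⟩
  rcases h1 with (h1 | h1) | h1
  · exact Or.inl (eq3_eq h1)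
  · exact Or.inr (Or.inl (eq3_eq h1))
  · exact Or.inr (Or.inr (eq3_eq h1))

end Pool.Agent.H665R3.CodeOps
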