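import Pool.Agent.H665R3.CodeOpsA
import Pool.Agent.H665R3.CodeOpsB

/-!
Non-affine operations: reduction to ternary ones, and the size bound.
-/

set_option autoImplicit false

namespace Pool.Agent.H665R3.CodeOps

open Finset

/-- `C` is closed under the coordinatewise application of `f`. -/
def Clo {n k : ℕ} (C : Finset (Fin n → Bool)) (f : (Fin k → Bool) → Bool) : Prop :=
  ∀ c : Fin k → Fin n → Bool, (∀ i, c i ∈ C) → (fun j => f (fun i => c i j)) ∈ C

/-- `f x = b + ∑ i ∈ A, x i` modulo 2. -/
def Aff {k : ℕ} (f : (Fin k → Bool) → Bool) : Prop :=
  ∃ (b : Bool) (A : Finset (Fin k)),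
    ∀ x, f x = (b ^^ decide (Odd (A.filter (fun i => x i = true)).card))

variable {n k : ℕ}

/-- Value of `f` at the indicator of `T`. -/
def gv (f : (Fin k → Bool) → Bool) (T : Finset (Fin k)) : Bool := f (fun l => decide (l ∈ T))

theorem aff_of_squares (f : (Fin k → Bool) → Bool)
    (hsq : ∀ (T : Finset (Fin k)) (i j : Fin k), i ≠ j → i ∉ T → j ∉ T →
      (gv f (insert i (insert j T)) ^^ gv f (insert i T) ^^ gv f (insert j T) ^^ gv f T) = false) :
    Aff f := by
  classical
  have hdel : ∀ T : Finset (Fin k), ∀ i, i ∉ T →
      (gv f (insert i T) ^^ gv f T) = (gv f {i} ^^ gv f ∅) := by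
    intro T
    induction T using Finset.induction_on with
    | empty => intro i _; rfl
    | insert j T hj ih =>
      intro i hi
      have hij : i ≠ j := fun h => hi (by simp [h])
      have hiT : i ∉ T := fun h => hi (by simp [h])
      have h1 := hsq T i j hij hiT hj
      have h2 := ih i hiT
      rw [← h2]
      have hb : ∀ a b c d : Bool, (a ^^ b ^^ c ^^ d) = false → (a ^^ c) = (b ^^ d) := by decide
      exact hb _ _ _ _ h1
  have hform : ∀ T : Finset (Fin k), gv f T = (gv f ∅ ^^ decide (Odd
      ((univ.filter (fun i => (gv f {i} ^^ gv f ∅) = true)).filter (fun i => i ∈ T)).card)) := by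
    intro T
    induction T using Finset.induction_on with
    | empty => simp
    | insert j T hj ih =>
      have h1 := hdel T j hj
      have h2 : gv f (insert j T) = (gv f T ^^ (gv f {j} ^^ gv f ∅)) := by
        rw [← h1]
        have hb : ∀ a b : Bool, a = (b ^^ (a ^^ b)) := by decide
        exact hb _ _
      rw [h2, ih]
      by_cases hjA : (gv f {j} ^^ gv f ∅) = true
      · have e1 : ((univ.filter (fun i => (gv f {i} ^^ gv f ∅) = true)).filter
            (fun i => i ∈ insert j T)) = insert j ((univ.filter
              (fun i => (gv f {i} ^^ gv f ∅) = true)).filter (fun i => i ∈ T)) := by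
          ext a
          simp only [mem_filter, mem_univ, true_and, mem_insert]
          constructor
          · rintro ⟨h3, h4 | h4⟩
            · exact Or.inl h4
            · exact Or.inr ⟨h3, h4⟩
          · rintro (h4 | h4)
            · subst h4; exact ⟨hjA, Or.inl rfl⟩
            · exact ⟨h4.1, Or.inr h4.2⟩
        rw [e1, Finset.card_insert_of_notMem (by simp [hj]), hjA]
        have hb : ∀ m : ℕ, decide (Odd (m + 1)) = !(decide (Odd m)) := by
          intro m
          by_cases hm : Odd m
          · have : ¬ Odd (m + 1) := by rw [Nat.odd_add_one]; simpa using hm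
            simp [hm, this]
          · have : Odd (m + 1) := by rw [Nat.odd_add_one]; exact hm
            simp [hm, this]
        rw [hb]
        have hc : ∀ a u : Bool, ((a ^^ u) ^^ true) = (a ^^ !u) := by decide
        exact hc _ _
      · have hjA' : (gv f {j} ^^ gv f ∅) = false := by simpa using hjA
        have e1 : ((univ.filter (fun i => (gv f {i} ^^ gv f ∅) = true)).filter
            (fun i => i ∈ insert j T)) = ((univ.filter
              (fun i => (gv f {i} ^^ gv f ∅) = true)).filter (fun i => i ∈ T)) := by
          ext a
          simp only [mem_filter, mem_univ, true_and, mem_insert]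
          constructor
          · rintro ⟨h3, h4 | h4⟩
            · subst h4; exact absurd h3 hjA
            · exact ⟨h3, h4⟩
          · rintro ⟨h3, h4⟩
            exact ⟨h3, Or.inr h4⟩
        rw [e1, hjA', Bool.xor_false]
  refine ⟨gv f ∅, univ.filter (fun i => (gv f {i} ^^ gv f ∅) = true), fun x => ?_⟩
  have h1 := hform (univ.filter (fun i => x i = true))
  have h2 : gv f (univ.filter (fun i => x i = true)) = f x := by
    unfold gv
    congr 1
    funext l
    simp
  rw [h2] at h1
  rw [h1]
  simp only [mem_filter, mem_univ, true_and]

/-- The quaternary minor. -/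
def mn (f : (Fin k → Bool) → Bool) (T : Finset (Fin k)) (i j : Fin k) (u v s t : Bool) : Bool :=
  f (fun l => if l = i then u else if l = j then v else if l ∈ T then t else s)

theorem t3_of_clo (C : Finset (Fin n → Bool)) (f : (Fin k → Bool) → Bool) (hf : Clo C f)
    (T : Finset (Fin k)) (i j : Fin k) :
    T3 C (fun x y z => mn f T i j x y x z) ∧ T3 C (fun x y z => mn f T i j z x y z) := by
  refine ⟨fun x hx y hy z hz => ?_, fun x hx y hy z hz => ?_⟩
  · have := hf (fun l => if l = i then x else if l = j then y else if l ∈ T then z else x)
      (by intro l; split_ifs <;> assumption)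
    convert this using 1
    funext c
    show mn f T i j (x c) (y c) (x c) (z c) = _
    unfold mn
    apply congrArg f
    funext l
    split_ifs <;> rfl
  · have := hf (fun l => if l = i then z else if l = j then x else if l ∈ T then z else y)
      (by intro l; split_ifs <;> assumption)
    convert this using 1
    funext c
    show mn f T i j (z c) (x c) (y c) (z c) = _
    unfold mn
    apply congrArg f
    funext l
    split_ifs <;> rfl

theorem exists_tern (C : Finset (Fin n → Bool)) (f : (Fin k → Bool) → Bool) (hf : Clo C f)
    (hna : ¬ Aff f) : ∃ h : Bool → Bool → Bool → Bool, T3 C h ∧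
      (h false false true ^^ h false true true ^^ h true false true ^^ h true true true) = true := by
  classical
  by_contra hcon
  push Not at hcon
  apply hna
  apply aff_of_squares
  intro T i j hij hi hj
  obtain ⟨h1, h2⟩ := t3_of_clo C f hf T i j
  have e1 := hcon _ h1
  have e2 := hcon _ h2
  have g11 : gv f (insert i (insert j T)) = mn f T i j true true false true := by
    unfold gv mn
    congr 1
    funext l
    by_cases ha : l = i
    · simp [ha]
    · by_cases hb : l = j
      · simp [ha, hb]
      · simp [ha, hb]
  have g10 : gv f (insert i T) = mn f T i j true false false true := by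
    unfold gv mn
    congr 1
    funext l
    by_cases ha : l = i
    · simp [ha]
    · by_cases hb : l = j
      · subst hb; simp [ha, hj]
      · simp [ha, hb]
  have g01 : gv f (insert j T) = mn f T i j false true false true := by
    unfold gv mn
    congr 1
    funext l
    by_cases ha : l = i
    · subst ha; simp [hij, hi]
    · by_cases hb : l = j
      · subst hb; simp [ha]
      · simp [ha, hb]
  have g00 : gv f T = mn f T i j false false false true := by
    unfold gv mn
    congr 1
    funext l
    by_cases ha : l = i
    · subst ha; simp [hi]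
    · by_cases hb : l = j
      · subst hb; simp [hj]
      · simp [ha, hb]
  rw [g11, g10, g01, g00]
  have hb : ∀ a b c d e f : Bool, ¬ ((a ^^ b ^^ c ^^ d) = true) → ¬ ((e ^^ c ^^ f ^^ d) = true) →
      (f ^^ e ^^ b ^^ a) = false := by decide
  exact hb _ _ _ _ _ _ e1 e2

theorem t3_pj1 (C : Finset (Fin n → Bool)) : T3 C pj1 := fun _ hx _ _ _ _ => hx
theorem t3_pj2 (C : Finset (Fin n → Bool)) : T3 C pj2 := fun _ _ _ hy _ _ => hy
theorem t3_pj3 (C : Finset (Fin n → Bool)) : T3 C pj3 := fun _ _ _ _ _ hz => hz

theorem t3_cmp (C : Finset (Fin n → Bool)) {h a b c : Bool → Bool → Bool → Bool} (hh : T3 C h)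
    (ha : T3 C a) (hb : T3 C b) (hc : T3 C c) : T3 C (cmp h a b c) :=
  fun x hx y hy z hz => hh _ (ha x hx y hy z hz) _ (hb x hx y hy z hz) _ (hc x hx y hy z hz)

theorem t3_tms (C : Finset (Fin n → Bool)) {h : Bool → Bool → Bool → Bool} (hh : T3 C h) :
    ∀ t ∈ tms h, T3 C t := by
  have p1 := t3_pj1 C
  have p2 := t3_pj2 C
  have p3 := t3_pj3 C
  intro t ht
  simp only [tms, List.mem_cons, List.mem_nil_iff, or_false] at ht
  rcases ht with h | h | h | h | h | h | h | h | h | h | h <;> subst h <;>
    first
    | exact t3_cmp C hh (t3_cmp C hh (by assumption) (by assumption) (by assumption))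
        (t3_cmp C hh (by assumption) (by assumption) (by assumption))
        (t3_cmp C hh (by assumption) (by assumption) (by assumption))
    | exact t3_cmp C hh (by assumption)
        (t3_cmp C hh (by assumption) (by assumption) (by assumption))
        (t3_cmp C hh (by assumption) (by assumption) (by assumption))
    | exact t3_cmp C hh (t3_cmp C hh (by assumption) (by assumption) (by assumption))
        (by assumption)
        (t3_cmp C hh (by assumption) (by assumption) (by assumption))
    | exact t3_cmp C hh (t3_cmp C hh (by assumption) (by assumption) (by assumption))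
        (t3_cmp C hh (by assumption) (by assumption) (by assumption))
        (by assumption)
    | exact t3_cmp C hh (by assumption) (by assumption)
        (t3_cmp C hh (by assumption) (by assumption) (by assumption))
    | exact t3_cmp C hh (by assumption)
        (t3_cmp C hh (by assumption) (by assumption) (by assumption))
        (by assumption)
    | exact t3_cmp C hh (t3_cmp C hh (by assumption) (by assumption) (by assumption))
        (by assumption) (by assumption)

theorem bound_nonaffine {d : ℕ} (hd : 1 ≤ d) (C : Finset (Fin n → Bool)) (hC : MD C d)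
    (f : (Fin k → Bool) → Bool) (hf : Clo C f) (hna : ¬ Aff f) : C.card ≤ 2 ^ (n / d) := by
  obtain ⟨h, hh, h1⟩ := exists_tern C f hf hna
  obtain ⟨t, ht, h2⟩ := tern h h1
  have h3 := t3_tms C hh t ht
  rcases h2 with h2 | h2 | h2
  · rw [h2] at h3; exact bound_and hd C hC h3
  · rw [h2] at h3; exact bound_or hd C hC h3
  · rw [h2] at h3; exact bound_maj hd C hC h3

end Pool.Agent.H665R3.CodeOps
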