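import Pool.Agent.H665R3.CodeOpsC

/-!
Block repetition codes, and the Gilbert-Varshamov bound for linear codes containing the
all-ones word.
-/

set_option autoImplicit false

namespace Pool.Agent.H665R3.CodeOps

open Finset

variable {n : ℕ}

/-- The block of a coordinate. -/
def blk (n d : ℕ) (hm : 1 ≤ n / d) (j : Fin n) : Fin (n / d) :=
  ⟨min (j.val / d) (n / d - 1), by omega⟩

theorem exists_block {d : ℕ} (hd : 1 ≤ d) (hdn : d ≤ n) : ∃ C : Finset (Fin n → Bool),
    (∀ (k : ℕ) (f : (Fin k → Bool) → Bool), Clo C f) ∧ MD C d ∧ C.card = 2 ^ (n / d) := by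
  classical
  have hm : 1 ≤ n / d := (Nat.one_le_div_iff (by omega)).mpr hdn
  let W : (Fin (n / d) → Bool) → (Fin n → Bool) := fun u j => u (blk n d hm j)
  have hlt : ∀ (p : Fin (n / d)) (r : Fin d), p.val * d + r.val < n := by
    intro p r
    have h1 : (p.val + 1) * d ≤ n / d * d := Nat.mul_le_mul_right d p.isLt
    have h2 : n / d * d ≤ n := Nat.div_mul_le_self n d
    have h3 := r.isLt
    nlinarith
  have hblk : ∀ (p : Fin (n / d)) (r : Fin d), blk n d hm ⟨p.val * d + r.val, hlt p r⟩ = p := by
    intro p r
    apply Fin.ext
    show min ((p.val * d + r.val) / d) (n / d - 1) = p.val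
    have h1 : (p.val * d + r.val) / d = p.val := by
      rw [Nat.add_comm, Nat.add_mul_div_right _ _ (by omega), Nat.div_eq_of_lt r.isLt, Nat.zero_add]
    rw [h1]
    have := p.isLt
    omega
  have hW : ∀ u v, u ≠ v → d ≤ hammingDist (W u) (W v) := by
    intro u v huv
    obtain ⟨p, hp⟩ := Function.ne_iff.mp huv
    have h1 : ((univ : Finset (Fin d)).image (fun r => (⟨p.val * d + r.val, hlt p r⟩ : Fin n))) ⊆
        univ.filter (fun j => W u j ≠ W v j) := by
      intro j hj
      obtain ⟨r, _, rfl⟩ := Finset.mem_image.mp hj
      simp only [mem_filter, mem_univ, true_and]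
      show u (blk n d hm _) ≠ v (blk n d hm _)
      rw [hblk p r]
      exact hp
    have h2 := Finset.card_le_card h1
    rw [Finset.card_image_of_injective _ (by
      intro r r' h
      have := congrArg Fin.val h
      simp only at this
      apply Fin.ext
      omega), Finset.card_univ, Fintype.card_fin] at h2
    exact h2
  have hinj : Function.Injective W := by
    intro u v h
    by_contra hne
    have := hW u v hne
    rw [h, hammingDist_self] at this
    omega
  refine ⟨univ.image W, ?_, ?_, ?_⟩
  · intro k f c hc
    have hc' : ∀ i, ∃ u, W u = c i := by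
      intro i
      obtain ⟨u, _, hu⟩ := Finset.mem_image.mp (hc i)
      exact ⟨u, hu⟩
    choose u hu using hc'
    apply Finset.mem_image.mpr
    refine ⟨fun p => f (fun i => u i p), mem_univ _, ?_⟩
    funext j
    show f (fun i => u i (blk n d hm j)) = f (fun i => c i j)
    congr 1
    funext i
    rw [← hu i]
  · intro x hx y hy hxy
    obtain ⟨u, _, rfl⟩ := Finset.mem_image.mp hx
    obtain ⟨v, _, rfl⟩ := Finset.mem_image.mp hy
    exact hW u v (fun h => hxy (by rw [h]))
  · rw [Finset.card_image_of_injective _ hinj]
    simp

/-- Weight. -/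
def wt (x : Fin n → Bool) : ℕ := (univ.filter (fun j => x j = true)).card

/-- Sum of words. -/
def ad (x y : Fin n → Bool) : Fin n → Bool := fun j => x j ^^ y j

theorem ad_assoc (x y z : Fin n → Bool) : ad (ad x y) z = ad x (ad y z) := by
  funext j; simp [ad]

theorem ad_comm (x y : Fin n → Bool) : ad x y = ad y x := by
  funext j; exact Bool.xor_comm _ _

theorem ad_self (x : Fin n → Bool) : ad x x = fun _ => false := by
  funext j; simp [ad]

theorem ad_zero (x : Fin n → Bool) : ad x (fun _ => false) = x := by
  funext j; simp [ad]

theorem zero_ad (x : Fin n → Bool) : ad (fun _ => false) x = x := by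
  funext j; simp [ad]

theorem hd_eq (x y : Fin n → Bool) : hammingDist x y = wt (ad x y) := by
  unfold hammingDist wt ad
  congr 1
  apply Finset.filter_congr
  intro j _
  cases x j <;> cases y j <;> simp

structure Good (C : Finset (Fin n → Bool)) (d : ℕ) : Prop where
  zero : (fun _ => false) ∈ C
  one : (fun _ => true) ∈ C
  add : ∀ x ∈ C, ∀ y ∈ C, ad x y ∈ C
  min : ∀ x ∈ C, x ≠ (fun _ => false) → d ≤ wt x

theorem ball_card (n d : ℕ) : ((univ : Finset (Fin n → Bool)).filter (fun x => wt x < d)).card ≤
    ∑ i ∈ range d, n.choose i := by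
  classical
  calc ((univ : Finset (Fin n → Bool)).filter (fun x => wt x < d)).card
      ≤ ((range d).biUnion (fun i => powersetCard i (univ : Finset (Fin n)))).card := by
        apply Finset.card_le_card_of_injOn (fun x => univ.filter (fun j => x j = true))
        · intro x hx
          simp only [coe_filter, mem_univ, true_and, Set.mem_setOf_eq] at hx
          apply Finset.mem_coe.mpr
          rw [Finset.mem_biUnion]
          exact ⟨wt x, mem_range.mpr hx, Finset.mem_powersetCard.mpr ⟨subset_univ _, rfl⟩⟩
        · intro x _ y _ hxy
          funext j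
          have := congrArg (fun T => j ∈ T) hxy
          simp only [mem_filter, mem_univ, true_and, eq_iff_iff] at this
          exact Bool.eq_iff_iff.mpr this
    _ ≤ ∑ i ∈ range d, (powersetCard i (univ : Finset (Fin n))).card := Finset.card_biUnion_le
    _ = ∑ i ∈ range d, n.choose i := by simp

theorem exists_good {d : ℕ} (hd : 1 ≤ d) (hdn : d ≤ n) : ∃ C : Finset (Fin n → Bool), Good C d ∧
    2 ^ n ≤ C.card * ∑ i ∈ range d, n.choose i := by
  classical
  have h0 : Good ({(fun _ => false), (fun _ => true)} : Finset (Fin n → Bool)) d := by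
    refine ⟨by simp, by simp, ?_, ?_⟩
    · intro x hx y hy
      simp only [mem_insert, mem_singleton] at hx hy ⊢
      rcases hx with rfl | rfl <;> rcases hy with rfl | rfl
      · left; exact ad_self _
      · right; exact zero_ad _
      · right; exact ad_zero _
      · left; exact ad_self _
    · intro x hx hne
      simp only [mem_insert, mem_singleton] at hx
      rcases hx with rfl | rfl
      · exact absurd rfl hne
      · simpa [wt] using hdn
  obtain ⟨C, hC, hmax⟩ := Finset.exists_max_image ((univ : Finset (Finset (Fin n → Bool))).filter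
    (fun C => Good C d)) Finset.card ⟨_, by simpa using h0⟩
  simp only [mem_filter, mem_univ, true_and] at hC hmax
  refine ⟨C, hC, ?_⟩
  by_contra hcon
  push Not at hcon
  have h1 : (C.biUnion (fun c => ((univ : Finset (Fin n → Bool)).filter
      (fun x => wt x < d)).image (ad c))).card < (univ : Finset (Fin n → Bool)).card := by
    calc (C.biUnion (fun c => ((univ : Finset (Fin n → Bool)).filter
          (fun x => wt x < d)).image (ad c))).card
        ≤ ∑ c ∈ C, (((univ : Finset (Fin n → Bool)).filter
          (fun x => wt x < d)).image (ad c)).card := Finset.card_biUnion_le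
      _ ≤ ∑ _c ∈ C, ∑ i ∈ range d, n.choose i :=
          Finset.sum_le_sum (fun c _ => Finset.card_image_le.trans (ball_card n d))
      _ = C.card * ∑ i ∈ range d, n.choose i := by simp
      _ < 2 ^ n := hcon
      _ = (univ : Finset (Fin n → Bool)).card := by simp
  obtain ⟨v, _, hv⟩ := Finset.exists_mem_notMem_of_card_lt_card h1
  have hv' : ∀ c ∈ C, d ≤ wt (ad c v) := by
    intro c hc
    by_contra hlt
    push Not at hlt
    apply hv
    rw [Finset.mem_biUnion]
    refine ⟨c, hc, Finset.mem_image.mpr ⟨ad c v, by simpa using hlt, ?_⟩⟩
    rw [← ad_assoc, ad_self, zero_ad]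
  have hgood : Good (C ∪ C.image (fun c => ad c v)) d := by
    refine ⟨mem_union_left _ hC.zero, mem_union_left _ hC.one, ?_, ?_⟩
    · intro x hx y hy
      rw [mem_union, mem_image] at hx hy
      rcases hx with hx | ⟨c, hc, rfl⟩ <;> rcases hy with hy | ⟨c', hc', rfl⟩
      · exact mem_union_left _ (hC.add _ hx _ hy)
      · apply mem_union_right
        rw [← ad_assoc]
        exact mem_image_of_mem _ (hC.add _ hx _ hc')
      · apply mem_union_right
        rw [ad_assoc, ad_comm v y, ← ad_assoc]
        exact mem_image_of_mem _ (hC.add _ hc _ hy)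
      · apply mem_union_left
        have : ad (ad c v) (ad c' v) = ad c c' := by
          funext j; simp only [ad]; cases c j <;> cases c' j <;> cases v j <;> rfl
        rw [this]
        exact hC.add _ hc _ hc'
    · intro x hx hne
      rw [mem_union, mem_image] at hx
      rcases hx with hx | ⟨c, hc, rfl⟩
      · exact hC.min x hx hne
      · exact hv' c hc
  have hvC : v ∉ C := by
    intro h
    have := hv' v h
    rw [ad_self] at this
    simp [wt] at this
    omega
  have h2 := hmax _ hgood
  have h3 : C ⊂ C ∪ C.image (fun c => ad c v) := by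
    rw [Finset.ssubset_iff_of_subset subset_union_left]
    refine ⟨v, mem_union_right _ (mem_image.mpr ⟨_, hC.zero, zero_ad v⟩), hvC⟩
  have h4 := Finset.card_lt_card h3
  omega

theorem good_md {C : Finset (Fin n → Bool)} {d : ℕ} (h : Good C d) : MD C d := by
  intro x hx y hy hxy
  rw [hd_eq]
  apply h.min _ (h.add _ hx _ hy)
  intro h0
  apply hxy
  funext j
  have := congrFun h0 j
  simpa [ad] using this

theorem good_clo {C : Finset (Fin n → Bool)} {d : ℕ} (h : Good C d) {k : ℕ}
    (f : (Fin k → Bool) → Bool) (hf : Aff f) : Clo C f := by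
  classical
  obtain ⟨b, A, hbA⟩ := hf
  intro c hc
  have key : ∀ A : Finset (Fin k),
      (fun j => decide (Odd (A.filter (fun i => c i j = true)).card)) ∈ C := by
    intro A
    induction A using Finset.induction_on with
    | empty => simpa using h.zero
    | insert a A ha ih =>
      have h1 := h.add _ ih _ (hc a)
      convert h1 using 1
      funext j
      unfold ad
      simp only [Finset.filter_insert]
      by_cases hj : c a j = true
      · rw [if_pos hj, Finset.card_insert_of_notMem (by simp [ha]), hj]
        by_cases hm : Odd (A.filter (fun i => c i j = true)).card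
        · have : ¬ Odd ((A.filter (fun i => c i j = true)).card + 1) := by
            rw [Nat.odd_add_one]; simpa using hm
          simp [hm, this]
        · have : Odd ((A.filter (fun i => c i j = true)).card + 1) := by
            rw [Nat.odd_add_one]; exact hm
          simp [hm, this]
      · have hj' : c a j = false := by simpa using hj
        rw [if_neg hj, hj', Bool.xor_false]
  have h2 := key A
  cases b with
  | false =>
    convert h2 using 1
    funext j
    rw [hbA]
    simp
  | true =>
    have h3 := h.add _ h.one _ h2
    convert h3 using 1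
    funext j
    rw [hbA]
    rfl

end Pool.Agent.H665R3.CodeOps
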