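import Pool.Agent.H665R3.CodeOpsC

/-!
Codes approximately closed under Boolean operations.
-/

set_option autoImplicit false

namespace Pool.Agent.H665R3.CodeOps

open Finset

variable {n : ℕ}

/-- Distance on the set `T` of coordinates. -/
def dT (T : Finset (Fin n)) (x y : Fin n → Bool) : ℕ := (T.filter (fun j => x j ≠ y j)).card

theorem dT_comm (T : Finset (Fin n)) (x y : Fin n → Bool) : dT T x y = dT T y x := by
  unfold dT
  congr 1
  apply Finset.filter_congr
  intro j _
  exact ne_comm

theorem dT_tri (T : Finset (Fin n)) (x y z : Fin n → Bool) : dT T x z ≤ dT T x y + dT T y z := by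
  classical
  unfold dT
  refine (Finset.card_le_card ?_).trans (Finset.card_union_le _ _)
  intro j hj
  simp only [mem_filter, mem_union] at hj ⊢
  by_cases h : x j = y j
  · right
    exact ⟨hj.1, fun h2 => hj.2 (h.trans h2)⟩
  · left; exact ⟨hj.1, h⟩

theorem dT_mono {T T' : Finset (Fin n)} (h : T ⊆ T') (x y : Fin n → Bool) :
    dT T x y ≤ dT T' x y := Finset.card_le_card (Finset.filter_subset_filter _ h)

theorem dT_split {T D : Finset (Fin n)} (h : D ⊆ T) (x y : Fin n → Bool) :
    dT T x y = dT D x y + dT (T \ D) x y := by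
  classical
  unfold dT
  rw [← Finset.card_union_of_disjoint]
  · congr 1
    rw [← Finset.filter_union, Finset.union_sdiff_of_subset h]
  · apply Finset.disjoint_filter_filter
    exact Finset.disjoint_sdiff

/-- Approximately closed under a ternary operation. -/
def AC (C : Finset (Fin n → Bool)) (h : Bool → Bool → Bool → Bool) (T : Finset (Fin n)) (e : ℕ) :
    Prop :=
  ∀ x ∈ C, ∀ y ∈ C, ∀ z ∈ C, ∃ w ∈ C, dT T (fun j => h (x j) (y j) (z j)) w ≤ e

def BlockP (h : Bool → Bool → Bool → Bool) : Prop :=
  ∀ (n : ℕ) (C : Finset (Fin n → Bool)) (T : Finset (Fin n)) (e m : ℕ),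
    (∃ x ∈ C, ∃ y ∈ C, x ≠ y) → (∀ x ∈ C, ∀ y ∈ C, x ≠ y → m ≤ dT T x y) → 2 * e < m →
    AC C h T e → ∃ D : Finset (Fin n), D ⊆ T ∧ m ≤ D.card + e ∧ ∃ u v : Fin n → Bool,
      (∀ j ∈ D, u j ≠ v j) ∧ ∀ z ∈ C, dT D z u ≤ e ∨ dT D z v ≤ e

theorem dT_op (h : Bool → Bool → Bool → Bool) (T : Finset (Fin n))
    (x y z x' y' z' : Fin n → Bool) :
    dT T (fun j => h (x j) (y j) (z j)) (fun j => h (x' j) (y' j) (z' j)) ≤
      dT T x x' + dT T y y' + dT T z z' := by
  classical
  unfold dT
  refine le_trans (Finset.card_le_card (t := (T.filter (fun j => x j ≠ x' j) ∪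
    T.filter (fun j => y j ≠ y' j)) ∪ T.filter (fun j => z j ≠ z' j)) ?_) ?_
  · intro j hj
    simp only [mem_filter, mem_union] at hj ⊢
    by_contra hcon
    push Not at hcon
    obtain ⟨⟨h1, h2⟩, h3⟩ := hcon
    apply hj.2
    rw [h1 hj.1, h2 hj.1, h3 hj.1]
  · refine (Finset.card_union_le _ _).trans ?_
    have := Finset.card_union_le (T.filter (fun j => x j ≠ x' j)) (T.filter (fun j => y j ≠ y' j))
    omega

theorem class_step (h : Bool → Bool → Bool → Bool) (hid : ∀ a, h a a a = a) {d e : ℕ}
    (C : Finset (Fin n → Bool)) (T D : Finset (Fin n)) (hDT : D ⊆ T) (p q : Fin n → Bool)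
    (hpq : ∀ j ∈ D, p j ≠ q j) (hcov : ∀ z ∈ C, dT D z p ≤ e ∨ dT D z q ≤ e)
    (hAC : AC C h T e) (hD5 : 5 * e < D.card) (hD2 : d ≤ 2 * D.card)
    (hdist : ∀ x ∈ C, ∀ y ∈ C, x ≠ y → d ^ 2 + 8 * e * T.card ≤ 2 * d * dT T x y) :
    AC (C.filter (fun z => dT D z p ≤ e)) h (T \ D) e ∧
    ∀ x ∈ C.filter (fun z => dT D z p ≤ e), ∀ y ∈ C.filter (fun z => dT D z p ≤ e), x ≠ y →
      d ^ 2 + 8 * e * (T \ D).card ≤ 2 * d * dT (T \ D) x y := by
  classical
  constructor
  · intro x hx y hy z hz
    rw [mem_filter] at hx hy hz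
    obtain ⟨w, hw, hwe⟩ := hAC x hx.1 y hy.1 z hz.1
    refine ⟨w, ?_, (dT_mono Finset.sdiff_subset _ _).trans hwe⟩
    rw [mem_filter]
    refine ⟨hw, ?_⟩
    rcases hcov w hw with h1 | h1
    · exact h1
    · exfalso
      have e1 : dT D (fun j => h (x j) (y j) (z j)) (fun j => h (p j) (p j) (p j)) ≤
          dT D x p + dT D y p + dT D z p := dT_op h D x y z p p p
      have e2 : (fun j => h (p j) (p j) (p j)) = p := by funext j; exact hid _
      rw [e2] at e1
      have e3 : dT D p q = D.card := by
        unfold dT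
        rw [Finset.filter_true_of_mem hpq]
      have e4 := dT_tri D p (fun j => h (x j) (y j) (z j)) q
      have e5 := dT_tri D (fun j => h (x j) (y j) (z j)) w q
      have e6 := dT_mono hDT (fun j => h (x j) (y j) (z j)) w
      rw [dT_comm D p (fun j => h (x j) (y j) (z j))] at e4
      omega
  · intro x hx y hy hxy
    rw [mem_filter] at hx hy
    have e1 := hdist x hx.1 y hy.1 hxy
    have e2 := dT_split hDT x y
    have e3 := dT_tri D x p y
    rw [dT_comm D p y] at e3
    have e4 : (T \ D).card + D.card = T.card := Finset.card_sdiff_add_card_eq_card hDT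
    have e5 : dT T x y ≤ 2 * e + dT (T \ D) x y := by omega
    rw [← e4] at e1
    have e6 : 2 * d * dT T x y ≤ 2 * d * (2 * e + dT (T \ D) x y) := Nat.mul_le_mul_left _ e5
    have e7 : 4 * e * d ≤ 4 * e * (2 * D.card) := Nat.mul_le_mul_left _ hD2
    nlinarith

theorem main_bound (h : Bool → Bool → Bool → Bool) (hid : ∀ a, h a a a = a) (hb : BlockP h)
    {d e : ℕ} (hd : 1 ≤ d) (he : 16 * e ≤ d) : ∀ (N : ℕ) (T : Finset (Fin n)), T.card ≤ N →
    ∀ C : Finset (Fin n → Bool), AC C h T e →
      (∀ x ∈ C, ∀ y ∈ C, x ≠ y → d ^ 2 + 8 * e * T.card ≤ 2 * d * dT T x y) →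
      C.card ≤ 2 ^ (2 * T.card / d) := by
  classical
  intro N
  induction N with
  | zero =>
    intro T hT C hAC hdist
    by_cases h1 : C.card ≤ 1
    · exact h1.trans Nat.one_le_two_pow
    · exfalso
      push Not at h1
      obtain ⟨x, hx, y, hy, hxy⟩ := Finset.one_lt_card.mp h1
      have := hdist x hx y hy hxy
      have hT0 : T = ∅ := Finset.card_eq_zero.mp (by omega)
      subst hT0
      simp [dT] at this
      omega
  | succ N ih =>
    intro T hT C hAC hdist
    by_cases h1 : C.card ≤ 1
    · exact h1.trans Nat.one_le_two_pow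
    push Not at h1
    obtain ⟨x, hx, y, hy, hxy⟩ := Finset.one_lt_card.mp h1
    have hm : ∀ x ∈ C, ∀ y ∈ C, x ≠ y → (d + 4 * e + 1) / 2 ≤ dT T x y := by
      intro x hx y hy hxy
      have e1 := hdist x hx y hy hxy
      have e2 : dT T x y ≤ T.card := Finset.card_filter_le _ _
      have e3 : d ≤ 2 * dT T x y := by
        by_contra hcon
        push Not at hcon
        have : d * (2 * dT T x y) < d * d := Nat.mul_lt_mul_of_pos_left hcon (by omega)
        nlinarith
      have e4 : d + 4 * e ≤ 2 * dT T x y := by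
        by_contra hcon
        push Not at hcon
        have h2 : d * (2 * dT T x y) < d * (d + 4 * e) := Nat.mul_lt_mul_of_pos_left hcon (by omega)
        have h3 : 4 * e * d ≤ 4 * e * (2 * T.card) := Nat.mul_le_mul_left _ (by omega)
        nlinarith
      omega
    obtain ⟨D, hDT, hDc, u, v, huv, hcov⟩ := hb n C T e ((d + 4 * e + 1) / 2) ⟨x, hx, y, hy, hxy⟩
      hm (by omega) hAC
    have hD5 : 5 * e < D.card := by omega
    have hD2 : d ≤ 2 * D.card := by omega
    have e4 : (T \ D).card + D.card = T.card := Finset.card_sdiff_add_card_eq_card hDT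
    obtain ⟨a1, a2⟩ := class_step h hid C T D hDT u v huv hcov hAC hD5 hD2 hdist
    obtain ⟨b1, b2⟩ := class_step h hid C T D hDT v u (fun j hj => (huv j hj).symm)
      (fun z hz => (hcov z hz).symm) hAC hD5 hD2 hdist
    have c1 := ih (T \ D) (by omega) _ a1 a2
    have c2 := ih (T \ D) (by omega) _ b1 b2
    have c3 : C ⊆ C.filter (fun z => dT D z u ≤ e) ∪ C.filter (fun z => dT D z v ≤ e) := by
      intro z hz
      rw [mem_union, mem_filter, mem_filter]
      rcases hcov z hz with h2 | h2
      · exact Or.inl ⟨hz, h2⟩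
      · exact Or.inr ⟨hz, h2⟩
    have c4 := (Finset.card_le_card c3).trans (Finset.card_union_le _ _)
    have c5 : 2 * (T \ D).card / d + 1 ≤ 2 * T.card / d := by
      rw [← Nat.add_div_right _ (by omega)]
      apply Nat.div_le_div_right
      omega
    calc C.card ≤ 2 ^ (2 * (T \ D).card / d) + 2 ^ (2 * (T \ D).card / d) := by omega
      _ = 2 ^ (2 * (T \ D).card / d + 1) := by rw [pow_succ]; ring
      _ ≤ 2 ^ (2 * T.card / d) := Nat.pow_le_pow_right (by norm_num) c5

theorem block_maj : BlockP majT := by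
  classical
  intro n C T e m hex hm hem hAC
  obtain ⟨x0, hx0, y0, hy0, hxy0⟩ := hex
  obtain ⟨pq, hpq, hmin⟩ := Finset.exists_min_image ((C ×ˢ C).filter (fun p => p.1 ≠ p.2))
    (fun p => dT T p.1 p.2) ⟨(x0, y0), by simp [hx0, hy0, hxy0]⟩
  obtain ⟨x, y⟩ := pq
  simp only [mem_filter, mem_product] at hpq hmin
  obtain ⟨⟨hx, hy⟩, hxy⟩ := hpq
  have hDc : (T.filter (fun j => x j ≠ y j)).card = dT T x y := rfl
  refine ⟨T.filter (fun j => x j ≠ y j), Finset.filter_subset _ _, ?_, x, y, ?_, ?_⟩
  · rw [hDc]
    have := hm x hx y hy hxy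
    omega
  · intro j hj
    exact (mem_filter.mp hj).2
  · intro z hz
    set D := T.filter (fun j => x j ≠ y j) with hD
    have hDT : D ⊆ T := Finset.filter_subset _ _
    obtain ⟨w, hw, hwe⟩ := hAC x hx y hy z hz
    have hmajD : ∀ j ∈ D, majT (x j) (y j) (z j) = z j := by
      intro j hj
      have := (mem_filter.mp hj).2
      revert this
      unfold majT
      cases x j <;> cases y j <;> cases z j <;> simp
    have hmajO : ∀ j ∈ T, j ∉ D → majT (x j) (y j) (z j) = x j ∧ x j = y j := by
      intro j hj hjD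
      have : x j = y j := by
        by_contra hne
        exact hjD (mem_filter.mpr ⟨hj, hne⟩)
      refine ⟨?_, this⟩
      rw [← this]
      unfold majT
      cases x j <;> cases z j <;> simp
    have hzD : ∀ t : Fin n → Bool, dT D z t = dT D (fun j => majT (x j) (y j) (z j)) t := by
      intro t
      unfold dT
      congr 1
      apply Finset.filter_congr
      intro j hj
      show _ ↔ majT (x j) (y j) (z j) ≠ t j
      rw [hmajD j hj]
    by_cases h1 : w = x
    · left
      rw [hzD x]
      have h3 := (dT_mono hDT _ _).trans hwe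
      rwa [h1] at h3
    by_cases h2 : w = y
    · right
      rw [hzD y]
      have h3 := (dT_mono hDT _ _).trans hwe
      rwa [h2] at h3
    exfalso
    have g1 := hmin (x, w) ⟨⟨hx, hw⟩, fun h => h1 h.symm⟩
    have g2 := hmin (y, w) ⟨⟨hy, hw⟩, fun h => h2 h.symm⟩
    simp only at g1 g2
    have g3 := dT_tri T x (fun j => majT (x j) (y j) (z j)) w
    have g4 := dT_tri T y (fun j => majT (x j) (y j) (z j)) w
    have g5 : dT T x (fun j => majT (x j) (y j) (z j)) ≤ (D.filter (fun j => x j ≠ z j)).card := by
      unfold dT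
      apply Finset.card_le_card
      intro j hj
      rw [mem_filter] at hj ⊢
      by_cases hjD : j ∈ D
      · refine ⟨hjD, ?_⟩
        have h5 : x j ≠ majT (x j) (y j) (z j) := hj.2
        rwa [hmajD j hjD] at h5
      · exact absurd (hmajO j hj.1 hjD).1.symm hj.2
    have g6 : dT T y (fun j => majT (x j) (y j) (z j)) ≤
        (D.filter (fun j => ¬ (x j ≠ z j))).card := by
      unfold dT
      apply Finset.card_le_card
      intro j hj
      rw [mem_filter] at hj ⊢
      by_cases hjD : j ∈ D
      · refine ⟨hjD, ?_⟩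
        have h4 : y j ≠ majT (x j) (y j) (z j) := hj.2
        rw [hmajD j hjD] at h4
        have h5 := (mem_filter.mp hjD).2
        revert h4 h5
        cases x j <;> cases y j <;> cases z j <;> simp
      · obtain ⟨h5, h6⟩ := hmajO j hj.1 hjD
        exact absurd (h6.symm.trans h5.symm) hj.2
    have g7 := Finset.card_filter_add_card_filter_not (s := D) (fun j => x j ≠ z j)
    have g8 := hm x hx y hy hxy
    omega

theorem block_and : BlockP andT := by
  classical
  intro n C T e m hex hm hem hAC
  obtain ⟨x0, hx0, y0, hy0, hxy0⟩ := hex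
  obtain ⟨B, hB, hBmin⟩ := Finset.exists_min_image C
    (fun x => (T.filter (fun j => x j = true)).card) ⟨x0, hx0⟩
  have hne : ∃ x ∈ C, x ≠ B := by
    by_cases h : x0 = B
    · exact ⟨y0, hy0, fun h2 => hxy0 (h.trans h2.symm)⟩
    · exact ⟨x0, hx0, h⟩
  obtain ⟨x1, hx1, hx1B⟩ := hne
  obtain ⟨M, hM, hMmin⟩ := Finset.exists_min_image (C.erase B)
    (fun x => (T.filter (fun j => x j = true)).card) ⟨x1, mem_erase.mpr ⟨hx1B, hx1⟩⟩
  rw [mem_erase] at hM
  have hwd : ∀ a b : Fin n → Bool, (T.filter (fun j => a j = true)).card =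
      (T.filter (fun j => (a j && b j) = true)).card +
      (T.filter (fun j => a j = true ∧ b j = false)).card := by
    intro a b
    rw [← Finset.card_union_of_disjoint]
    · congr 1
      ext j
      simp only [mem_filter, mem_union]
      cases a j <;> cases b j <;> simp
    · rw [Finset.disjoint_left]
      intro j h1 h2
      rw [mem_filter] at h1 h2
      have := h1.2
      rw [h2.2.1, h2.2.2] at this
      simp at this
  have hwt : ∀ a b : Fin n → Bool, (T.filter (fun j => b j = true)).card ≤
      (T.filter (fun j => a j = true)).card + dT T a b := by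
    intro a b
    unfold dT
    refine (Finset.card_le_card ?_).trans (Finset.card_union_le _ _)
    intro j hj
    rw [mem_union, mem_filter, mem_filter]
    rw [mem_filter] at hj
    by_cases h : a j = true
    · exact Or.inl ⟨hj.1, h⟩
    · exact Or.inr ⟨hj.1, fun h2 => h (h2.trans hj.2)⟩
  -- the word below
  have hBe : ∀ z ∈ C, (T.filter (fun j => B j = true ∧ z j = false)).card ≤ e := by
    intro z hz
    obtain ⟨w, hw, hwe⟩ := hAC B hB z hz z hz
    have h1 := hBmin w hw
    have h2 := hwt (fun j => andT (B j) (z j) (z j)) w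
    have h3 := hwd B z
    have h4 : (T.filter (fun j => andT (B j) (z j) (z j) = true)).card =
        (T.filter (fun j => (B j && z j) = true)).card := rfl
    omega
  have hMB : (T.filter (fun j => M j = true ∧ B j = false)).card +
      (T.filter (fun j => B j = true ∧ M j = false)).card = dT T M B := by
    unfold dT
    rw [← Finset.card_union_of_disjoint]
    · congr 1
      ext j
      simp only [mem_filter, mem_union]
      cases M j <;> cases B j <;> simp
    · rw [Finset.disjoint_left]
      intro j h1 h2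
      rw [mem_filter] at h1 h2
      have := h1.2.1
      rw [h2.2.2] at this
      simp at this
  refine ⟨T.filter (fun j => M j = true ∧ B j = false), Finset.filter_subset _ _, ?_,
    (fun _ => true), (fun _ => false), ?_, ?_⟩
  · have h1 := hm M hM.2 B hB hM.1
    have h2 := hBe M hM.2
    omega
  · intro j _
    simp
  · intro z hz
    obtain ⟨w, hw, hwe⟩ := hAC M hM.2 z hz z hz
    by_cases hwB : w = B
    · right
      refine le_trans ?_ hwe
      rw [hwB]
      unfold dT
      apply Finset.card_le_card
      intro j hj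
      rw [mem_filter, mem_filter] at hj
      rw [mem_filter]
      refine ⟨hj.1.1, ?_⟩
      show (M j && z j) ≠ B j
      rw [hj.1.2.1, hj.1.2.2]
      have := hj.2
      revert this
      cases z j <;> simp
    · left
      have h1 := hMmin w (mem_erase.mpr ⟨hwB, hw⟩)
      have h2 := hwt (fun j => andT (M j) (z j) (z j)) w
      have h3 := hwd M z
      have h4 : (T.filter (fun j => andT (M j) (z j) (z j) = true)).card =
          (T.filter (fun j => (M j && z j) = true)).card := rfl
      have h5 : dT (T.filter (fun j => M j = true ∧ B j = false)) z (fun _ => true) ≤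
          (T.filter (fun j => M j = true ∧ z j = false)).card := by
        unfold dT
        apply Finset.card_le_card
        intro j hj
        rw [mem_filter, mem_filter] at hj
        rw [mem_filter]
        refine ⟨hj.1.1, hj.1.2.1, ?_⟩
        have := hj.2
        revert this
        cases z j <;> simp
      omega

end Pool.Agent.H665R3.CodeOps
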