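import Pool.Agent.H665R3.CodeOpsE

/-!
Codes approximately closed under a non-affine operation are bounded.
-/

set_option autoImplicit false

namespace Pool.Agent.H665R3.CodeOps

open Finset

variable {n k : ℕ}

theorem exists_tern_gen (P : (Bool → Bool → Bool → Bool) → Prop) (f : (Fin k → Bool) → Bool)
    (hP : ∀ (T : Finset (Fin k)) (i j : Fin k), P (fun x y z => mn f T i j x y x z) ∧
      P (fun x y z => mn f T i j z x y z))
    (hna : ¬ Aff f) : ∃ h : Bool → Bool → Bool → Bool, P h ∧
      (h false false true ^^ h false true true ^^ h true false true ^^ h true true true) = true := by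
  classical
  by_contra hcon
  push Not at hcon
  apply hna
  apply aff_of_squares
  intro T i j hij hi hj
  obtain ⟨h1, h2⟩ := hP T i j
  have e1 := hcon _ h1
  have e2 := hcon _ h2
  have g11 : gv f (insert i (insert j T)) = mn f T i j true true false true := by
    unfold gv mn
    congr 1
    funext l
    by_cases ha : l = i
    · simp [ha]
    · by_cases hb : l = j
      · simp [hb]
      · simp [ha, hb]
  have g10 : gv f (insert i T) = mn f T i j true false false true := by
    unfold gv mn
    congr 1
    funext l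
    by_cases ha : l = i
    · simp [ha]
    · by_cases hb : l = j
      · subst hb; simp [ha, hj]
      · simp [ha, hb]
  have g01 : gv f (insert j T) = mn f T i j false true false true := by
    unfold gv mn
    congr 1
    funext l
    by_cases ha : l = i
    · subst ha; simp [hij, hi]
    · by_cases hb : l = j
      · subst hb; simp [ha]
      · simp [ha, hb]
  have g00 : gv f T = mn f T i j false false false true := by
    unfold gv mn
    congr 1
    funext l
    by_cases ha : l = i
    · subst ha; simp [hi]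
    · by_cases hb : l = j
      · subst hb; simp [hj]
      · simp [ha, hb]
  rw [g11, g10, g01, g00]
  have hb : ∀ a b c d e f : Bool, ¬ ((a ^^ b ^^ c ^^ d) = true) → ¬ ((e ^^ c ^^ f ^^ d) = true) →
      (f ^^ e ^^ b ^^ a) = false := by decide
  exact hb _ _ _ _ _ _ e1 e2

theorem ac_minor (C : Finset (Fin n → Bool)) (f : (Fin k → Bool) → Bool) (e : ℕ)
    (hf : ∀ c : Fin k → Fin n → Bool, (∀ i, c i ∈ C) →
      ∃ w ∈ C, dT univ (fun j => f (fun i => c i j)) w ≤ e)
    (T : Finset (Fin k)) (i j : Fin k) :
    AC C (fun x y z => mn f T i j x y x z) univ e ∧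
      AC C (fun x y z => mn f T i j z x y z) univ e := by
  refine ⟨fun x hx y hy z hz => ?_, fun x hx y hy z hz => ?_⟩
  · obtain ⟨w, hw, hwe⟩ := hf (fun l => if l = i then x else if l = j then y else
      if l ∈ T then z else x) (by intro l; split_ifs <;> assumption)
    refine ⟨w, hw, ?_⟩
    convert hwe using 2
    funext c
    show mn f T i j (x c) (y c) (x c) (z c) = _
    unfold mn
    apply congrArg f
    funext l
    split_ifs <;> rfl
  · obtain ⟨w, hw, hwe⟩ := hf (fun l => if l = i then z else if l = j then x else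
      if l ∈ T then z else y) (by intro l; split_ifs <;> assumption)
    refine ⟨w, hw, ?_⟩
    convert hwe using 2
    funext c
    show mn f T i j (z c) (x c) (y c) (z c) = _
    unfold mn
    apply congrArg f
    funext l
    split_ifs <;> rfl

theorem dT_self (T : Finset (Fin n)) (x : Fin n → Bool) : dT T x x = 0 := by
  unfold dT
  simp

theorem ac_of_t3 {C : Finset (Fin n → Bool)} {a : Bool → Bool → Bool → Bool} (ha : T3 C a)
    (T : Finset (Fin n)) (e : ℕ) : AC C a T e :=
  fun x hx y hy z hz => ⟨_, ha x hx y hy z hz, by rw [dT_self]; omega⟩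

theorem ac1 {C : Finset (Fin n → Bool)} {h a b c : Bool → Bool → Bool → Bool}
    {T : Finset (Fin n)} {e : ℕ} (hh : AC C h T e) (ha : T3 C a) (hb : T3 C b) (hc : T3 C c) :
    AC C (cmp h a b c) T e :=
  fun x hx y hy z hz => hh _ (ha x hx y hy z hz) _ (hb x hx y hy z hz) _ (hc x hx y hy z hz)

theorem ac4 {C : Finset (Fin n → Bool)} {h a b c : Bool → Bool → Bool → Bool}
    {T : Finset (Fin n)} {e : ℕ} (hh : AC C h T e) (ha : AC C a T e) (hb : AC C b T e)
    (hc : AC C c T e) : AC C (cmp h a b c) T (4 * e) := by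
  intro x hx y hy z hz
  obtain ⟨wa, hwa, ea⟩ := ha x hx y hy z hz
  obtain ⟨wb, hwb, eb⟩ := hb x hx y hy z hz
  obtain ⟨wc, hwc, ec⟩ := hc x hx y hy z hz
  obtain ⟨w, hw, ew⟩ := hh wa hwa wb hwb wc hwc
  refine ⟨w, hw, ?_⟩
  have h1 := dT_op h T (fun j => a (x j) (y j) (z j)) (fun j => b (x j) (y j) (z j))
    (fun j => c (x j) (y j) (z j)) wa wb wc
  have h2 := dT_tri T (fun j => cmp h a b c (x j) (y j) (z j))
    (fun j => h (wa j) (wb j) (wc j)) w
  have h3 : dT T (fun j => cmp h a b c (x j) (y j) (z j)) (fun j => h (wa j) (wb j) (wc j)) ≤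
      dT T (fun j => a (x j) (y j) (z j)) wa + dT T (fun j => b (x j) (y j) (z j)) wb +
        dT T (fun j => c (x j) (y j) (z j)) wc := h1
  omega

theorem ac_tms (C : Finset (Fin n → Bool)) {h : Bool → Bool → Bool → Bool} {T : Finset (Fin n)}
    {e : ℕ} (hh : AC C h T e) : ∀ t ∈ tms h, AC C t T (4 * e) := by
  have p1 := t3_pj1 C
  have p2 := t3_pj2 C
  have p3 := t3_pj3 C
  intro t ht
  simp only [tms, List.mem_cons, List.mem_nil_iff, or_false] at ht
  rcases ht with h | h | h | h | h | h | h | h | h | h | h <;> subst h <;>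
    refine ac4 hh ?_ ?_ ?_ <;>
    first
    | exact ac_of_t3 p1 _ _
    | exact ac_of_t3 p2 _ _
    | exact ac_of_t3 p3 _ _
    | exact ac1 hh (by assumption) (by assumption) (by assumption)

theorem main_or {d e : ℕ} (hd : 1 ≤ d) (he : 16 * e ≤ d) (C : Finset (Fin n → Bool))
    (hAC : AC C orT univ e)
    (hdist : ∀ x ∈ C, ∀ y ∈ C, x ≠ y → d ^ 2 + 8 * e * n ≤ 2 * d * dT univ x y) :
    C.card ≤ 2 ^ (2 * n / d) := by
  classical
  have hinj : Function.Injective (fun (x : Fin n → Bool) (j : Fin n) => !(x j)) := by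
    intro x y h
    funext j
    have := congrFun h j
    simpa using this
  have hdc : ∀ x y : Fin n → Bool, dT univ (fun j => !(x j)) (fun j => !(y j)) = dT univ x y := by
    intro x y
    unfold dT
    congr 1
    apply Finset.filter_congr
    intro j _
    simp
  rw [← Finset.card_image_of_injective C hinj]
  have h1 := main_bound andT (by decide) block_and hd he n univ (by simp)
    (C.image (fun (x : Fin n → Bool) (j : Fin n) => !(x j))) ?_ ?_
  · simpa using h1
  · intro x hx y hy z hz
    obtain ⟨x', hx', rfl⟩ := Finset.mem_image.mp hx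
    obtain ⟨y', hy', rfl⟩ := Finset.mem_image.mp hy
    obtain ⟨z', hz', rfl⟩ := Finset.mem_image.mp hz
    obtain ⟨w, hw, hwe⟩ := hAC x' hx' y' hy' z' hz'
    refine ⟨_, Finset.mem_image_of_mem _ hw, ?_⟩
    rw [← hdc] at hwe
    convert hwe using 2
    funext j
    simp [andT, orT]
  · intro x hx y hy hxy
    obtain ⟨x', hx', rfl⟩ := Finset.mem_image.mp hx
    obtain ⟨y', hy', rfl⟩ := Finset.mem_image.mp hy
    rw [hdc]
    simpa using hdist x' hx' y' hy' (fun h => hxy (by rw [h]))

theorem bound_approx {d e : ℕ} (hd : 1 ≤ d) (hde : 64 * e * n ≤ d ^ 2)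
    (C : Finset (Fin n → Bool)) (hC : MD C d) (f : (Fin k → Bool) → Bool)
    (hf : ∀ c : Fin k → Fin n → Bool, (∀ i, c i ∈ C) →
      ∃ w ∈ C, hammingDist (fun j => f (fun i => c i j)) w ≤ e)
    (hna : ¬ Aff f) : C.card ≤ 2 ^ (2 * n / d) := by
  classical
  by_cases h1 : C.card ≤ 1
  · exact h1.trans Nat.one_le_two_pow
  push Not at h1
  obtain ⟨x, hx, y, hy, hxy⟩ := Finset.one_lt_card.mp h1
  have hdn : d ≤ n := by
    have h2 := hC x hx y hy hxy
    have h3 : hammingDist x y ≤ n := by
      have := hammingDist_le_card_fintype (x := x) (y := y)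
      simpa using this
    exact h2.trans h3
  have he : 16 * (4 * e) ≤ d := by
    by_contra hcon
    push Not at hcon
    have : d * n < 16 * (4 * e) * n := Nat.mul_lt_mul_of_pos_right hcon (by omega)
    nlinarith
  have hdist : ∀ x ∈ C, ∀ y ∈ C, x ≠ y → d ^ 2 + 8 * (4 * e) * n ≤ 2 * d * dT univ x y := by
    intro x hx y hy hxy
    have h2 : d ≤ dT univ x y := hC x hx y hy hxy
    have h3 : 2 * d * d ≤ 2 * d * dT univ x y := Nat.mul_le_mul_left _ h2
    nlinarith
  obtain ⟨h, hh, hx1⟩ := exists_tern_gen (fun h => AC C h univ e) f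
    (fun T i j => ac_minor C f e hf T i j) hna
  obtain ⟨t, ht, h2⟩ := tern h hx1
  have h3 := ac_tms C hh t ht
  rcases h2 with h2 | h2 | h2
  · rw [h2] at h3
    have := main_bound andT (by decide) block_and hd he n univ (by simp) C h3 (by simpa using hdist)
    simpa using this
  · rw [h2] at h3
    exact main_or hd he C h3 hdist
  · rw [h2] at h3
    have := main_bound majT (by decide) block_maj hd he n univ (by simp) C h3 (by simpa using hdist)
    simpa using this

end Pool.Agent.H665R3.CodeOps
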