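import Pool.Agent.H665R3.LamSum2

set_option autoImplicit false

/-!
Laminar sums of convex bodies: final form, without an order on the index set.
-/

namespace Pool.Agent.H665R3.Lam

open Filter Topology

variable {ι : Type} [Fintype ι]

/-- **Laminar sums.** -/
theorem final {E : ι → Type} [∀ j, NormedAddCommGroup (E j)]
    [∀ j, NormedSpace ℝ (E j)] [∀ j, FiniteDimensional ℝ (E j)]
    (C : ∀ j, Set (E j)) (hCc : ∀ j, Convex ℝ (C j))
    (hCk : ∀ j, IsCompact (C j)) (hC0 : ∀ j, (0 : E j) ∈ interior (C j))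
    (N : ι → ℕ) (hN : ∀ j, 2 ≤ N j)
    (hcov : ∀ j, ∃ T : Finset (E j), T.card ≤ N j ∧
      C j ⊆ ⋃ t ∈ T, (fun x => t + x) '' interior (C j))
    (𝒜 : Finset (Finset ι)) (hne : ∀ A ∈ 𝒜, A.Nonempty)
    (hlam : ∀ A ∈ 𝒜, ∀ B ∈ 𝒜, A ⊆ B ∨ B ⊆ A ∨ Disjoint A B)
    (M : Finset ι → Set (ι → ℝ)) (hMc : ∀ A ∈ 𝒜, Convex ℝ (M A))
    (hMcl : ∀ A ∈ 𝒜, IsClosed (M A))
    (hM0 : ∀ A ∈ 𝒜, (0 : ι → ℝ) ∈ interior (M A)) (hsol : ∀ A ∈ 𝒜, Solid A (M A))
    (hM : ∀ A ∈ 𝒜, 3 ≤ A.card → Shrinks A (M A))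
    (K : Set (∀ j, E j)) (hKdef : K = {x | ∀ A ∈ 𝒜, (fun j => gauge (C j) (x j)) ∈ M A})
    (hKb : Bornology.IsBounded K) :
    Convex ℝ K ∧ IsCompact K ∧ (0 : ∀ j, E j) ∈ interior K ∧
    ∃ T : Finset (∀ j, E j), T.card ≤ ∏ j, N j ∧
      K ⊆ ⋃ t ∈ T, (fun x => t + x) '' interior K := by
  classical
  have hnh : ∀ j, C j ∈ 𝓝 (0 : E j) := fun j => mem_interior_iff_mem_nhds.1 (hC0 j)
  have hGc : Continuous (fun (x : ∀ j, E j) (j : ι) => gauge (C j) (x j)) := by
    refine continuous_pi fun j => ?_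
    exact (continuous_gauge (hCc j) (hnh j)).comp (continuous_apply j)
  have hconv : Convex ℝ K := by
    intro x hx y hy a b ha hb hab
    rw [hKdef] at hx hy ⊢
    intro A hA
    have hW := hMc A hA (hx A hA) (hy A hA) ha hb hab
    refine hsol A hA _ hW _ ?_
    intro i _
    rw [Set.mem_uIcc]
    left
    refine ⟨gauge_nonneg _, ?_⟩
    simp only [Pi.add_apply, Pi.smul_apply, smul_eq_mul]
    refine (gauge_add_le (hCc i) (absorbent_nhds_zero (hnh i)) _ _).trans ?_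
    rw [gauge_smul_of_nonneg ha, gauge_smul_of_nonneg hb, smul_eq_mul, smul_eq_mul]
  have hclosed : IsClosed K := by
    have : K = (fun (x : ∀ j, E j) (j : ι) => gauge (C j) (x j)) ⁻¹' (⋂ A ∈ 𝒜, M A) := by
      rw [hKdef]
      ext x
      simp
    rw [this]
    exact (isClosed_biInter fun A hA => hMcl A hA).preimage hGc
  have hcomp : IsCompact K := by
    have : FiniteDimensional ℝ (∀ j, E j) := inferInstance
    have : ProperSpace (∀ j, E j) := FiniteDimensional.proper ℝ _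
    exact Metric.isCompact_of_isClosed_isBounded hclosed hKb
  have hint0 : (0 : ∀ j, E j) ∈ interior K := by
    have hopen : IsOpen ((fun (x : ∀ j, E j) (j : ι) => gauge (C j) (x j)) ⁻¹'
        (⋂ A ∈ 𝒜, interior (M A))) :=
      IsOpen.preimage hGc (isOpen_biInter_finset fun A _ => isOpen_interior)
    refine mem_interior.2 ⟨_, ?_, hopen, ?_⟩
    · intro z hz
      rw [hKdef]
      intro A hA
      exact interior_subset (Set.mem_iInter₂.1 hz A hA)
    · refine Set.mem_iInter₂.2 fun A hA => ?_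
      have : (fun j => gauge (C j) ((0 : ∀ j, E j) j)) = (0 : ι → ℝ) := by
        funext j
        simp
      change (fun j => gauge (C j) ((0 : ∀ j, E j) j)) ∈ interior (M A)
      rw [this]
      exact hM0 A hA
  refine ⟨hconv, hcomp, hint0, ?_⟩
  let L : LinearOrder ι := LinearOrder.lift' (lexKey 𝒜) (lexKey_injective 𝒜)
  obtain ⟨w, hw⟩ := core2 C hCc hCk hC0 N hN hcov 𝒜 hne
    (fun A hA => ⟨fun i hi j hj u hu => exists_order 𝒜 hlam A hA i hi j hj u hu.1 hu.2⟩)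
    hlam M hMc hM0 hsol hM K hKdef hcomp
  refine ⟨Finset.univ.image w, ?_, ?_⟩
  · refine Finset.card_image_le.trans ?_
    rw [Finset.card_univ, Fintype.card_pi]
    simp
  · intro x hx
    obtain ⟨c, hc⟩ := hw x hx
    refine Set.mem_iUnion₂.2 ⟨w c, Finset.mem_image_of_mem _ (Finset.mem_univ c), x - w c, hc, ?_⟩
    simp

end Pool.Agent.H665R3.Lam
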