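import Pool.Agent.H665R3.LamTop

set_option autoImplicit false

/-!
Convex bodies which are intersections, over a laminar family of blocks of coordinates, of convex
cylinders that shrink strictly towards the coordinate hyperplanes of the block: illumination by
`2 ^ n` directions.
-/

namespace Pool.Agent.H665R3.Lam

open Filter Topology

variable {ι : Type} [Fintype ι]

/-- `M` shrinks strictly in the coordinates of `A`: if `x ∈ M`, if `y i` lies between `0` and `x i`
for all `i ∈ A`, and `y i ≠ x i` for some `i ∈ A`, then `y` is in the interior of `M`. -/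
def Shrinks (A : Finset ι) (M : Set (ι → ℝ)) : Prop :=
  ∀ x ∈ M, ∀ y : ι → ℝ, (∀ i ∈ A, y i ∈ Set.uIcc 0 (x i)) → (∃ i ∈ A, y i ≠ x i) → y ∈ interior M

/-- sign -/
def sg (b : Bool) : ℝ := if b then 1 else -1

lemma sg_abs (b : Bool) : |sg b| = 1 := by cases b <;> simp [sg]

lemma sg_mul_self (b : Bool) : sg b * sg b = 1 := by cases b <;> simp [sg]

omit [Fintype ι] in
lemma zero_mem {A : Finset ι} (hA : A.Nonempty) {M K : Set (ι → ℝ)} (hM : Shrinks A M)
    (hK : (interior K).Nonempty) (hKM : K ⊆ M) : (0 : ι → ℝ) ∈ interior M := by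
  classical
  obtain ⟨x, hx⟩ := hK
  obtain ⟨i, hi⟩ := hA
  by_cases hxi : x i = 0
  · have hcont : Continuous (fun t : ℝ => Function.update x i t) := by
      exact continuous_const.update i continuous_id
    have hx0 : Function.update x i (0 : ℝ) = x := by
      rw [← hxi, Function.update_eq_self]
    have hnh : ∀ᶠ t : ℝ in 𝓝 0, Function.update x i t ∈ interior K := by
      have := hcont.continuousAt (x := (0 : ℝ))
      refine this.eventually_mem ?_
      rw [hx0]
      exact isOpen_interior.mem_nhds hx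
    obtain ⟨t, ht, ht0⟩ := ((hnh.filter_mono nhdsWithin_le_nhds).and
      (self_mem_nhdsWithin : Set.Ioi (0 : ℝ) ∈ 𝓝[>] 0)).exists
    refine hM _ (hKM (interior_subset ht)) 0 ?_ ⟨i, hi, ?_⟩
    · intro j _
      exact Set.left_mem_uIcc
    · simp only [Pi.zero_apply, Function.update_self]
      exact (ne_of_lt ht0)
  · refine hM _ (hKM (interior_subset hx)) 0 ?_ ⟨i, hi, ?_⟩
    · intro j _
      exact Set.left_mem_uIcc
    · simpa using (Ne.symm hxi)

/-- The uniform gain. -/
lemma exists_rho (𝒜 : Finset (Finset ι)) (M : Finset ι → Set (ι → ℝ)) (K : Set (ι → ℝ))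
    (hK : IsCompact K) (hKM : ∀ A ∈ 𝒜, K ⊆ M A) (hM : ∀ A ∈ 𝒜, Shrinks A (M A)) {η : ℝ}
    (hη : 0 < η) : ∃ ρ : ℝ, 0 < ρ ∧ ∀ A ∈ 𝒜, ∀ t ∈ A, ∀ s : Bool, ∀ x ∈ K, η ≤ sg s * x t →
      ∀ q : ι → ℝ, (∀ i, i ≠ t → |q i - x i| ≤ ρ) → q t = x t - sg s * (η / 2) → q ∈ M A := by
  classical
  have key : ∀ A ∈ 𝒜, ∀ t ∈ A, ∀ s : Bool, ∀ᶠ ρ : ℝ in 𝓝[>] 0, ∀ x ∈ K, η ≤ sg s * x t →
      ∀ q : ι → ℝ, (∀ i, i ≠ t → |q i - x i| ≤ ρ) → q t = x t - sg s * (η / 2) → q ∈ M A := by
    intro A hA t ht s
    set f : (ι → ℝ) → (ι → ℝ) := fun x => Function.update x t (x t - sg s * (η / 2)) with hf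
    have hfc : Continuous f := by
      refine continuous_id.update t ?_
      fun_prop
    set C : Set (ι → ℝ) := K ∩ {x | η ≤ sg s * x t} with hC
    have hCc : IsCompact C := by
      refine hK.inter_right ?_
      exact isClosed_le continuous_const (by fun_prop)
    have hsub : f '' C ⊆ interior (M A) := by
      rintro _ ⟨x, ⟨hx, hx2⟩, rfl⟩
      refine hM A hA x (hKM A hA hx) _ ?_ ⟨t, ht, ?_⟩
      · intro i _
        by_cases hit : i = t
        · subst hit
          simp only [hf, Function.update_self]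
          simp only [Set.mem_ofPred_eq] at hx2
          cases s
          · simp only [sg] at hx2 ⊢
            rw [Set.uIcc_comm, Set.uIcc_of_le (by norm_num at hx2 ⊢; linarith)]
            norm_num at hx2 ⊢
            constructor <;> linarith
          · simp only [sg] at hx2 ⊢
            rw [Set.uIcc_of_le (by norm_num at hx2 ⊢; linarith)]
            norm_num at hx2 ⊢
            constructor <;> linarith
        · simp only [hf, Function.update_of_ne hit]
          exact Set.right_mem_uIcc
      · simp only [hf, Function.update_self]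
        cases s <;> simp [sg] <;> linarith
    obtain ⟨δ, hδ, hδ2⟩ := (hCc.image hfc).exists_thickening_subset_open isOpen_interior hsub
    filter_upwards [Ioo_mem_nhdsGT hδ] with ρ hρ x hx hx2 q hq hqt
    apply interior_subset
    apply hδ2
    rw [Metric.mem_thickening_iff]
    refine ⟨f x, ⟨x, ⟨hx, hx2⟩, rfl⟩, ?_⟩
    refine lt_of_le_of_lt ((dist_pi_le_iff hρ.1.le).2 ?_) hρ.2
    intro i
    by_cases hit : i = t
    · subst hit
      simp only [hf, Function.update_self]
      rw [hqt, dist_self]
      exact hρ.1.le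
    · simp only [hf, Function.update_of_ne hit]
      rw [Real.dist_eq]
      exact hq i hit
  have key2 : ∀ᶠ ρ : ℝ in 𝓝[>] 0, ∀ A ∈ 𝒜, ∀ t ∈ A, ∀ s : Bool, ∀ x ∈ K, η ≤ sg s * x t →
      ∀ q : ι → ℝ, (∀ i, i ≠ t → |q i - x i| ≤ ρ) → q t = x t - sg s * (η / 2) → q ∈ M A := by
    rw [Filter.eventually_all_finset]
    intro A hA
    rw [Filter.eventually_all_finset]
    intro t ht
    rw [Filter.eventually_all]
    intro s
    exact key A hA t ht s
  obtain ⟨ρ, h1, h2⟩ := (key2.and (self_mem_nhdsWithin : Set.Ioi (0 : ℝ) ∈ 𝓝[>] 0)).exists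
  exact ⟨ρ, h2, h1⟩

variable [LinearOrder ι]

/-- The directions. -/
noncomputable def dir (𝒜 : Finset (Finset ι)) (δ : ℝ) (σ : ι → Bool) : ι → ℝ :=
  fun i => - (sg (σ i) * δ ^ (Fintype.card ι - height 𝒜 σ i))

/-- **Illumination by `2 ^ n` directions.** -/
theorem illuminate (𝒜 : Finset (Finset ι)) (hne : ∀ A ∈ 𝒜, A.Nonempty)
    (hint : ∀ A ∈ 𝒜, (A : Set ι).OrdConnected)
    (hlam : ∀ A ∈ 𝒜, ∀ B ∈ 𝒜, A ⊆ B ∨ B ⊆ A ∨ Disjoint A B)
    (M : Finset ι → Set (ι → ℝ)) (hMc : ∀ A ∈ 𝒜, Convex ℝ (M A))
    (hM : ∀ A ∈ 𝒜, Shrinks A (M A)) (K : Set (ι → ℝ)) (hKM : K = ⋂ A ∈ 𝒜, M A)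
    (hK : IsCompact K) (hKi : (interior K).Nonempty) :
    ∃ v : (ι → Bool) → (ι → ℝ), ∀ x ∈ K, ∃ σ, x + v σ ∈ interior K := by
  classical
  have hsub : ∀ A ∈ 𝒜, K ⊆ M A := by
    intro A hA
    rw [hKM]
    exact Set.biInter_subset_of_mem hA
  have h0 : (0 : ι → ℝ) ∈ interior K := by
    rw [hKM, Finset.interior_iInter]
    refine Set.mem_iInter₂.2 fun A hA => zero_mem (hne A hA) (hM A hA) hKi (hsub A hA)
  obtain ⟨r, hr, hball⟩ := Metric.isOpen_iff.1 isOpen_interior 0 h0
  set η : ℝ := r / 4 with hη
  have hη0 : 0 < η := by positivity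
  obtain ⟨ρ, hρ0, hρ⟩ := exists_rho 𝒜 M K hK hsub hM hη0
  set δ : ℝ := min 1 (ρ / η) with hδ
  have hδ0 : 0 < δ := lt_min one_pos (by positivity)
  have hδ1 : δ ≤ 1 := min_le_left _ _
  have hδρ : δ * η ≤ ρ := by
    have := min_le_right 1 (ρ / η)
    rw [← hδ, le_div_iff₀ hη0] at this
    exact this
  refine ⟨fun σ => (η / 2) • dir 𝒜 δ σ, ?_⟩
  intro x hx
  set S : Finset ι := Finset.univ.filter (fun i => η ≤ |x i|) with hS
  obtain ⟨σ, hσ1, hσ2⟩ := exists_ext 𝒜 hint hlam S (fun i => decide (0 ≤ x i))
  refine ⟨σ, ?_⟩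
  set a : ι → ℝ := fun i => δ ^ (Fintype.card ι - height 𝒜 σ i) with ha
  have ha0 : ∀ i, 0 < a i := fun i => pow_pos hδ0 _
  have ha1 : ∀ i, a i ≤ 1 := fun i => pow_le_one₀ hδ0.le hδ1
  set y : ι → ℝ := x + (η / 2) • dir 𝒜 δ σ with hy
  have hyi : ∀ i, y i = x i - η / 2 * (sg (σ i) * a i) := by
    intro i
    simp only [hy, Pi.add_apply, Pi.smul_apply, dir, smul_eq_mul, ha]
    ring
  have habs : ∀ i, |y i - x i| ≤ η / 2 * a i := by
    intro i
    rw [hyi, show x i - η / 2 * (sg (σ i) * a i) - x i = - (sg (σ i) * (η / 2 * a i)) by ring,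
      abs_neg, abs_mul, sg_abs, one_mul, abs_of_pos (by have := ha0 i; positivity)]
  have hyS : ∀ i ∈ S, y i ∈ Set.uIcc 0 (x i) := by
    intro i hi
    have h1 : η ≤ |x i| := (Finset.mem_filter.1 hi).2
    have h2 := hσ1 i hi
    have h3 := ha0 i
    have h4 := ha1 i
    have h5 : η / 2 * a i ≤ η := by nlinarith
    have h6 : 0 < η / 2 * a i := by positivity
    rw [hyi, h2]
    by_cases hx0 : 0 ≤ x i
    · rw [abs_of_nonneg hx0] at h1
      rw [Set.uIcc_of_le hx0]
      simp only [hx0, decide_true, sg, if_true]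
      constructor <;> nlinarith
    · push Not at hx0
      rw [abs_of_neg hx0] at h1
      rw [Set.uIcc_comm, Set.uIcc_of_le hx0.le]
      simp only [not_le.2 hx0, decide_false, sg]
      norm_num
      constructor <;> nlinarith
  change y ∈ interior K
  rw [hKM, Finset.interior_iInter]
  refine Set.mem_iInter₂.2 fun A hA => ?_
  by_cases hAS : ∃ i ∈ A, i ∈ S
  · obtain ⟨t, ht⟩ := exists_top (hne A hA) σ
    have htS : t ∈ S := hσ2 A hA hAS t ht
    have hxt : η ≤ |x t| := (Finset.mem_filter.1 htS).2
    have hσt := hσ1 t htS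
    have hxt2 : η ≤ sg (σ t) * x t := by
      rw [hσt]
      by_cases hx0 : 0 ≤ x t
      · simp only [hx0, decide_true, sg, if_true, one_mul]
        rwa [abs_of_nonneg hx0] at hxt
      · push Not at hx0
        simp only [not_le.2 hx0, decide_false, sg]
        rw [abs_of_neg hx0] at hxt
        norm_num
        linarith
    -- the domination
    have hdom : ∀ i ∈ A, i ≠ t → η / 2 * a i ≤ a t / 2 * ρ := by
      intro i hi hit
      have h1 := height_lt hint hlam hA ht hi hit
      have h2 := height_le 𝒜 σ t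
      have h3 : a i ≤ δ * a t := by
        simp only [ha]
        rw [← pow_succ']
        exact pow_le_pow_of_le_one hδ0.le hδ1 (by omega)
      have h4 := ha0 t
      calc η / 2 * a i ≤ η / 2 * (δ * a t) := by gcongr
        _ = a t / 2 * (δ * η) := by ring
        _ ≤ a t / 2 * ρ := by gcongr
    -- the comparison point
    set q : ι → ℝ := fun i => if i = t then x t - sg (σ t) * (η / 2) else
      if i ∈ S then x i else if 0 ≤ y i then x i + ρ else x i - ρ with hq
    have hqM : q ∈ M A := by
      refine hρ A hA t ht.1 (σ t) x hx hxt2 q ?_ ?_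
      · intro i hit
        simp only [hq, if_neg hit]
        split_ifs
        · simp [hρ0.le]
        · rw [add_sub_cancel_left, abs_of_pos hρ0]
        · rw [show x i - ρ - x i = -ρ by ring, abs_neg, abs_of_pos hρ0]
      · simp only [hq, if_true]
    have hat := ha0 t
    have hat1 := ha1 t
    set p : ι → ℝ := (1 - a t / 2) • x + (a t / 2) • q with hp
    have hpM : p ∈ M A := hMc A hA (hsub A hA hx) hqM (by linarith) (by positivity) (by ring)
    have hpi : ∀ i, p i = x i + a t / 2 * (q i - x i) := by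
      intro i
      simp only [hp, Pi.add_apply, Pi.smul_apply, smul_eq_mul]
      ring
    refine hM A hA p hpM y ?_ ⟨t, ht.1, ?_⟩
    · intro i hi
      by_cases hit : i = t
      · rw [hit, hpi, hyi]
        simp only [hq, if_true]
        have h7 : 0 < a t * η := by positivity
        have h8 : a t * η ≤ η := by nlinarith
        cases hb : σ t
        · rw [hb] at hxt2
          simp only [sg] at hxt2 ⊢
          norm_num at hxt2 ⊢
          rw [Set.mem_uIcc]
          right
          constructor <;> nlinarith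
        · rw [hb] at hxt2
          simp only [sg] at hxt2 ⊢
          norm_num at hxt2 ⊢
          rw [Set.mem_uIcc]
          left
          constructor <;> nlinarith
      · rw [hpi]
        simp only [hq, if_neg hit]
        by_cases hiS : i ∈ S
        · rw [if_pos hiS, sub_self, mul_zero, add_zero]
          exact hyS i hiS
        · rw [if_neg hiS]
          have h9 := hdom i hi hit
          have h10 := abs_le.1 (habs i)
          by_cases hy0 : 0 ≤ y i
          · rw [if_pos hy0, add_sub_cancel_left, Set.mem_uIcc]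
            left
            constructor
            · exact hy0
            · linarith [h10.2]
          · rw [if_neg hy0, show x i - ρ - x i = -ρ by ring, Set.mem_uIcc]
            push Not at hy0
            right
            constructor
            · linarith [h10.1]
            · exact hy0.le
    · rw [hpi, hyi]
      simp only [hq, if_true]
      have h7 : 0 < a t * η := by positivity
      cases σ t <;> simp only [sg] <;> norm_num <;> intro h <;> nlinarith
  · push Not at hAS
    have hA' := hne A hA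
    set z : ι → ℝ := fun i => if 0 ≤ y i then 3 * η else - (3 * η) with hz
    have hzM : z ∈ M A := by
      apply hsub A hA
      apply interior_subset
      apply hball
      rw [Metric.mem_ball]
      refine lt_of_le_of_lt ((dist_pi_le_iff (by positivity : (0 : ℝ) ≤ 3 * η)).2 ?_)
        (by rw [hη]; linarith : 3 * η < r)
      intro i
      rw [Real.dist_eq, Pi.zero_apply, sub_zero]
      simp only [hz]
      split_ifs
      · rw [abs_of_pos (by positivity)]
      · rw [abs_neg, abs_of_pos (by positivity)]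
    have hyb : ∀ i ∈ A, |y i| ≤ 2 * η := by
      intro i hi
      have h1 : |x i| < η := by
        by_contra hcon
        rw [not_lt] at hcon
        exact hAS i hi (Finset.mem_filter.2 ⟨Finset.mem_univ i, hcon⟩)
      have h2 := habs i
      have h3 := ha1 i
      have h4 : |y i| ≤ |y i - x i| + |x i| := by
        have := abs_add_le (y i - x i) (x i)
        rwa [sub_add_cancel] at this
      nlinarith
    obtain ⟨t, ht⟩ := hA'
    refine hM A hA z hzM y ?_ ⟨t, ht, ?_⟩
    · intro i hi
      have h1 := abs_le.1 (hyb i hi)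
      simp only [hz]
      split_ifs with h
      · rw [Set.mem_uIcc]
        left
        exact ⟨h, by linarith [h1.2]⟩
      · rw [Set.mem_uIcc]
        right
        push Not at h
        exact ⟨by linarith [h1.1], h.le⟩
    · have h1 := abs_le.1 (hyb t ht)
      simp only [hz]
      split_ifs with h
      · intro h2
        linarith [h1.2]
      · intro h2
        linarith [h1.1]

end Pool.Agent.H665R3.Lam
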