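import Mathlib

set_option autoImplicit false

/-!
The elements of a finite set can be arranged linearly in such a way that all members of a given
laminar family of subsets are order-connected.
-/

namespace Pool.Agent.H665R3.Lam

variable {ι : Type} [Fintype ι]

/-- `j` and `i` are in a common member of size at most `k`, or equal. -/
def Rel (𝒜 : Finset (Finset ι)) (k : ℕ) (i j : ι) : Prop :=
  j = i ∨ ∃ A ∈ 𝒜, A.card ≤ k ∧ i ∈ A ∧ j ∈ A

open Classical in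
/-- The key. -/
noncomputable def key (𝒜 : Finset (Finset ι)) (k : ℕ) (i : ι) : ℕ :=
  sInf {m | ∃ j, Rel 𝒜 k i j ∧ (Fintype.equivFin ι j : ℕ) = m}

lemma key_spec (𝒜 : Finset (Finset ι)) (k : ℕ) (i : ι) :
    ∃ j, Rel 𝒜 k i j ∧ (Fintype.equivFin ι j : ℕ) = key 𝒜 k i := by
  have : {m | ∃ j, Rel 𝒜 k i j ∧ (Fintype.equivFin ι j : ℕ) = m}.Nonempty :=
    ⟨_, i, Or.inl rfl, rfl⟩
  exact Nat.sInf_mem this

lemma key_congr {𝒜 : Finset (Finset ι)}
    (hlam : ∀ A ∈ 𝒜, ∀ B ∈ 𝒜, A ⊆ B ∨ B ⊆ A ∨ Disjoint A B) {A : Finset ι} (hA : A ∈ 𝒜)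
    {k : ℕ} (hk : A.card ≤ k) {i j : ι} (hi : i ∈ A) (hj : j ∈ A) : key 𝒜 k i = key 𝒜 k j := by
  have h : ∀ {i j : ι}, i ∈ A → j ∈ A → ∀ w, Rel 𝒜 k i w → Rel 𝒜 k j w := by
    intro i j hi hj w hw
    rcases hw with rfl | ⟨B, hB, hBk, hiB, hwB⟩
    · exact Or.inr ⟨A, hA, hk, hj, hi⟩
    · rcases hlam A hA B hB with h | h | h
      · exact Or.inr ⟨B, hB, hBk, h hj, hwB⟩
      · exact Or.inr ⟨A, hA, hk, hj, h hwB⟩
      · exact absurd hiB (Finset.disjoint_left.1 h hi)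
  unfold key
  congr 1
  ext m
  constructor
  · rintro ⟨w, hw, hw2⟩
    exact ⟨w, h hi hj w hw, hw2⟩
  · rintro ⟨w, hw, hw2⟩
    exact ⟨w, h hj hi w hw, hw2⟩

lemma key_zero (𝒜 : Finset (Finset ι)) (i : ι) : key 𝒜 0 i = (Fintype.equivFin ι i : ℕ) := by
  obtain ⟨j, hj, hj2⟩ := key_spec 𝒜 0 i
  rcases hj with rfl | ⟨A, hA, hk, hi, -⟩
  · exact hj2.symm
  · rw [Nat.le_zero, Finset.card_eq_zero] at hk
    rw [hk] at hi
    exact absurd hi (Finset.notMem_empty i)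

lemma mem_of_key {𝒜 : Finset (Finset ι)}
    (hlam : ∀ A ∈ 𝒜, ∀ B ∈ 𝒜, A ⊆ B ∨ B ⊆ A ∨ Disjoint A B) {A : Finset ι} (hA : A ∈ 𝒜)
    {i u : ι} (hi : i ∈ A) (h : key 𝒜 A.card u = key 𝒜 A.card i) : u ∈ A := by
  have hsub : ∀ {i w : ι}, (∃ B ∈ 𝒜, B.card ≤ A.card ∧ i ∈ B ∧ w ∈ B) → i ∈ A → w ∈ A := by
    rintro i w ⟨B, hB, hBk, hiB, hwB⟩ hi
    rcases hlam A hA B hB with h | h | h
    · rw [Finset.eq_of_subset_of_card_le h hBk]
      exact hwB
    · exact h hwB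
    · exact absurd hiB (Finset.disjoint_left.1 h hi)
  obtain ⟨v, hv, hv2⟩ := key_spec 𝒜 A.card u
  obtain ⟨w, hw, hw2⟩ := key_spec 𝒜 A.card i
  have hvw : v = w := by
    apply (Fintype.equivFin ι).injective
    apply Fin.ext
    rw [hv2, hw2, h]
  have hwA : w ∈ A := by
    rcases hw with rfl | hw
    · exact hi
    · exact hsub hw hi
  rw [← hvw] at hwA
  rcases hv with rfl | ⟨B, hB, hBk, huB, hvB⟩
  · exact hwA
  · exact hsub ⟨B, hB, hBk, hvB, huB⟩ hwA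

/-- The lexicographic key. -/
noncomputable def lexKey (𝒜 : Finset (Finset ι)) (i : ι) : Lex (Fin (Fintype.card ι + 1) → ℕ) :=
  toLex (fun m => key 𝒜 (Fintype.card ι - m) i)

lemma lexKey_injective (𝒜 : Finset (Finset ι)) : Function.Injective (lexKey 𝒜) := by
  intro i j hij
  have h := congrFun (toLex.injective hij) (Fin.last _)
  simp only [Fin.val_last, Nat.sub_self, key_zero] at h
  exact (Fintype.equivFin ι).injective (Fin.ext h)

lemma lex_squeeze {N : ℕ} {a b c : Lex (Fin N → ℕ)} (hab : a ≤ b) (hbc : b ≤ c) (m : Fin N)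
    (hac : ∀ j ≤ m, ofLex a j = ofLex c j) : ∀ j ≤ m, ofLex b j = ofLex a j := by
  by_contra hcon
  push Not at hcon
  -- the first difference
  have hne : (Finset.univ.filter (fun j : Fin N => ofLex b j ≠ ofLex a j)).Nonempty := by
    obtain ⟨j, hj, hj2⟩ := hcon
    exact ⟨j, Finset.mem_filter.2 ⟨Finset.mem_univ _, hj2⟩⟩
  set j₀ := (Finset.univ.filter (fun j : Fin N => ofLex b j ≠ ofLex a j)).min' hne with hj₀
  have hj₀ne : ofLex b j₀ ≠ ofLex a j₀ := (Finset.mem_filter.1 (Finset.min'_mem _ hne)).2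
  have hj₀min : ∀ j, j < j₀ → ofLex b j = ofLex a j := by
    intro j hj
    by_contra h
    exact absurd (Finset.min'_le _ j (Finset.mem_filter.2 ⟨Finset.mem_univ _, h⟩)) (not_le.2 hj)
  have hj₀m : j₀ ≤ m := by
    obtain ⟨j, hj, hj2⟩ := hcon
    exact (Finset.min'_le _ j (Finset.mem_filter.2 ⟨Finset.mem_univ _, hj2⟩)).trans hj
  have key : ∀ {a b : Lex (Fin N → ℕ)}, a ≤ b → (∀ j, j < j₀ → ofLex a j = ofLex b j) →
      ofLex a j₀ ≤ ofLex b j₀ := by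
    intro a b hab h
    rcases hab.lt_or_eq with hlt | heq
    · obtain ⟨i, hi, hi2⟩ := hlt
      rcases lt_trichotomy i j₀ with h1 | h1 | h1
      · exact absurd (h i h1) (ne_of_lt hi2)
      · rw [← h1]
        exact hi2.le
      · exact (hi j₀ h1).le
    · rw [heq]
  have h1 := key hab (fun j hj => (hj₀min j hj).symm)
  have h2 := key hbc (fun j hj => (hj₀min j hj).trans (hac j (hj.le.trans hj₀m)))
  rw [← hac j₀ hj₀m] at h2
  exact hj₀ne (le_antisymm h2 h1)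

/-- **The order.** -/
theorem exists_order (𝒜 : Finset (Finset ι))
    (hlam : ∀ A ∈ 𝒜, ∀ B ∈ 𝒜, A ⊆ B ∨ B ⊆ A ∨ Disjoint A B) :
    ∀ A ∈ 𝒜, ∀ i ∈ A, ∀ j ∈ A, ∀ u, lexKey 𝒜 i ≤ lexKey 𝒜 u → lexKey 𝒜 u ≤ lexKey 𝒜 j → u ∈ A := by
  intro A hA i hi j hj u hiu huj
  have hcard : A.card ≤ Fintype.card ι := Finset.card_le_univ A
  set m : Fin (Fintype.card ι + 1) := ⟨Fintype.card ι - A.card, by omega⟩ with hm
  have hac : ∀ l ≤ m, ofLex (lexKey 𝒜 i) l = ofLex (lexKey 𝒜 j) l := by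
    intro l hl
    have hl' : (l : ℕ) ≤ Fintype.card ι - A.card := hl
    exact key_congr hlam hA (by omega) hi hj
  have h := lex_squeeze hiu huj m hac m le_rfl
  apply mem_of_key hlam hA hi
  have h2 : key 𝒜 (Fintype.card ι - m) u = key 𝒜 (Fintype.card ι - m) i := h
  have h3 : Fintype.card ι - (m : ℕ) = A.card := by
    simp only [hm]
    omega
  rwa [h3] at h2

end Pool.Agent.H665R3.Lam
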