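import Mathlib

set_option autoImplicit false

/-!
Quantitative illumination of a convex body from a covering by translates of its interior.
-/

namespace Pool.Agent.H665R3.Lam

open Filter Topology

lemma step {E : Type} [NormedAddCommGroup E] [NormedSpace ℝ E] {C : Set E} (hc : Convex ℝ C)
    (hk : IsCompact C) (h0 : (0 : E) ∈ interior C) {N : ℕ}
    (hcov : ∃ T : Finset E, T.card ≤ N ∧ C ⊆ ⋃ t ∈ T, (fun x => t + x) '' interior C) :
    ∃ (v : Fin N → E) (κ D : ℝ), 0 < κ ∧ κ ≤ 1 ∧ 1 ≤ D ∧
      (∀ c x s, 0 ≤ s → gauge C (x - s • v c) ≤ gauge C x + D * s) ∧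
      ∀ x, ∃ c, ∀ s, 0 ≤ s → s ≤ gauge C x → gauge C (x - s • v c) ≤ gauge C x - κ * s := by
  classical
  obtain ⟨T, hT, hcov⟩ := hcov
  have hnh : C ∈ 𝓝 (0 : E) := mem_interior_iff_mem_nhds.1 h0
  have habs : Absorbent ℝ C := absorbent_nhds_zero hnh
  have hcont : Continuous (gauge C) := continuous_gauge hc hnh
  -- the family of vectors
  have hTne : T.Nonempty := by
    have h := hcov (interior_subset h0)
    simp only [Set.mem_iUnion] at h
    obtain ⟨t, ht, -⟩ := h
    exact ⟨t, ht⟩
  obtain ⟨t₀, ht₀⟩ := hTne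
  set v : Fin N → E := fun c => if h : (c : ℕ) < T.card then (T.equivFin.symm ⟨c, h⟩ : E) else t₀
    with hv
  have hvT : ∀ t ∈ T, ∃ c, v c = t := by
    intro t ht
    have h1 : (T.equivFin ⟨t, ht⟩ : ℕ) < T.card := (T.equivFin ⟨t, ht⟩).2
    refine ⟨⟨T.equivFin ⟨t, ht⟩, h1.trans_le hT⟩, ?_⟩
    simp only [hv, h1, dif_pos]
    have : (⟨(T.equivFin ⟨t, ht⟩ : ℕ), h1⟩ : Fin T.card) = T.equivFin ⟨t, ht⟩ := Fin.ext rfl
    rw [this, Equiv.symm_apply_apply]
  -- the uniform gain
  set U : ℕ → Set E := fun m => {b | ∃ c, gauge C (b - v c) < 1 - 1 / ((m : ℝ) + 2)} with hU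
  have hUo : ∀ m, IsOpen (U m) := by
    intro m
    have : U m = ⋃ c, {b | gauge C (b - v c) < 1 - 1 / ((m : ℝ) + 2)} := by
      ext b
      simp [hU]
    rw [this]
    exact isOpen_iUnion fun c => isOpen_lt (hcont.comp (continuous_id.sub continuous_const))
      continuous_const
  have hUm : Monotone U := by
    intro m m' hmm b hb
    obtain ⟨c, hc⟩ := hb
    refine ⟨c, hc.trans_le ?_⟩
    have h1 : (m : ℝ) ≤ m' := by exact_mod_cast hmm
    have : 1 / ((m' : ℝ) + 2) ≤ 1 / ((m : ℝ) + 2) :=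
      one_div_le_one_div_of_le (by positivity) (by linarith)
    linarith
  have hUc : C ⊆ ⋃ m, U m := by
    intro b hb
    have h := hcov hb
    simp only [Set.mem_iUnion] at h
    obtain ⟨t, ht, y, hy, hyt⟩ := h
    obtain ⟨c, hc'⟩ := hvT t ht
    have hg : gauge C (b - v c) < 1 := by
      rw [gauge_lt_one_iff_mem_interior hc hnh, hc', ← hyt]
      simpa using hy
    obtain ⟨m, hm⟩ := exists_nat_one_div_lt (sub_pos.2 hg)
    refine Set.mem_iUnion.2 ⟨m, c, ?_⟩
    have : 1 / ((m : ℝ) + 2) ≤ 1 / ((m : ℝ) + 1) :=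
      one_div_le_one_div_of_le (by positivity) (by linarith)
    linarith
  obtain ⟨m, hm⟩ := hk.elim_directed_cover U hUo hUc hUm.directed_le
  set κ : ℝ := 1 / ((m : ℝ) + 2) with hκ
  have hκ0 : 0 < κ := by positivity
  have hκ1 : κ ≤ 1 := by
    rw [hκ, div_le_one (by positivity)]
    have : (0 : ℝ) ≤ m := Nat.cast_nonneg m
    linarith
  refine ⟨v, κ, 1 + ∑ c, gauge C (- v c), hκ0, hκ1, ?_, ?_, ?_⟩
  · have : 0 ≤ ∑ c, gauge C (- v c) := Finset.sum_nonneg fun c _ => gauge_nonneg _
    linarith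
  · intro c x s hs
    have h1 : gauge C (x - s • v c) ≤ gauge C x + gauge C (s • (- v c)) := by
      have := gauge_add_le hc habs x (s • (- v c))
      rwa [smul_neg, ← sub_eq_add_neg, ← smul_neg] at this
    rw [gauge_smul_of_nonneg hs, smul_eq_mul] at h1
    have h2 : gauge C (- v c) ≤ ∑ c, gauge C (- v c) :=
      Finset.single_le_sum (f := fun c => gauge C (- v c)) (fun c _ => gauge_nonneg _)
        (Finset.mem_univ c)
    nlinarith
  · intro x
    rcases (gauge_nonneg (s := C) x).eq_or_lt with hg | hg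
    · obtain ⟨c, -⟩ := hvT t₀ ht₀
      refine ⟨c, fun s hs hs2 => ?_⟩
      rw [← hg] at hs2
      have : s = 0 := le_antisymm hs2 hs
      rw [this]
      simp
    · set g : ℝ := gauge C x with hgdef
      set b : E := g⁻¹ • x with hb
      have hgb : gauge C b = 1 := by
        rw [hb, gauge_smul_of_nonneg (inv_nonneg.2 hg.le), smul_eq_mul, ← hgdef,
          inv_mul_cancel₀ hg.ne']
      have hbC : b ∈ C := by
        have := (gauge_le_one_iff_mem_closure hc hnh).1 hgb.le
        rwa [hk.isClosed.closure_eq] at this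
      obtain ⟨c, hcc⟩ := hm hbC
      refine ⟨c, fun s hs hs2 => ?_⟩
      set l : ℝ := s / g with hl
      have hl0 : 0 ≤ l := by positivity
      have hl1 : l ≤ 1 := (div_le_one hg).2 hs2
      have hxb : x = g • b := by
        rw [hb, smul_smul, mul_inv_cancel₀ hg.ne', one_smul]
      have hsl : s = l * g := by
        rw [hl, div_mul_cancel₀ _ hg.ne']
      have h1 : x - s • v c = (1 - l) • x + (l * g) • (b - v c) := by
        rw [smul_sub, ← hsl]
        have : (1 - l) • x + s • b = x := by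
          rw [hsl, mul_smul, ← hxb, ← add_smul]
          simp
        rw [add_sub, this]
      have h2 : gauge C (x - s • v c) ≤ (1 - l) * g + (l * g) * gauge C (b - v c) := by
        rw [h1]
        refine (gauge_add_le hc habs _ _).trans ?_
        rw [gauge_smul_of_nonneg (by linarith), gauge_smul_of_nonneg (by positivity)]
        rfl
      have h3 : (l * g) * gauge C (b - v c) ≤ (l * g) * (1 - κ) :=
        mul_le_mul_of_nonneg_left hcc.le (by positivity)
      have h4 : (1 - l) * g + (l * g) * (1 - κ) = g - κ * s := by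
        rw [hsl]
        ring
      linarith

end Pool.Agent.H665R3.Lam
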