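import Pool.Agent.H665R3.LamIll
import Pool.Agent.H665R3.LamOrder
import Pool.Agent.H665R3.LamStep

set_option autoImplicit false

/-!
Laminar sums of convex bodies: the covering number is at most the product of the covering
numbers of the summands.  Blocks of one or two elements may carry arbitrary solid convex sets.
-/

namespace Pool.Agent.H665R3.Lam

open Filter Topology

variable {ι : Type} [Fintype ι]

/-- `M` is solid in the coordinates of `A`: if `x ∈ M` and `y i` lies between `0` and `x i` for all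
`i ∈ A`, then `y ∈ M`. -/
def Solid (A : Finset ι) (M : Set (ι → ℝ)) : Prop :=
  ∀ x ∈ M, ∀ y : ι → ℝ, (∀ i ∈ A, y i ∈ Set.uIcc 0 (x i)) → y ∈ M

omit [Fintype ι] in
lemma interior_of_lt {A : Finset ι} {M : Set (ι → ℝ)} (hMc : Convex ℝ M)
    (hM0 : (0 : ι → ℝ) ∈ interior M) (hM : Solid A M) {p Y : ι → ℝ} (hp : p ∈ M)
    (hY0 : ∀ i ∈ A, 0 ≤ Y i) (hYp : ∀ i ∈ A, Y i < p i) : Y ∈ interior M := by
  classical
  -- the scaling factor
  obtain ⟨s, hs0, hs1, hs⟩ : ∃ s : ℝ, 0 < s ∧ s < 1 ∧ ∀ i ∈ A, Y i ≤ s * p i := by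
    have key : ∀ i ∈ A, ∀ᶠ s : ℝ in 𝓝[<] 1, Y i ≤ s * p i := by
      intro i hi
      have h1 : Tendsto (fun s : ℝ => s * p i) (𝓝[<] 1) (𝓝 (1 * p i)) := by
        have : Tendsto (fun s : ℝ => s * p i) (𝓝 1) (𝓝 (1 * p i)) :=
          (continuous_id.mul continuous_const).tendsto 1
        exact this.mono_left nhdsWithin_le_nhds
      rw [one_mul] at h1
      exact (h1.eventually (lt_mem_nhds (hYp i hi))).mono fun s hs => hs.le
    have key2 : ∀ᶠ s : ℝ in 𝓝[<] 1, ∀ i ∈ A, Y i ≤ s * p i := by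
      rw [Filter.eventually_all_finset]
      exact key
    obtain ⟨s, hs, hs2⟩ := (key2.and (Ioo_mem_nhdsLT (show (0 : ℝ) < 1 by norm_num))).exists
    exact ⟨s, hs2.1, hs2.2, hs⟩
  have h1 : (s⁻¹ • Y) ∈ M := by
    refine hM p hp _ ?_
    intro i hi
    rw [Pi.smul_apply, smul_eq_mul, Set.mem_uIcc]
    left
    refine ⟨mul_nonneg (inv_nonneg.2 hs0.le) (hY0 i hi), ?_⟩
    rw [inv_mul_le_iff₀ hs0]
    exact hs i hi
  have h2 : (1 - s) • (0 : ι → ℝ) + s • (s⁻¹ • Y) ∈ interior M :=
    hMc.combo_interior_self_mem_interior hM0 h1 (by linarith) hs0.le (by ring)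
  rw [smul_zero, zero_add, smul_smul, mul_inv_cancel₀ hs0.ne', one_smul] at h2
  exact h2

/-- The exchange property. -/
lemma exchange (𝒜 : Finset (Finset ι)) (M : Finset ι → Set (ι → ℝ)) (P : Set (ι → ℝ))
    (hP : IsCompact P) (hPM : ∀ A ∈ 𝒜, P ⊆ M A) (hP0 : ∀ X ∈ P, ∀ i, 0 ≤ X i)
    (hMc : ∀ A ∈ 𝒜, Convex ℝ (M A)) (hsol : ∀ A ∈ 𝒜, Solid A (M A))
    (hM : ∀ A ∈ 𝒜, 3 ≤ A.card → Shrinks A (M A)) {η : ℝ} (hη : 0 < η)
    (hball : ∀ A ∈ 𝒜, ∀ z : ι → ℝ, (∀ i, |z i| ≤ 3 * η) → z ∈ M A) :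
    ∃ ρ : ℝ, 0 < ρ ∧ ∀ A ∈ 𝒜, ∀ t ∈ A, ∀ X ∈ P, η ≤ X t → ∀ q : ι → ℝ, q t = X t - η / 2 →
      (∀ i ∈ A, i ≠ t → η ≤ X i → q i = X i) → (∀ i ∈ A, i ≠ t → X i < η → q i = X i + ρ) →
      q ∈ M A := by
  classical
  -- a bound for `P`
  obtain ⟨R, hR0, hR⟩ : ∃ R : ℝ, 0 < R ∧ ∀ X ∈ P, ∀ i, X i ≤ R := by
    obtain ⟨R, hR⟩ := hP.isBounded.exists_norm_le
    refine ⟨max R 1, lt_max_of_lt_right one_pos, ?_⟩
    intro X hX i
    exact ((le_abs_self _).trans ((norm_le_pi_norm X i).trans (hR X hX))).trans (le_max_left _ _)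
  obtain ⟨ρ₁, hρ₁0, hρ₁⟩ := exists_rho (𝒜.filter (fun A => 3 ≤ A.card)) M P hP
    (fun A hA => hPM A (Finset.mem_filter.1 hA).1)
    (fun A hA => hM A (Finset.mem_filter.1 hA).1 (Finset.mem_filter.1 hA).2) hη
  refine ⟨min ρ₁ (η ^ 2 / R), lt_min hρ₁0 (by positivity), ?_⟩
  set ρ : ℝ := min ρ₁ (η ^ 2 / R) with hρ
  have hρ0 : 0 < ρ := lt_min hρ₁0 (by positivity)
  intro A hA t ht X hX hXt q hqt hq1 hq2
  have hXM := hPM A hA hX
  have hX0 := hP0 X hX
  by_cases hcard : 3 ≤ A.card
  · -- strictly shrinking; the coordinates outside of `A` are irrelevant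
    set q' : ι → ℝ := fun i => if i ∈ A then q i else X i with hq'
    have hq'M : q' ∈ M A := by
      refine hρ₁ A (Finset.mem_filter.2 ⟨hA, hcard⟩) t ht true X hX ?_ q' ?_ ?_
      · simpa [sg] using hXt
      · intro i hit
        simp only [hq']
        split_ifs with hi
        · rcases le_or_gt η (X i) with h | h
          · rw [hq1 i hi hit h]
            simp [hρ₁0.le]
          · rw [hq2 i hi hit h, add_sub_cancel_left, abs_of_pos hρ0]
            exact min_le_left _ _
        · simp [hρ₁0.le]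
      · simp only [hq', if_pos ht, sg, if_true, hqt]
        ring
    refine hsol A hA q' hq'M q ?_
    intro i hi
    simp only [hq', if_pos hi]
    exact Set.right_mem_uIcc
  · by_cases hall : ∀ j ∈ A, j ≠ t → X j < η
    · have hXt0 : 0 < X t := lt_of_lt_of_le hη hXt
      set l : ℝ := η / (2 * X t) with hl
      have hl0 : 0 < l := by positivity
      have hl1 : l ≤ 1 := by
        rw [hl, div_le_one (by positivity)]
        linarith
      set z : ι → ℝ := fun j => if j = t then 0 else 3 * η with hz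
      have hzM : z ∈ M A := by
        apply hball A hA
        intro i
        simp only [hz]
        split_ifs
        · rw [abs_zero]
          positivity
        · rw [abs_of_pos (by positivity)]
      have hcM : (1 - l) • X + l • z ∈ M A :=
        hMc A hA hXM hzM (by linarith) hl0.le (by ring)
      refine hsol A hA _ hcM q ?_
      intro i hi
      rw [Set.mem_uIcc]
      left
      simp only [Pi.add_apply, Pi.smul_apply, smul_eq_mul]
      by_cases hit : i = t
      · rw [hit, hqt]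
        simp only [hz, if_true]
        have h1 : l * X t = η / 2 := by
          rw [hl]
          field_simp
        constructor
        · linarith
        · nlinarith
      · rw [hq2 i hi hit (hall i hi hit)]
        simp only [hz, if_neg hit]
        have h1 : X i < η := hall i hi hit
        have h2 : ρ ≤ l * (2 * η) := by
          calc ρ ≤ η ^ 2 / R := min_le_right _ _
            _ ≤ η ^ 2 / X t := by
                apply div_le_div_of_nonneg_left (by positivity) hXt0 (hR X hX t)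
            _ = l * (2 * η) := by
                rw [hl]
                field_simp
        constructor
        · have := hX0 i
          linarith
        · nlinarith
    · push Not at hall
      obtain ⟨j, hj, hjt, hXj⟩ := hall
      have hA2 : ∀ i ∈ A, i = t ∨ i = j := by
        intro i hi
        by_contra hcon
        push Not at hcon
        apply hcard
        have hsub : ({i, t, j} : Finset ι) ⊆ A := by
          intro u hu
          simp only [Finset.mem_insert, Finset.mem_singleton] at hu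
          rcases hu with rfl | rfl | rfl
          · exact hi
          · exact ht
          · exact hj
        have h3 : ({i, t, j} : Finset ι).card = 3 := by
          rw [Finset.card_eq_three]
          exact ⟨i, t, j, hcon.1, hcon.2, hjt.symm, rfl⟩
        rw [← h3]
        exact Finset.card_le_card hsub
      refine hsol A hA X hXM q ?_
      intro i hi
      rw [Set.mem_uIcc]
      left
      rcases hA2 i hi with rfl | rfl
      · rw [hqt]
        constructor <;> linarith
      · rw [hq1 i hi hjt hXj]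
        exact ⟨hX0 i, le_rfl⟩

/-- The core statement, for order-connected blocks and index functions. -/
theorem core2 [LinearOrder ι] {E : ι → Type} [∀ j, NormedAddCommGroup (E j)]
    [∀ j, NormedSpace ℝ (E j)] (C : ∀ j, Set (E j)) (hCc : ∀ j, Convex ℝ (C j))
    (hCk : ∀ j, IsCompact (C j)) (hC0 : ∀ j, (0 : E j) ∈ interior (C j))
    (N : ι → ℕ) (hN : ∀ j, 2 ≤ N j)
    (hcov : ∀ j, ∃ T : Finset (E j), T.card ≤ N j ∧
      C j ⊆ ⋃ t ∈ T, (fun x => t + x) '' interior (C j))
    (𝒜 : Finset (Finset ι)) (hne : ∀ A ∈ 𝒜, A.Nonempty)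
    (hint : ∀ A ∈ 𝒜, (A : Set ι).OrdConnected)
    (hlam : ∀ A ∈ 𝒜, ∀ B ∈ 𝒜, A ⊆ B ∨ B ⊆ A ∨ Disjoint A B)
    (M : Finset ι → Set (ι → ℝ)) (hMc : ∀ A ∈ 𝒜, Convex ℝ (M A))
    (hM0 : ∀ A ∈ 𝒜, (0 : ι → ℝ) ∈ interior (M A)) (hsol : ∀ A ∈ 𝒜, Solid A (M A))
    (hM : ∀ A ∈ 𝒜, 3 ≤ A.card → Shrinks A (M A))
    (K : Set (∀ j, E j)) (hKdef : K = {x | ∀ A ∈ 𝒜, (fun j => gauge (C j) (x j)) ∈ M A})
    (hK : IsCompact K) :
    ∃ w : (∀ j, Fin (N j)) → (∀ j, E j), ∀ x ∈ K, ∃ c, x - w c ∈ interior K := by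
  classical
  have hnh : ∀ j, C j ∈ 𝓝 (0 : E j) := fun j => mem_interior_iff_mem_nhds.1 (hC0 j)
  set G : (∀ j, E j) → (ι → ℝ) := fun x j => gauge (C j) (x j) with hG
  have hGc : Continuous G := by
    refine continuous_pi fun j => ?_
    exact (continuous_gauge (hCc j) (hnh j)).comp (continuous_apply j)
  have hG0 : ∀ x j, 0 ≤ G x j := fun x j => gauge_nonneg _
  set P : Set (ι → ℝ) := G '' K with hP
  have hPc : IsCompact P := hK.image hGc
  have hPM : ∀ A ∈ 𝒜, P ⊆ M A := by
    rintro A hA _ ⟨x, hx, rfl⟩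
    rw [hKdef] at hx
    exact hx A hA
  have hP0 : ∀ X ∈ P, ∀ i, 0 ≤ X i := by
    rintro _ ⟨x, _, rfl⟩ i
    exact hG0 x i
  -- reduction to profiles
  have hint' : ∀ y : ∀ j, E j, (∀ A ∈ 𝒜, G y ∈ interior (M A)) → y ∈ interior K := by
    intro y hy
    have hopen : IsOpen (G ⁻¹' (⋂ A ∈ 𝒜, interior (M A))) := by
      refine IsOpen.preimage hGc ?_
      exact isOpen_biInter_finset fun A _ => isOpen_interior
    refine mem_interior.2 ⟨_, ?_, hopen, ?_⟩
    · intro z hz
      rw [hKdef]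
      intro A hA
      exact interior_subset (Set.mem_iInter₂.1 hz A hA)
    · exact Set.mem_iInter₂.2 hy
  -- the constants of the bodies
  choose v κ D hκ0 hκ1 hD1 hv1 hv2 using fun j => step (hCc j) (hCk j) (hC0 j) (hcov j)
  rcases isEmpty_or_nonempty ι with hemp | hnonemp
  · refine ⟨fun _ => 0, fun x hx => ?_⟩
    have h𝒜 : ∀ A ∈ 𝒜, False := by
      intro A hA
      obtain ⟨i, -⟩ := hne A hA
      exact hemp.false i
    refine ⟨fun j => (hemp.false j).elim, ?_⟩
    apply hint'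
    intro A hA
    exact (h𝒜 A hA).elim
  obtain ⟨κ₀, hκ₀0, hκ₀⟩ : ∃ κ₀ : ℝ, 0 < κ₀ ∧ ∀ j, κ₀ ≤ κ j := by
    obtain ⟨j, -, hj⟩ := Finset.exists_min_image Finset.univ κ Finset.univ_nonempty
    exact ⟨κ j, hκ0 j, fun i => hj i (Finset.mem_univ i)⟩
  have hκ₀1 : κ₀ ≤ 1 := (hκ₀ (Classical.arbitrary ι)).trans (hκ1 _)
  obtain ⟨D₀, hD₀1, hD₀⟩ : ∃ D₀ : ℝ, 1 ≤ D₀ ∧ ∀ j, D j ≤ D₀ := by
    obtain ⟨j, -, hj⟩ := Finset.exists_max_image Finset.univ D Finset.univ_nonempty
    exact ⟨D j, hD1 j, fun i => hj i (Finset.mem_univ i)⟩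
  have hD₀0 : 0 < D₀ := by linarith
  -- `η`
  have h0 : (0 : ι → ℝ) ∈ ⋂ A ∈ 𝒜, interior (M A) := Set.mem_iInter₂.2 hM0
  obtain ⟨r, hr, hball⟩ := Metric.isOpen_iff.1
    (isOpen_biInter_finset fun (A : Finset ι) (_ : A ∈ 𝒜) => isOpen_interior (s := M A)) 0 h0
  set η : ℝ := r / 4 with hη
  have hη0 : 0 < η := by positivity
  have hball2 : ∀ A ∈ 𝒜, ∀ z : ι → ℝ, (∀ i, |z i| ≤ 3 * η) → z ∈ M A := by
    intro A hA z hz
    apply interior_subset
    have hzb : z ∈ Metric.ball (0 : ι → ℝ) r := by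
      rw [Metric.mem_ball]
      refine lt_of_le_of_lt ((dist_pi_le_iff (by positivity : (0 : ℝ) ≤ 3 * η)).2 ?_)
        (by rw [hη]; linarith : 3 * η < r)
      intro i
      rw [Real.dist_eq, Pi.zero_apply, sub_zero]
      exact hz i
    exact Set.mem_iInter₂.1 (hball hzb) A hA
  obtain ⟨ρ, hρ0, hρ⟩ := exchange 𝒜 M P hPc hPM hP0 hMc hsol hM hη0 hball2
  set ε : ℝ := η / D₀ with hε
  have hε0 : 0 < ε := by positivity
  have hεη : ε ≤ η := div_le_self hη0.le hD₀1
  have hεD : D₀ * ε = η := by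
    rw [hε, mul_div_cancel₀ _ hD₀0.ne']
  set δ : ℝ := min 1 (κ₀ * ρ / (2 * (η * D₀))) with hδ
  have hδ0 : 0 < δ := lt_min one_pos (by positivity)
  have hδ1 : δ ≤ 1 := min_le_left _ _
  have hδρ : δ * (η * D₀) ≤ κ₀ * ρ / 2 := by
    have := min_le_right 1 (κ₀ * ρ / (2 * (η * D₀)))
    rw [← hδ, le_div_iff₀ (by positivity)] at this
    linarith
  -- the bits
  set χ : (∀ j, Fin (N j)) → ι → Bool := fun c j => decide ((c j : ℕ) = 0) with hχ
  set a : (ι → Bool) → ι → ℝ := fun σ i => δ ^ (Fintype.card ι - height 𝒜 σ i) with ha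
  have ha0 : ∀ σ i, 0 < a σ i := fun σ i => pow_pos hδ0 _
  have ha1 : ∀ σ i, a σ i ≤ 1 := fun σ i => pow_le_one₀ hδ0.le hδ1
  refine ⟨fun c j => (ε * a (χ c) j) • v j (c j), ?_⟩
  intro x hx
  set X : ι → ℝ := G x with hX
  have hX0 : ∀ j, 0 ≤ X j := hG0 x
  have hXP : X ∈ P := ⟨x, hx, rfl⟩
  set S : Finset ι := Finset.univ.filter (fun i => η ≤ X i) with hS
  choose cc hcc using fun j => hv2 j (x j)
  obtain ⟨σ, hσ1, hσ2⟩ := exists_ext 𝒜 hint hlam S (fun j => decide ((cc j : ℕ) = 0))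
  set c : ∀ j, Fin (N j) := fun j => if j ∈ S then cc j else
    if σ j then ⟨0, by have := hN j; omega⟩ else ⟨1, by have := hN j; omega⟩ with hc
  have hχc : χ c = σ := by
    funext j
    change decide ((c j : ℕ) = 0) = σ j
    by_cases hj : j ∈ S
    · have hcj : c j = cc j := by simp only [hc, if_pos hj]
      rw [hσ1 j hj]
      simp only [hcj]
    · by_cases hσj : σ j
      · have hcj : c j = ⟨0, by have := hN j; omega⟩ := by
          simp only [hc, if_neg hj, if_pos hσj]
        simp only [hcj, hσj, decide_true]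
      · have hcj : c j = ⟨1, by have := hN j; omega⟩ := by
          simp only [hc, if_neg hj, if_neg hσj]
        simp only [hcj]
        simp [hσj]
  refine ⟨c, ?_⟩
  simp only [hχc]
  set y : ∀ j, E j := x - fun j => (ε * a σ j) • v j (c j) with hy
  change y ∈ interior K
  set Y : ι → ℝ := G y with hY
  have hY0 : ∀ j, 0 ≤ Y j := hG0 y
  have hyj : ∀ j, Y j = gauge (C j) (x j - (ε * a σ j) • v j (c j)) := fun j => rfl
  have hεa0 : ∀ j, 0 < ε * a σ j := fun j => mul_pos hε0 (ha0 σ j)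
  have hYgen : ∀ j, Y j ≤ X j + D₀ * (ε * a σ j) := by
    intro j
    rw [hyj]
    refine (hv1 j (c j) (x j) _ (hεa0 j).le).trans ?_
    have := mul_le_mul_of_nonneg_right (hD₀ j) (hεa0 j).le
    change gauge (C j) (x j) + _ ≤ gauge (C j) (x j) + _
    linarith
  have hYS : ∀ j ∈ S, Y j ≤ X j - κ₀ * (ε * a σ j) := by
    intro j hj
    have h1 : η ≤ X j := (Finset.mem_filter.1 hj).2
    have h2 : ε * a σ j ≤ X j := by
      have := ha1 σ j
      have h3 := ha0 σ j
      nlinarith
    rw [hyj]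
    have h4 : c j = cc j := by
      simp only [hc, if_pos hj]
    rw [h4]
    refine (hcc j _ (hεa0 j).le h2).trans ?_
    have := mul_le_mul_of_nonneg_right (hκ₀ j) (hεa0 j).le
    change gauge (C j) (x j) - _ ≤ gauge (C j) (x j) - _
    linarith
  apply hint'
  intro A hA
  change Y ∈ interior (M A)
  by_cases hAS : ∃ i ∈ A, i ∈ S
  · obtain ⟨t, ht⟩ := exists_top (hne A hA) σ
    have htS : t ∈ S := hσ2 A hA hAS t ht
    have hXt : η ≤ X t := (Finset.mem_filter.1 htS).2
    have hat := ha0 σ t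
    have hat1 := ha1 σ t
    -- the domination
    have hdom : ∀ i ∈ A, i ≠ t → D₀ * (ε * a σ i) ≤ κ₀ * ε * a σ t / η * ρ / 2 := by
      intro i hi hit
      have h1 := height_lt hint hlam hA ht hi hit
      have h2 := height_le 𝒜 σ t
      have h3 : a σ i ≤ δ * a σ t := by
        simp only [ha]
        rw [← pow_succ']
        exact pow_le_pow_of_le_one hδ0.le hδ1 (by omega)
      calc D₀ * (ε * a σ i) ≤ D₀ * (ε * (δ * a σ t)) := by gcongr
        _ = ε * a σ t / η * (δ * (η * D₀)) := by field_simp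
        _ ≤ ε * a σ t / η * (κ₀ * ρ / 2) := by gcongr
        _ = κ₀ * ε * a σ t / η * ρ / 2 := by ring
    set l : ℝ := κ₀ * ε * a σ t / η with hl
    have hl0 : 0 < l := by positivity
    have hl1 : l ≤ 1 := by
      rw [hl, div_le_one hη0]
      have h1 : κ₀ * ε ≤ 1 * η := mul_le_mul hκ₀1 hεη hε0.le zero_le_one
      have h2 : κ₀ * ε * a σ t ≤ κ₀ * ε * 1 := mul_le_mul_of_nonneg_left hat1 (by positivity)
      linarith
    have hlη : l * η = κ₀ * (ε * a σ t) := by
      rw [hl, div_mul_cancel₀ _ hη0.ne']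
      ring
    -- the comparison point
    set q : ι → ℝ := fun i => if i = t then X t - η / 2 else
      if i ∈ S then X i else X i + ρ with hq
    have hqM : q ∈ M A := by
      refine hρ A hA t ht.1 X hXP hXt q ?_ ?_ ?_
      · simp only [hq, if_true]
      · intro i _ hit hXi
        simp only [hq, if_neg hit]
        rw [if_pos (Finset.mem_filter.2 ⟨Finset.mem_univ i, hXi⟩)]
      · intro i _ hit hXi
        simp only [hq, if_neg hit]
        have hiS : i ∉ S := fun h => absurd (Finset.mem_filter.1 h).2 (not_le.2 hXi)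
        rw [if_neg hiS]
    set p : ι → ℝ := (1 - l) • X + l • q with hp
    have hpM : p ∈ M A := hMc A hA (hPM A hA hXP) hqM (by linarith) hl0.le (by ring)
    have hpi : ∀ i, p i = X i + l * (q i - X i) := by
      intro i
      simp only [hp, Pi.add_apply, Pi.smul_apply, smul_eq_mul]
      ring
    have hpt : p t = X t - l * η / 2 := by
      rw [hpi]
      simp only [hq, if_true]
      ring
    have hYt : Y t < p t := by
      have h1 := hYS t htS
      have h2 : 0 < l * η := by positivity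
      rw [hpt]
      linarith
    refine interior_of_lt (hMc A hA) (hM0 A hA) (hsol A hA) hpM (fun i _ => hY0 i) ?_
    intro i hi
    by_cases hit : i = t
    · rw [hit]
      exact hYt
    · rw [hpi]
      simp only [hq, if_neg hit]
      by_cases hiS : i ∈ S
      · rw [if_pos hiS, sub_self, mul_zero, add_zero]
        have h1 := hYS i hiS
        have h2 : 0 < κ₀ * (ε * a σ i) := mul_pos hκ₀0 (hεa0 i)
        linarith
      · rw [if_neg hiS, add_sub_cancel_left]
        have h1 := hdom i hi hit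
        have h2 := hYgen i
        have h3 : 0 < l * ρ := mul_pos hl0 hρ0
        linarith
  · push Not at hAS
    have hzM : (fun _ => 3 * η : ι → ℝ) ∈ M A := by
      apply hball2 A hA
      intro i
      rw [abs_of_pos (by positivity)]
    refine interior_of_lt (hMc A hA) (hM0 A hA) (hsol A hA) hzM (fun i _ => hY0 i) ?_
    intro i hi
    have h1 : X i < η := by
      by_contra hcon
      rw [not_lt] at hcon
      exact hAS i hi (Finset.mem_filter.2 ⟨Finset.mem_univ i, hcon⟩)
    have h2 := hYgen i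
    have h3 : D₀ * (ε * a σ i) ≤ η := by
      calc D₀ * (ε * a σ i) = (D₀ * ε) * a σ i := by ring
        _ = η * a σ i := by rw [hεD]
        _ ≤ η * 1 := mul_le_mul_of_nonneg_left (ha1 σ i) hη0.le
        _ = η := mul_one _
    linarith

end Pool.Agent.H665R3.Lam
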