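import Mathlib

set_option autoImplicit false

/-!
Sign patterns on a linearly ordered finite set and laminar families of order-connected blocks.
The *top* of a block `A` for a sign pattern `σ` is the last element of the first run of `σ` on `A`.
Every sign pattern on a nonempty set `S` of coordinates has an extension `σ` such that the top of
every block meeting `S` is in `S`.
-/

namespace Pool.Agent.H665R3.Lam

variable {ι : Type} [LinearOrder ι]

/-- `t` is the last element of the first run of `σ` on the block `A`. -/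
def IsTop (A : Finset ι) (σ : ι → Bool) (t : ι) : Prop :=
  t ∈ A ∧ (∀ j ∈ A, j ≤ t → σ j = σ t) ∧ ∀ i ∈ A, t < i → ∃ j ∈ A, j ≤ i ∧ σ j ≠ σ i

lemma exists_top {A : Finset ι} (hA : A.Nonempty) (σ : ι → Bool) : ∃ t, IsTop A σ t := by
  classical
  set F := A.filter (fun i => ∀ j ∈ A, j ≤ i → σ j = σ i) with hF
  have hne : F.Nonempty := by
    refine ⟨A.min' hA, Finset.mem_filter.2 ⟨A.min'_mem hA, ?_⟩⟩
    intro j hj hj2
    rw [le_antisymm hj2 (A.min'_le j hj)]
  refine ⟨F.max' hne, ?_, ?_, ?_⟩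
  · exact (Finset.mem_filter.1 (F.max'_mem hne)).1
  · exact (Finset.mem_filter.1 (F.max'_mem hne)).2
  · intro i hi hlt
    by_contra hcon
    push Not at hcon
    have : i ∈ F := Finset.mem_filter.2 ⟨hi, hcon⟩
    exact absurd (F.le_max' i this) (not_le.2 hlt)

lemma top_unique {A : Finset ι} {σ : ι → Bool} {t t' : ι} (h : IsTop A σ t) (h' : IsTop A σ t') :
    t = t' := by
  rcases lt_trichotomy t t' with hlt | heq | hlt
  · obtain ⟨j, hj, hj1, hj2⟩ := h.2.2 t' h'.1 hlt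
    exact absurd (h'.2.1 j hj hj1) hj2
  · exact heq
  · obtain ⟨j, hj, hj1, hj2⟩ := h'.2.2 t h.1 hlt
    exact absurd (h.2.1 j hj hj1) hj2

/-- `s'` is the first element of `S` after `j`. -/
def IsNext (S : Finset ι) (j s' : ι) : Prop := s' ∈ S ∧ j < s' ∧ ∀ u ∈ S, j < u → s' ≤ u

/-- `s` is the last element of `S` before `j`. -/
def IsPrev (S : Finset ι) (j s : ι) : Prop := s ∈ S ∧ s < j ∧ ∀ u ∈ S, u < j → u ≤ s

lemma exists_next {S : Finset ι} {j u : ι} (hu : u ∈ S) (hj : j < u) : ∃ s', IsNext S j s' := by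
  classical
  have hne : (S.filter (fun v => j < v)).Nonempty := ⟨u, Finset.mem_filter.2 ⟨hu, hj⟩⟩
  refine ⟨(S.filter (fun v => j < v)).min' hne, ?_, ?_, ?_⟩
  · exact (Finset.mem_filter.1 (Finset.min'_mem _ hne)).1
  · exact (Finset.mem_filter.1 (Finset.min'_mem _ hne)).2
  · intro v hv hv2
    exact Finset.min'_le _ _ (Finset.mem_filter.2 ⟨hv, hv2⟩)

lemma exists_prev {S : Finset ι} {j u : ι} (hu : u ∈ S) (hj : u < j) : ∃ s, IsPrev S j s := by
  classical
  have hne : (S.filter (fun v => v < j)).Nonempty := ⟨u, Finset.mem_filter.2 ⟨hu, hj⟩⟩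
  refine ⟨(S.filter (fun v => v < j)).max' hne, ?_, ?_, ?_⟩
  · exact (Finset.mem_filter.1 (Finset.max'_mem _ hne)).1
  · exact (Finset.mem_filter.1 (Finset.max'_mem _ hne)).2
  · intro v hv hv2
    exact Finset.le_max' _ _ (Finset.mem_filter.2 ⟨hv, hv2⟩)

lemma next_unique {S : Finset ι} {j s s' : ι} (h : IsNext S j s) (h' : IsNext S j s') : s = s' :=
  le_antisymm (h.2.2 s' h'.1 h'.2.1) (h'.2.2 s h.1 h.2.1)

lemma prev_unique {S : Finset ι} {j s s' : ι} (h : IsPrev S j s) (h' : IsPrev S j s') : s = s' :=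
  le_antisymm (h'.2.2 s h.1 h.2.1) (h.2.2 s' h'.1 h'.2.1)

/-- **The extension lemma.** -/
theorem exists_ext [Fintype ι] (𝒜 : Finset (Finset ι))
    (hint : ∀ A ∈ 𝒜, (A : Set ι).OrdConnected)
    (hlam : ∀ A ∈ 𝒜, ∀ B ∈ 𝒜, A ⊆ B ∨ B ⊆ A ∨ Disjoint A B)
    (S : Finset ι) (τ : ι → Bool) :
    ∃ σ : ι → Bool, (∀ i ∈ S, σ i = τ i) ∧
      ∀ A ∈ 𝒜, (∃ i ∈ A, i ∈ S) → ∀ t, IsTop A σ t → t ∈ S := by
  classical
  -- the condition for switching
  let cond : ι → Prop := fun j => ∃ s s', IsPrev S j s ∧ IsNext S j s' ∧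
    ∃ A ∈ 𝒜, s ∈ A ∧ j ∈ A ∧ s' ∉ A
  have hex : ∀ j, ∃ b : Bool, (j ∈ S → b = τ j) ∧
      (j ∉ S → cond j → ∀ s, IsPrev S j s → b = !τ s) ∧
      (j ∉ S → ¬ cond j → ∀ s', IsNext S j s' → b = τ s') ∧
      (j ∉ S → (¬ ∃ s', IsNext S j s') → ∀ s, IsPrev S j s → b = !τ s) := by
    intro j
    by_cases hj : j ∈ S
    · exact ⟨τ j, fun _ => rfl, fun h => absurd hj h, fun h => absurd hj h, fun h => absurd hj h⟩
    · by_cases hc : cond j
      · obtain ⟨s, s', hs, hs', -⟩ := id hc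
        refine ⟨!τ s, fun h => absurd h hj, ?_, fun _ h => absurd hc h, ?_⟩
        · intro _ _ u hu
          rw [prev_unique hs hu]
        · intro _ _ u hu
          rw [prev_unique hs hu]
      · by_cases hn : ∃ s', IsNext S j s'
        · obtain ⟨s', hs'⟩ := hn
          refine ⟨τ s', fun h => absurd h hj, fun _ h => absurd h hc, ?_, ?_⟩
          · intro _ _ u hu
            rw [next_unique hs' hu]
          · intro _ h
            exact absurd ⟨s', hs'⟩ h
        · by_cases hp : ∃ s, IsPrev S j s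
          · obtain ⟨s, hs⟩ := hp
            refine ⟨!τ s, fun h => absurd h hj, fun _ h => absurd h hc, ?_, ?_⟩
            · intro _ _ u hu
              exact absurd ⟨u, hu⟩ hn
            · intro _ _ u hu
              rw [prev_unique hs hu]
          · refine ⟨true, fun h => absurd h hj, fun _ h => absurd h hc, ?_, ?_⟩
            · intro _ _ u hu
              exact absurd ⟨u, hu⟩ hn
            · intro _ _ u hu
              exact absurd ⟨u, hu⟩ hp
  choose σ hσ1 hσ2 hσ3 hσ4 using hex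
  refine ⟨σ, hσ1, ?_⟩
  intro A hA hAS t ht
  -- the first element of `A ∩ S`
  have hne : (A ∩ S).Nonempty := by
    obtain ⟨i, hi, hi2⟩ := hAS
    exact ⟨i, Finset.mem_inter.2 ⟨hi, hi2⟩⟩
  set s₀ := (A ∩ S).min' hne with hs₀
  have hs₀A : s₀ ∈ A := (Finset.mem_inter.1 (Finset.min'_mem _ hne)).1
  have hs₀S : s₀ ∈ S := (Finset.mem_inter.1 (Finset.min'_mem _ hne)).2
  have hmin : ∀ u ∈ A, u ∈ S → s₀ ≤ u := fun u hu hu2 =>
    Finset.min'_le _ _ (Finset.mem_inter.2 ⟨hu, hu2⟩)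
  -- constant up to `s₀`
  have hconst : ∀ j ∈ A, j ≤ s₀ → σ j = σ s₀ := by
    intro j hj hj2
    rcases eq_or_lt_of_le hj2 with heq | hlt
    · rw [heq]
    have hjS : j ∉ S := fun h => absurd (hmin j hj h) (not_le.2 hlt)
    have hnext : IsNext S j s₀ := by
      refine ⟨hs₀S, hlt, ?_⟩
      intro u hu hu2
      by_contra hcon
      rw [not_le] at hcon
      have huA : u ∈ A := (hint A hA).out hj hs₀A ⟨hu2.le, hcon.le⟩
      exact absurd (hmin u huA hu) (not_le.2 hcon)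
    have hnc : ¬ cond j := by
      rintro ⟨s, s', hs, hs', B, hB, hsB, hjB, hs'B⟩
      rw [next_unique hs' hnext] at hs'B
      have hsA : s ∉ A := fun h => absurd (hmin s h hs.1) (not_le.2 (hs.2.1.trans hlt))
      rcases hlam A hA B hB with h | h | h
      · exact hs'B (h hs₀A)
      · exact hsA (h hsB)
      · exact (Finset.disjoint_left.1 h) hj hjB
    rw [hσ3 j hjS hnc s₀ hnext, hσ1 s₀ hs₀S]
  by_contra htS
  have hs₀t : s₀ < t := by
    by_contra hcon
    rw [not_lt] at hcon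
    have hne2 : t ≠ s₀ := fun h => htS (h ▸ hs₀S)
    obtain ⟨j, hj, hj1, hj2⟩ := ht.2.2 s₀ hs₀A (lt_of_le_of_ne hcon hne2)
    exact hj2 (hconst j hj hj1)
  obtain ⟨s, hs⟩ := exists_prev hs₀S hs₀t
  have hs₀s : s₀ ≤ s := hs.2.2 s₀ hs₀S hs₀t
  have hsA : s ∈ A := (hint A hA).out hs₀A ht.1 ⟨hs₀s, hs.2.1.le⟩
  have hσts : σ t = τ s := by
    rw [← ht.2.1 s hsA hs.2.1.le, hσ1 s hs.1]
  have hneg : σ t ≠ !τ s := by
    rw [hσts]
    cases τ s <;> simp
  have hnc : ¬ cond t := fun h => hneg (hσ2 t htS h s hs)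
  have hnx : ∃ s', IsNext S t s' := by
    by_contra hcon
    exact hneg (hσ4 t htS hcon s hs)
  obtain ⟨s', hs'⟩ := hnx
  have hσts' : σ t = τ s' := hσ3 t htS hnc s' hs'
  have hs'A : s' ∈ A := by
    by_contra hcon
    exact hnc ⟨s, s', hs, hs', A, hA, hsA, ht.1, hcon⟩
  -- the first element of `A` after `t`
  obtain ⟨j₀, hj₀⟩ := exists_next hs'A hs'.2.1
  have hj₀s' : j₀ ≤ s' := hj₀.2.2 s' hs'A hs'.2.1
  have hσj₀ : σ j₀ = σ t := by
    by_cases hj₀S : j₀ ∈ S
    · have : j₀ = s' := le_antisymm hj₀s' (hs'.2.2 j₀ hj₀S hj₀.2.1)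
      rw [this, hσ1 s' hs'.1, hσts']
    · have hprev : IsPrev S j₀ s := by
        refine ⟨hs.1, hs.2.1.trans hj₀.2.1, ?_⟩
        intro u hu hu2
        rcases lt_trichotomy u t with h | h | h
        · exact hs.2.2 u hu h
        · exact absurd (h ▸ hu) htS
        · exact absurd (hs'.2.2 u hu h) (not_le.2 (lt_of_lt_of_le hu2 hj₀s'))
      have hnext : IsNext S j₀ s' := by
        refine ⟨hs'.1, lt_of_le_of_ne hj₀s' (fun h => hj₀S (h ▸ hs'.1)), ?_⟩
        intro u hu hu2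
        exact hs'.2.2 u hu (hj₀.2.1.trans hu2)
      have hnc2 : ¬ cond j₀ := by
        rintro ⟨v, v', hv, hv', B, hB, hvB, hjB, hv'B⟩
        rw [prev_unique hv hprev] at hvB
        rw [next_unique hv' hnext] at hv'B
        refine hnc ⟨s, s', hs, hs', B, hB, hvB, ?_, hv'B⟩
        exact (hint B hB).out hvB hjB ⟨hs.2.1.le, hj₀.2.1.le⟩
      rw [hσ3 j₀ hj₀S hnc2 s' hnext, hσts']
  obtain ⟨j, hj, hj1, hj2⟩ := ht.2.2 j₀ hj₀.1 hj₀.2.1
  apply hj2
  rw [hσj₀]
  rcases le_or_gt j t with h | h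
  · exact ht.2.1 j hj h
  · have : j = j₀ := le_antisymm hj1 (hj₀.2.2 j hj h)
    rw [this, hσj₀]

/-- The size of the largest block with top `i`. -/
noncomputable def height (𝒜 : Finset (Finset ι)) (σ : ι → Bool) (i : ι) : ℕ := by
  classical
  exact (𝒜.filter (fun A => IsTop A σ i)).sup Finset.card

lemma height_le [Fintype ι] (𝒜 : Finset (Finset ι)) (σ : ι → Bool) (i : ι) :
    height 𝒜 σ i ≤ Fintype.card ι := by
  classical
  unfold height
  exact Finset.sup_le fun A _ => Finset.card_le_univ A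

lemma card_le_height {𝒜 : Finset (Finset ι)} {σ : ι → Bool} {A : Finset ι} {t : ι} (hA : A ∈ 𝒜)
    (ht : IsTop A σ t) : A.card ≤ height 𝒜 σ t := by
  classical
  unfold height
  exact Finset.le_sup (f := Finset.card) (Finset.mem_filter.2 ⟨hA, ht⟩)

lemma height_lt {𝒜 : Finset (Finset ι)}
    (hint : ∀ A ∈ 𝒜, (A : Set ι).OrdConnected)
    (hlam : ∀ A ∈ 𝒜, ∀ B ∈ 𝒜, A ⊆ B ∨ B ⊆ A ∨ Disjoint A B)
    {σ : ι → Bool} {A : Finset ι} {t i : ι} (hA : A ∈ 𝒜)
    (ht : IsTop A σ t) (hi : i ∈ A) (hit : i ≠ t) : height 𝒜 σ i < height 𝒜 σ t := by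
  classical
  refine lt_of_lt_of_le ?_ (card_le_height hA ht)
  have hApos : 0 < A.card := Finset.card_pos.2 ⟨i, hi⟩
  unfold height
  rw [Finset.sup_lt_iff (by simpa using hApos)]
  intro B hB
  obtain ⟨hB, hBi⟩ := Finset.mem_filter.1 hB
  by_contra hcon
  rw [not_lt] at hcon
  have hAB : A ⊆ B := by
    rcases hlam A hA B hB with h | h | h
    · exact h
    · rw [Finset.eq_of_subset_of_card_le h hcon]
    · exact absurd hBi.1 (Finset.disjoint_left.1 h hi)
  apply hit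
  refine top_unique (A := A) (σ := σ) ⟨hi, fun j hj hj2 => hBi.2.1 j (hAB hj) hj2, ?_⟩ ht
  intro k hk hk2
  by_cases hσ : σ i = σ k
  · obtain ⟨j, hj, hj1, hj2⟩ := hBi.2.2 k (hAB hk) hk2
    refine ⟨j, ?_, hj1, hj2⟩
    have hij : i < j := by
      by_contra hc
      rw [not_lt] at hc
      exact hj2 ((hBi.2.1 j hj hc).trans hσ)
    exact (hint A hA).out hi hk ⟨hij.le, hj1⟩
  · exact ⟨i, hi, hk2.le, hσ⟩

end Pool.Agent.H665R3.Lam
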