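import Mathlib

set_option autoImplicit false

/-! # Subspaces on which low-degree polynomials in several vector variables are constant -/

namespace Pool.Agent.H665R3.PolyCol

open MvPolynomial

variable {K : Type} [Field K] {r m j : ℕ}

/-- Substitution: the `i`-th vector variable is the combination of the `L a` with coefficients the
new variables `X (i, a)`. -/
noncomputable def subst (L : Fin j → (Fin m → K)) :
    MvPolynomial (Fin r × Fin m) K →ₐ[K] MvPolynomial (Fin r × Fin j) K :=
  aeval (fun z => ∑ a : Fin j, C (L a z.2) * X (z.1, a))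

/-- The same with one more vector, whose coordinates are indeterminates. -/
noncomputable def usubst (L : Fin j → (Fin m → K)) :
    MvPolynomial (Fin r × Fin m) K →ₐ[K]
      MvPolynomial (Fin r × Fin (j + 1)) (MvPolynomial (Fin m) K) :=
  aeval (fun z => (∑ a : Fin j, C (C (L a z.2)) * X (z.1, a.castSucc)) +
    C (X z.2) * X (z.1, Fin.last j))

/-- multiplicity of the new vector in an exponent -/
def nu (μ : (Fin r × Fin (j + 1)) →₀ ℕ) : ℕ := ∑ i : Fin r, μ (i, Fin.last j)

lemma nu_add (μ ν : (Fin r × Fin (j + 1)) →₀ ℕ) : nu (μ + ν) = nu μ + nu ν := by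
  simp [nu, Finset.sum_add_distrib]

lemma map_usubst (L : Fin j → (Fin m → K)) (v : Fin m → K)
    (P : MvPolynomial (Fin r × Fin m) K) :
    MvPolynomial.map (eval v) (usubst L P) = subst (Fin.snoc L v : Fin (j + 1) → (Fin m → K)) P := by
  induction P using MvPolynomial.induction_on with
  | C a =>
    simp only [usubst, subst, aeval_C, MvPolynomial.algebraMap_apply, map_C, eval_C,
      MvPolynomial.algebraMap_eq]
  | add p q hp hq => simp only [map_add, hp, hq]
  | mul_X p z hp =>
    rw [map_mul, map_mul, map_mul, hp]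
    congr 1
    simp only [usubst, subst, aeval_X, map_add, map_sum, map_mul, map_C, map_X, eval_C, eval_X]
    rw [Fin.sum_univ_castSucc]
    simp

lemma subst_zero (L : Fin j → (Fin m → K)) (P : MvPolynomial (Fin r × Fin m) K) :
    subst (Fin.snoc L 0 : Fin (j + 1) → (Fin m → K)) P =
      rename (fun z : Fin r × Fin j => (z.1, z.2.castSucc)) (subst L P) := by
  induction P using MvPolynomial.induction_on with
  | C a => simp [subst]
  | add p q hp hq => simp only [map_add, hp, hq]
  | mul_X p z hp =>
    rw [map_mul, map_mul, map_mul, hp]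
    congr 1
    simp only [subst, aeval_X, map_sum, map_mul, rename_C, rename_X]
    rw [Fin.sum_univ_castSucc]
    simp

/-- coefficients have degree at most the multiplicity of the new vector -/
def Good (Q : MvPolynomial (Fin r × Fin (j + 1)) (MvPolynomial (Fin m) K)) : Prop :=
  ∀ μ, (coeff μ Q).totalDegree ≤ nu μ

lemma Good.add {Q R : MvPolynomial (Fin r × Fin (j + 1)) (MvPolynomial (Fin m) K)}
    (hQ : Good Q) (hR : Good R) : Good (Q + R) := by
  intro μ
  rw [coeff_add]
  exact (totalDegree_add _ _).trans (max_le (hQ μ) (hR μ))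

lemma Good.mul {Q R : MvPolynomial (Fin r × Fin (j + 1)) (MvPolynomial (Fin m) K)}
    (hQ : Good Q) (hR : Good R) : Good (Q * R) := by
  classical
  intro μ
  rw [coeff_mul]
  apply totalDegree_finsetSum_le
  intro x hx
  have h := Finset.HasAntidiagonal.mem_antidiagonal.1 hx
  refine (totalDegree_mul _ _).trans ?_
  rw [← h, nu_add]
  exact Nat.add_le_add (hQ _) (hR _)

lemma Good.zero : Good (0 : MvPolynomial (Fin r × Fin (j + 1)) (MvPolynomial (Fin m) K)) := by
  intro μ
  simp

lemma Good.sum {ι : Type} (s : Finset ι)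
    (f : ι → MvPolynomial (Fin r × Fin (j + 1)) (MvPolynomial (Fin m) K))
    (h : ∀ i ∈ s, Good (f i)) : Good (∑ i ∈ s, f i) := by
  classical
  induction s using Finset.induction_on with
  | empty => simpa using Good.zero
  | insert a s ha ih =>
    rw [Finset.sum_insert ha]
    exact (h a (Finset.mem_insert_self _ _)).add (ih fun i hi => h i (Finset.mem_insert_of_mem hi))

lemma Good.CC (a : K) :
    Good (C (C a) : MvPolynomial (Fin r × Fin (j + 1)) (MvPolynomial (Fin m) K)) := by
  classical
  intro μ
  rw [coeff_C]
  split_ifs <;> simp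

lemma Good.X_castSucc (i : Fin r) (a : Fin j) :
    Good (X (i, a.castSucc) : MvPolynomial (Fin r × Fin (j + 1)) (MvPolynomial (Fin m) K)) := by
  classical
  intro μ
  rw [coeff_X]
  split_ifs <;> simp

lemma Good.new (i : Fin r) (b : Fin m) :
    Good (C (X b) * X (i, Fin.last j) :
      MvPolynomial (Fin r × Fin (j + 1)) (MvPolynomial (Fin m) K)) := by
  classical
  intro μ
  rw [coeff_C_mul, coeff_X]
  split_ifs with h
  · rw [mul_one, totalDegree_X, ← h, nu]
    refine le_trans ?_ (Finset.single_le_sum (fun _ _ => Nat.zero_le _) (Finset.mem_univ i))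
    simp
  · simp

lemma good_usubst (L : Fin j → (Fin m → K)) (P : MvPolynomial (Fin r × Fin m) K) :
    Good (usubst L P) := by
  induction P using MvPolynomial.induction_on with
  | C a =>
    simp only [usubst, aeval_C, MvPolynomial.algebraMap_apply, MvPolynomial.algebraMap_eq]
    exact Good.CC a
  | add p q hp hq =>
    rw [map_add]
    exact hp.add hq
  | mul_X p z hp =>
    rw [map_mul]
    refine hp.mul ?_
    simp only [usubst, aeval_X]
    exact (Good.sum _ _ fun a _ => (Good.CC _).mul (Good.X_castSucc _ _)).add (Good.new _ _)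

lemma totalDegree_usubst_le (L : Fin j → (Fin m → K)) (P : MvPolynomial (Fin r × Fin m) K) :
    (usubst L P).totalDegree ≤ P.totalDegree := by
  classical
  have h1 : ∀ z : Fin r × Fin m, ((∑ a : Fin j, C (C (L a z.2)) * X (z.1, a.castSucc)) +
      C (X z.2) * X (z.1, Fin.last j) :
        MvPolynomial (Fin r × Fin (j + 1)) (MvPolynomial (Fin m) K)).totalDegree ≤ 1 := by
    intro z
    refine (totalDegree_add _ _).trans (max_le ?_ ?_)
    · apply totalDegree_finsetSum_le
      intro a _
      refine (totalDegree_mul _ _).trans ?_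
      simp
    · refine (totalDegree_mul _ _).trans ?_
      simp
  rw [usubst, aeval_def, eval₂_eq]
  apply totalDegree_finsetSum_le
  intro d hd
  refine (totalDegree_mul _ _).trans ?_
  have h2 : ((algebraMap K (MvPolynomial (Fin r × Fin (j + 1)) (MvPolynomial (Fin m) K)))
      (coeff d P)).totalDegree = 0 := by
    rw [MvPolynomial.algebraMap_apply]
    simp
  rw [h2, zero_add]
  refine (totalDegree_finsetProd _ _).trans ?_
  refine le_trans (Finset.sum_le_sum fun i _ => (totalDegree_pow _ _).trans
    (Nat.mul_le_mul_left _ (h1 i))) ?_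
  simp only [mul_one]
  exact le_totalDegree hd


/-! ## Exponents involving the new vector -/

/-- all exponents of degree at most `t + 1` involving the new vector, with repetitions -/
noncomputable def expo {t : ℕ} (i : Fin r) (S : Sym (Option (Fin r × Fin (j + 1))) t) :
    (Fin r × Fin (j + 1)) →₀ ℕ := by
  classical
  exact Finsupp.equivFunOnFinite.symm
    (fun z => (S : Multiset (Option (Fin r × Fin (j + 1)))).count (some z) +
      if z = (i, Fin.last j) then 1 else 0)

lemma expo_apply {t : ℕ} (i : Fin r) (S : Sym (Option (Fin r × Fin (j + 1))) t)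
    (z : Fin r × Fin (j + 1)) : expo i S z =
      (S : Multiset (Option (Fin r × Fin (j + 1)))).count (some z) +
        if z = (i, Fin.last j) then 1 else 0 := by
  classical
  simp [expo]

lemma expo_ne_zero {t : ℕ} (i : Fin r) (S : Sym (Option (Fin r × Fin (j + 1))) t) :
    expo i S ≠ 0 := by
  intro h
  have h1 := expo_apply i S (i, Fin.last j)
  rw [h] at h1
  simp at h1

lemma exists_expo {D : ℕ} (μ : (Fin r × Fin (j + 1)) →₀ ℕ) (h1 : μ.degree ≤ D)
    (h2 : 1 ≤ nu μ) : ∃ (i : Fin r) (S : Sym (Option (Fin r × Fin (j + 1))) (D - 1)),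
      expo i S = μ := by
  classical
  obtain ⟨i, hi⟩ : ∃ i : Fin r, 1 ≤ μ (i, Fin.last j) := by
    by_contra hcon
    push Not at hcon
    have : nu μ = 0 := Finset.sum_eq_zero fun i _ => by
      have := hcon i
      omega
    omega
  set e : (Fin r × Fin (j + 1)) →₀ ℕ := Finsupp.single (i, Fin.last j) 1 with he
  have hle : e ≤ μ := by
    rw [he, Finsupp.single_le_iff]
    exact hi
  set μ' := μ - e with hμ'
  have hadd : μ' + e = μ := tsub_add_cancel_of_le hle
  have hdeg : μ'.degree + 1 = μ.degree := by
    rw [← hadd, map_add]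
    congr 1
    simp [he]
  have hcard : Multiset.card ((Finsupp.toMultiset μ').map some +
      Multiset.replicate (D - 1 - μ'.degree) (none : Option (Fin r × Fin (j + 1)))) = D - 1 := by
    rw [Multiset.card_add, Multiset.card_map, Multiset.card_replicate, Finsupp.card_toMultiset]
    have h3 : (μ'.sum fun _ => id) = μ'.degree := rfl
    rw [h3]
    omega
  refine ⟨i, Sym.mk _ hcard, ?_⟩
  ext z
  rw [expo_apply]
  simp only [Sym.coe_mk]
  rw [Multiset.count_add, Multiset.count_map_eq_count' _ _ (Option.some_injective _),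
    Finsupp.count_toMultiset, Multiset.count_replicate, if_neg (by simp)]
  rw [← hadd, Finsupp.add_apply, he, Finsupp.single_apply]
  simp only [add_zero, Nat.add_right_inj]
  by_cases h : z = (i, Fin.last j)
  · rw [if_pos h, if_pos h.symm]
  · rw [if_neg h, if_neg (fun h' => h h'.symm)]

/-! ## One step -/

lemma step {s D : ℕ} [Fintype K] (P : Fin s → MvPolynomial (Fin r × Fin m) K)
    (hD : ∀ l, (P l).totalDegree ≤ D) (L : Fin j → (Fin m → K)) (hL : LinearIndependent K L)
    (c : Fin s → K) (hc : ∀ l, subst L (P l) = C (c l))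
    (hm : s * r * D * ((r * (j + 1) + (D - 1)).choose (D - 1)) + j < m) :
    ∃ v : Fin m → K, LinearIndependent K (Fin.snoc L v : Fin (j + 1) → (Fin m → K)) ∧
      ∀ l, subst (Fin.snoc L v : Fin (j + 1) → (Fin m → K)) (P l) = C (c l) := by
  classical
  obtain ⟨p, hp⟩ := CharP.exists K
  have hpp : p.Prime := CharP.char_is_prime K p
  -- a left inverse of the parametrisation
  have hinj : Function.Injective (Fintype.linearCombination K L) :=
    linearIndependent_iff_injective_fintypeLinearCombination.1 hL
  obtain ⟨g, hg⟩ := LinearMap.exists_leftInverse_of_injective (Fintype.linearCombination K L)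
    (LinearMap.ker_eq_bot.2 hinj)
  -- the system
  let F : Fin j ⊕ (Fin s × Fin r × Sym (Option (Fin r × Fin (j + 1))) (D - 1)) →
      MvPolynomial (Fin m) K := fun q => match q with
    | Sum.inl a => ∑ b : Fin m, C (g (Pi.single b 1) a) * X b
    | Sum.inr (l, i, S) => coeff (expo i S) (usubst L (P l))
  have hF1 : ∀ a, (F (Sum.inl a)).totalDegree ≤ 1 := by
    intro a
    apply totalDegree_finsetSum_le
    intro b _
    refine (totalDegree_mul _ _).trans ?_
    simp
  have hF2 : ∀ x, (F (Sum.inr x)).totalDegree ≤ D := by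
    rintro ⟨l, i, S⟩
    change (coeff (expo i S) (usubst L (P l))).totalDegree ≤ D
    by_cases h : (expo i S).degree ≤ D
    · refine (good_usubst L (P l) _).trans (le_trans ?_ h)
      rw [nu, Finsupp.degree_eq_sum, ← Finset.univ_product_univ, Finset.sum_product]
      apply Finset.sum_le_sum
      intro i' _
      exact Finset.single_le_sum (f := fun x => (expo i S) (i', x)) (fun _ _ => Nat.zero_le _)
        (Finset.mem_univ (Fin.last j))
    · have : coeff (expo i S) (usubst L (P l)) = 0 := by
        apply coeff_eq_zero_of_totalDegree_lt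
        have h3 := (totalDegree_usubst_le L (P l)).trans (hD l)
        have h4 : (expo i S).degree = ∑ z ∈ (expo i S).support, (expo i S) z := rfl
        omega
      rw [this]
      simp
  have hsum : (∑ q ∈ (Finset.univ : Finset (Fin j ⊕ (Fin s × Fin r ×
      Sym (Option (Fin r × Fin (j + 1))) (D - 1)))), (F q).totalDegree) < Fintype.card (Fin m) := by
    rw [Fintype.sum_sum_type, Fintype.card_fin]
    have h1 : ∑ a : Fin j, (F (Sum.inl a)).totalDegree ≤ j := by
      refine (Finset.sum_le_sum fun a _ => hF1 a).trans ?_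
      simp
    have h2 : ∑ x : (Fin s × Fin r × Sym (Option (Fin r × Fin (j + 1))) (D - 1)),
        (F (Sum.inr x)).totalDegree ≤ s * r * D * ((r * (j + 1) + (D - 1)).choose (D - 1)) := by
      refine (Finset.sum_le_sum fun a _ => hF2 a).trans ?_
      rw [Finset.sum_const, Finset.card_univ, Fintype.card_prod, Fintype.card_prod,
        Fintype.card_fin, Fintype.card_fin, Sym.card_sym_eq_multichoose, Nat.multichoose_eq]
      have h3 : Fintype.card (Option (Fin r × Fin (j + 1))) + (D - 1) - 1 =
          r * (j + 1) + (D - 1) := by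
        rw [Fintype.card_option, Fintype.card_prod, Fintype.card_fin, Fintype.card_fin]
        omega
      rw [h3, smul_eq_mul]
      apply le_of_eq
      ring
    omega
  have hdvd := char_dvd_card_solutions_of_sum_lt (K := K) p (s := Finset.univ) (f := F) hsum
  -- value at zero
  have hz : ∀ l μ, eval 0 (coeff μ (usubst L (P l))) = coeff μ (C (c l) :
      MvPolynomial (Fin r × Fin (j + 1)) K) := by
    intro l μ
    rw [← coeff_map, map_usubst, subst_zero, hc l, rename_C]
  have hzero : ∀ q ∈ (Finset.univ : Finset _), eval (0 : Fin m → K) (F q) = 0 := by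
    rintro (a | ⟨l, i, S⟩) _
    · change eval (0 : Fin m → K) (∑ b : Fin m, C (g (Pi.single b 1) a) * X b) = 0
      simp
    · change eval (0 : Fin m → K) (coeff (expo i S) (usubst L (P l))) = 0
      rw [hz, coeff_C, if_neg (fun h => expo_ne_zero i S h.symm)]
  have hdvd2 : p ∣ Nat.card {x : Fin m → K // ∀ q ∈ (Finset.univ : Finset _),
      eval x (F q) = 0} := by
    convert hdvd using 1
    exact @Nat.card_eq_fintype_card _ (_)
  have hne0 : Nonempty {x : Fin m → K // ∀ q ∈ (Finset.univ : Finset _), eval x (F q) = 0} :=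
    ⟨⟨0, hzero⟩⟩
  have hone : 1 < Nat.card {x : Fin m → K // ∀ q ∈ (Finset.univ : Finset _),
      eval x (F q) = 0} :=
    lt_of_lt_of_le hpp.one_lt (Nat.le_of_dvd Nat.card_pos hdvd2)
  have := Finite.one_lt_card_iff_nontrivial.1 hone
  obtain ⟨⟨v, hv⟩, hvne⟩ := exists_ne (⟨0, hzero⟩ : {x : Fin m → K // ∀ q ∈
    (Finset.univ : Finset _), eval x (F q) = 0})
  have hv0 : v ≠ 0 := fun h => hvne (Subtype.ext h)
  have hgv : g v = 0 := by
    funext a
    have h1 := hv (Sum.inl a) (Finset.mem_univ _)
    change eval v (∑ b : Fin m, C (g (Pi.single b 1) a) * X b) = 0 at h1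
    have h2 : v = ∑ b : Fin m, v b • (Pi.single b 1 : Fin m → K) := by
      funext b
      simp [Finset.sum_apply, Pi.single_apply]
    rw [h2, map_sum, Finset.sum_apply]
    simp only [map_smul, Pi.smul_apply, smul_eq_mul, Pi.zero_apply]
    simp only [map_sum, map_mul, eval_C, eval_X] at h1
    rw [← h1]
    exact Finset.sum_congr rfl fun b _ => mul_comm _ _
  refine ⟨v, linearIndependent_finSnoc.2 ⟨hL, ?_⟩, ?_⟩
  · intro hmem
    rw [← Fintype.range_linearCombination] at hmem
    obtain ⟨t, ht⟩ := hmem
    have h1 : g v = t := by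
      rw [← ht]
      exact LinearMap.congr_fun hg t
    apply hv0
    rw [← ht, ← h1, hgv, map_zero]
  · intro l
    rw [← map_usubst]
    ext μ
    rw [coeff_map]
    by_cases h0 : nu μ = 0
    · have h1 : (coeff μ (usubst L (P l))).totalDegree = 0 :=
        Nat.le_zero.1 (h0 ▸ good_usubst L (P l) μ)
      rw [← hz l μ, totalDegree_eq_zero_iff_eq_C.1 h1, eval_C, eval_C]
    · have hμ : μ ≠ 0 := by
        rintro rfl
        exact h0 (by simp [nu])
      rw [coeff_C, if_neg (fun h => hμ h.symm)]
      by_cases h1 : μ.degree ≤ D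
      · obtain ⟨i, S, rfl⟩ := exists_expo μ h1 (Nat.one_le_iff_ne_zero.2 h0)
        exact hv (Sum.inr (l, i, S)) (Finset.mem_univ _)
      · have : coeff μ (usubst L (P l)) = 0 := by
          apply coeff_eq_zero_of_totalDegree_lt
          have h3 := (totalDegree_usubst_le L (P l)).trans (hD l)
          have h4 : μ.degree = ∑ z ∈ μ.support, μ z := rfl
          omega
        rw [this, map_zero]

/-! ## The subspace -/

lemma exists_vectors {s D d : ℕ} [Fintype K] (P : Fin s → MvPolynomial (Fin r × Fin m) K)
    (hD : ∀ l, (P l).totalDegree ≤ D)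
    (hm : s * r * D * ((r * d + (D - 1)).choose (D - 1)) + d ≤ m) :
    ∃ L : Fin d → (Fin m → K), LinearIndependent K L ∧
      ∀ l, subst L (P l) = C (constantCoeff (P l)) := by
  have key : ∀ j : ℕ, j ≤ d → ∃ L : Fin j → (Fin m → K), LinearIndependent K L ∧
      ∀ l, subst L (P l) = C (constantCoeff (P l)) := by
    intro j
    induction j with
    | zero =>
      intro _
      refine ⟨Fin.elim0, linearIndependent_empty_type, fun l => ?_⟩
      have : (fun z : Fin r × Fin m => ∑ a : Fin 0,
          (C ((Fin.elim0 : Fin 0 → (Fin m → K)) a z.2) * X (z.1, a) :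
            MvPolynomial (Fin r × Fin 0) K)) = 0 := by
        funext z
        simp
      rw [subst, this, aeval_zero, MvPolynomial.algebraMap_eq]
    | succ j ih =>
      intro hj
      obtain ⟨L, hL, hc⟩ := ih (by omega)
      obtain ⟨v, hv1, hv2⟩ := step P hD L hL (fun l => constantCoeff (P l)) hc (by
        have h1 : (r * (j + 1) + (D - 1)).choose (D - 1) ≤ (r * d + (D - 1)).choose (D - 1) :=
          Nat.choose_le_choose _ (Nat.add_le_add_right (Nat.mul_le_mul_left _ hj) _)
        have h2 := Nat.mul_le_mul_left (s * r * D) h1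
        omega)
      exact ⟨_, hv1, hv2⟩
  exact key d le_rfl

lemma eval_subst (L : Fin j → (Fin m → K)) (t : Fin r × Fin j → K)
    (P : MvPolynomial (Fin r × Fin m) K) :
    eval t (subst L P) = eval (fun z : Fin r × Fin m => ∑ a : Fin j, L a z.2 * t (z.1, a)) P := by
  induction P using MvPolynomial.induction_on with
  | C a => simp [subst]
  | add p q hp hq => simp only [map_add, hp, hq]
  | mul_X p z hp =>
    rw [map_mul, map_mul, map_mul, hp]
    congr 1
    simp [subst]

/-- A subspace of dimension `d` on which all polynomials are constant (as functions of `r` vectors of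
the subspace). -/
theorem exists_subspace {s D d : ℕ} [Fintype K] (P : Fin s → MvPolynomial (Fin r × Fin m) K)
    (hD : ∀ l, (P l).totalDegree ≤ D)
    (hm : s * r * D * ((r * d + (D - 1)).choose (D - 1)) + d ≤ m) :
    ∃ V : Submodule K (Fin m → K), Module.finrank K V = d ∧
      ∀ x : Fin r → (Fin m → K), (∀ i, x i ∈ V) → ∀ l,
        eval (fun z : Fin r × Fin m => x z.1 z.2) (P l) = constantCoeff (P l) := by
  obtain ⟨L, hL, hc⟩ := exists_vectors P hD hm
  refine ⟨Submodule.span K (Set.range L), ?_, ?_⟩
  · rw [finrank_span_eq_card hL, Fintype.card_fin]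
  · intro x hx l
    have h1 : ∀ i, ∃ t : Fin d → K, Fintype.linearCombination K L t = x i := by
      intro i
      have := hx i
      rw [← Fintype.range_linearCombination] at this
      exact this
    choose t ht using h1
    have h2 := eval_subst L (fun z => t z.1 z.2) (P l)
    rw [hc l, eval_C] at h2
    rw [h2]
    congr 1
    congr 1
    funext z
    rw [← ht z.1, Fintype.linearCombination_apply, Finset.sum_apply]
    exact Finset.sum_congr rfl fun a _ => by simp [mul_comm]

end Pool.Agent.H665R3.PolyCol
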