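import Mathlib

set_option autoImplicit false

/-! # Estimates for the Ramsey numbers of polynomial colourings -/

namespace Pool.Agent.H665R3.PolyColEst

open Real

lemma choose_le_exp (N t : ℕ) (x : ℝ) (hx : 0 < x) :
    (N.choose t : ℝ) ≤ (1 + x) ^ N * (1 / x) ^ t := by
  have h1 : (N.choose t : ℝ) * x ^ t ≤ (1 + x) ^ N := by
    rcases le_or_gt t N with h | h
    · rw [add_comm 1 x, add_pow]
      simp only [one_pow, mul_one]
      refine le_trans (le_of_eq (mul_comm _ _)) (Finset.single_le_sum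
        (f := fun k => x ^ k * (N.choose k : ℝ)) (fun i _ => by positivity)
        (Finset.mem_range.2 (Nat.lt_succ_of_le h)))
    · rw [Nat.choose_eq_zero_of_lt h]
      simp only [Nat.cast_zero, zero_mul]
      positivity
  have h2 : (N.choose t : ℝ) = (N.choose t : ℝ) * x ^ t * (1 / x) ^ t := by
    rw [mul_assoc, ← mul_pow, mul_one_div_cancel hx.ne', one_pow, mul_one]
  rw [h2]
  exact mul_le_mul_of_nonneg_right h1 (by positivity)

lemma log_two_ge : (1 : ℝ) / 2 ≤ Real.log 2 := by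
  have := Real.log_two_gt_d9
  linarith

lemma log_ge (k : ℕ) (hk : 2 ≤ k) : (1 : ℝ) / 2 ≤ Real.log k :=
  log_two_ge.trans (Real.log_le_log (by norm_num) (by exact_mod_cast hk))

lemma clog_le (k : ℕ) (hk : 2 ≤ k) : (Nat.clog 2 k : ℝ) ≤ 3 * Real.log k := by
  have h1 : 2 ^ (Nat.clog 2 k).pred < k := Nat.pow_pred_clog_lt_self (by norm_num) (by omega)
  have hpos : 0 < Nat.clog 2 k := Nat.clog_pos (by norm_num) hk
  have h2 : ((2 : ℝ)) ^ (Nat.clog 2 k).pred ≤ k := by exact_mod_cast h1.le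
  have h3 : ((Nat.clog 2 k).pred : ℝ) * Real.log 2 ≤ Real.log k := by
    rw [← Real.log_pow]
    exact Real.log_le_log (by positivity) h2
  have h4 : ((Nat.clog 2 k).pred : ℝ) = (Nat.clog 2 k : ℝ) - 1 := by
    rw [Nat.pred_eq_sub_one, Nat.cast_sub hpos, Nat.cast_one]
  rw [h4] at h3
  have h5 : Real.log 2 ≤ Real.log k := Real.log_le_log (by norm_num) (by exact_mod_cast hk)
  have h6 := Real.log_two_gt_d9
  nlinarith

/-- fixed degree -/
lemma fixed (r s D : ℕ) (hD : 2 ≤ D) : ∃ A : ℝ, 0 < A ∧ ∀ k m : ℕ, 2 ≤ k →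
    A * Real.log k ^ (D - 1) ≤ m →
    s * r * D * ((r * Nat.clog 2 k + (D - 1)).choose (D - 1)) + Nat.clog 2 k ≤ m := by
  refine ⟨(s * r * D : ℝ) * (3 * r + 2 * D) ^ (D - 1) + 3 * 2 ^ D, by positivity, ?_⟩
  intro k m hk hm
  have hL := log_ge k hk
  set Lk := Real.log k with hLk
  have hL0 : 0 < Lk := by linarith
  have hc := clog_le k hk
  have h1 : ((r * Nat.clog 2 k + (D - 1) : ℕ) : ℝ) ≤ (3 * r + 2 * D) * Lk := by
    have h2 : ((D - 1 : ℕ) : ℝ) ≤ D := by exact_mod_cast Nat.sub_le _ _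
    push_cast
    have h3 : (r : ℝ) * Nat.clog 2 k ≤ r * (3 * Lk) := mul_le_mul_of_nonneg_left hc (by positivity)
    have h4 : (D : ℝ) ≤ 2 * D * Lk := by
      have : (0 : ℝ) ≤ D := by positivity
      nlinarith
    nlinarith
  have h5 : ((r * Nat.clog 2 k + (D - 1)).choose (D - 1) : ℝ) ≤
      (3 * r + 2 * D) ^ (D - 1) * Lk ^ (D - 1) := by
    rw [← mul_pow]
    refine le_trans ?_ (pow_le_pow_left₀ (by positivity) h1 _)
    exact_mod_cast Nat.choose_le_pow _ _
  have h6 : (Nat.clog 2 k : ℝ) ≤ 3 * 2 ^ D * Lk ^ (D - 1) := by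
    refine hc.trans ?_
    have h7 : Lk ≤ 2 ^ D * Lk ^ (D - 1) := by
      obtain ⟨e, rfl⟩ : ∃ e, D = e + 2 := ⟨D - 2, by omega⟩
      have h8 : (1 : ℝ) ≤ (2 * Lk) ^ e := one_le_pow₀ (by linarith)
      have h9 : (2 : ℝ) ^ (e + 2) * Lk ^ (e + 2 - 1) = 4 * ((2 * Lk) ^ e * Lk) := by
        rw [show e + 2 - 1 = e + 1 by omega, mul_pow]
        ring
      rw [h9]
      nlinarith
    nlinarith
  have h10 : ((s * r * D * ((r * Nat.clog 2 k + (D - 1)).choose (D - 1)) + Nat.clog 2 k : ℕ) : ℝ) ≤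
      m := by
    push_cast
    refine le_trans ?_ hm
    have h11 : (s : ℝ) * r * D * ((r * Nat.clog 2 k + (D - 1)).choose (D - 1) : ℕ) ≤
        s * r * D * ((3 * r + 2 * D) ^ (D - 1) * Lk ^ (D - 1)) :=
      mul_le_mul_of_nonneg_left h5 (by positivity)
    nlinarith
  exact_mod_cast h10

/-- the threshold: degree `o(log k)` -/
lemma threshold (r : ℕ) (ε : ℝ) (hε : 0 < ε) : ∃ δ : ℝ, 0 < δ ∧ ∃ k₀ : ℕ, ∀ k : ℕ, k₀ ≤ k →
    ∀ s D m : ℕ, (D : ℝ) ≤ δ * Real.log k → (s : ℝ) ≤ (k : ℝ) ^ δ → (k : ℝ) ^ ε ≤ m →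
    2 ≤ k ∧
    s * r * D * ((r * Nat.clog 2 k + (D - 1)).choose (D - 1)) + Nat.clog 2 k ≤ m := by
  -- parameters
  set x : ℝ := min 1 (ε / (8 * (3 * r + 1))) with hx
  have hr0 : (0 : ℝ) < 3 * r + 1 := by positivity
  have hx0 : 0 < x := lt_min one_pos (by positivity)
  have hx1 : x ≤ 1 := min_le_left _ _
  have hx2 : x * (3 * r + 1) ≤ ε / 8 := by
    have : x ≤ ε / (8 * (3 * r + 1)) := min_le_right _ _
    calc x * (3 * r + 1) ≤ ε / (8 * (3 * r + 1)) * (3 * r + 1) :=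
          mul_le_mul_of_nonneg_right this hr0.le
      _ = ε / 8 := by field_simp
  have hlx : 0 ≤ Real.log (1 / x) := Real.log_nonneg (by rw [le_div_iff₀ hx0]; linarith)
  set δ : ℝ := min 1 (min (ε / 8) (ε / (8 * (Real.log (1 / x) + 1)))) with hδ
  have hδ0 : 0 < δ := lt_min one_pos (lt_min (by positivity) (by positivity))
  have hδ1 : δ ≤ 1 := min_le_left _ _
  have hδ2 : δ ≤ ε / 8 := (min_le_right _ _).trans (min_le_left _ _)
  have hδ3 : δ * Real.log (1 / x) ≤ ε / 8 := by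
    have h1 : δ ≤ ε / (8 * (Real.log (1 / x) + 1)) := (min_le_right _ _).trans (min_le_right _ _)
    calc δ * Real.log (1 / x) ≤ ε / (8 * (Real.log (1 / x) + 1)) * (Real.log (1 / x) + 1) :=
          mul_le_mul h1 (by linarith) hlx (by positivity)
      _ = ε / 8 := by
          have : Real.log (1 / x) + 1 ≠ 0 := by positivity
          field_simp
  -- eventually `(r + 3) log k ≤ k ^ (ε / 2)`
  have hev : ∀ᶠ y : ℝ in Filter.atTop, (r + 3 : ℝ) * Real.log y ≤ y ^ (ε / 2) := by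
    have h1 := (isLittleO_log_rpow_atTop (half_pos hε)).bound
      (show (0 : ℝ) < 1 / (r + 3) by positivity)
    filter_upwards [h1, Filter.eventually_ge_atTop (1 : ℝ)] with y hy hy1
    rw [Real.norm_of_nonneg (Real.log_nonneg hy1),
      Real.norm_of_nonneg (Real.rpow_nonneg (by linarith) _)] at hy
    calc (r + 3 : ℝ) * Real.log y ≤ (r + 3) * (1 / (r + 3) * y ^ (ε / 2)) :=
          mul_le_mul_of_nonneg_left hy (by positivity)
      _ = y ^ (ε / 2) := by
          have : (r + 3 : ℝ) ≠ 0 := by positivity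
          field_simp
  obtain ⟨k₁, hk₁⟩ := Filter.eventually_atTop.1 (tendsto_natCast_atTop_atTop.eventually hev)
  refine ⟨δ, hδ0, max 2 k₁, ?_⟩
  intro k hk s D m hD hs hm
  have hk2 : 2 ≤ k := (le_max_left _ _).trans hk
  refine ⟨hk2, ?_⟩
  have hkey := hk₁ k ((le_max_right _ _).trans hk)
  have hL := log_ge k hk2
  have hkR : (0 : ℝ) < k := by positivity
  have hk1 : (1 : ℝ) ≤ k := by exact_mod_cast (by omega : 1 ≤ k)
  set Lk := Real.log k with hLk
  have hL0 : 0 < Lk := by linarith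
  have hc := clog_le k hk2
  have hDL : (D : ℝ) ≤ Lk := hD.trans (by nlinarith)
  have hD1 : ((D - 1 : ℕ) : ℝ) ≤ D := by exact_mod_cast Nat.sub_le _ _
  have hrp : ∀ a : ℝ, (k : ℝ) ^ a = Real.exp (Lk * a) := fun a => Real.rpow_def_of_pos hkR a
  -- the binomial coefficient
  have hN : ((r * Nat.clog 2 k + (D - 1) : ℕ) : ℝ) ≤ (3 * r + 1) * Lk := by
    push_cast
    have h3 : (r : ℝ) * Nat.clog 2 k ≤ r * (3 * Lk) := mul_le_mul_of_nonneg_left hc (by positivity)
    nlinarith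
  have hb : ((r * Nat.clog 2 k + (D - 1)).choose (D - 1) : ℝ) ≤ (k : ℝ) ^ (ε / 4) := by
    refine (choose_le_exp _ _ x hx0).trans ?_
    have h1 : (1 + x) ^ (r * Nat.clog 2 k + (D - 1)) ≤ Real.exp (Lk * (ε / 8)) := by
      have h2 : (1 + x) ^ (r * Nat.clog 2 k + (D - 1)) ≤
          Real.exp x ^ (r * Nat.clog 2 k + (D - 1)) :=
        pow_le_pow_left₀ (by linarith) (by linarith [Real.add_one_le_exp x]) _
      refine h2.trans ?_
      rw [← Real.exp_nat_mul]
      apply Real.exp_le_exp.2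
      calc ((r * Nat.clog 2 k + (D - 1) : ℕ) : ℝ) * x ≤ (3 * r + 1) * Lk * x :=
            mul_le_mul_of_nonneg_right hN hx0.le
        _ = Lk * (x * (3 * r + 1)) := by ring
        _ ≤ Lk * (ε / 8) := mul_le_mul_of_nonneg_left hx2 hL0.le
    have h3 : (1 / x) ^ (D - 1) ≤ Real.exp (Lk * (ε / 8)) := by
      have h4 : (1 / x) = Real.exp (Real.log (1 / x)) := (Real.exp_log (by positivity)).symm
      rw [h4, ← Real.exp_nat_mul]
      apply Real.exp_le_exp.2
      calc ((D - 1 : ℕ) : ℝ) * Real.log (1 / x) ≤ (δ * Lk) * Real.log (1 / x) :=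
            mul_le_mul_of_nonneg_right (hD1.trans hD) hlx
        _ = Lk * (δ * Real.log (1 / x)) := by ring
        _ ≤ Lk * (ε / 8) := mul_le_mul_of_nonneg_left hδ3 hL0.le
    calc (1 + x) ^ (r * Nat.clog 2 k + (D - 1)) * (1 / x) ^ (D - 1)
        ≤ Real.exp (Lk * (ε / 8)) * Real.exp (Lk * (ε / 8)) :=
          mul_le_mul h1 h3 (by positivity) (by positivity)
      _ = (k : ℝ) ^ (ε / 4) := by
          rw [← Real.exp_add, hrp]
          congr 1
          ring
  have hs2 : (s : ℝ) ≤ (k : ℝ) ^ (ε / 4) :=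
    hs.trans (Real.rpow_le_rpow_of_exponent_le hk1 (by linarith))
  have h10 : ((s * r * D * ((r * Nat.clog 2 k + (D - 1)).choose (D - 1)) + Nat.clog 2 k : ℕ) : ℝ) ≤
      m := by
    push_cast
    refine le_trans ?_ hm
    have hone : (1 : ℝ) ≤ (k : ℝ) ^ (ε / 2) := Real.one_le_rpow hk1 (by positivity)
    have h11 : (s : ℝ) * r * D * ((r * Nat.clog 2 k + (D - 1)).choose (D - 1) : ℕ) ≤
        r * Lk * (k : ℝ) ^ (ε / 2) := by
      calc (s : ℝ) * r * D * ((r * Nat.clog 2 k + (D - 1)).choose (D - 1) : ℕ)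
          = (r * D) * (s * ((r * Nat.clog 2 k + (D - 1)).choose (D - 1) : ℕ)) := by ring
        _ ≤ (r * Lk) * ((k : ℝ) ^ (ε / 4) * (k : ℝ) ^ (ε / 4)) := by
            apply mul_le_mul (mul_le_mul_of_nonneg_left hDL (by positivity))
              (mul_le_mul hs2 hb (by positivity) (by positivity)) (by positivity) (by positivity)
        _ = r * Lk * (k : ℝ) ^ (ε / 2) := by
            rw [← Real.rpow_add hkR]
            congr 2
            ring
    calc (s : ℝ) * r * D * ((r * Nat.clog 2 k + (D - 1)).choose (D - 1) : ℕ) + Nat.clog 2 k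
        ≤ r * Lk * (k : ℝ) ^ (ε / 2) + 3 * Lk * (k : ℝ) ^ (ε / 2) := by nlinarith
      _ = ((r + 3) * Lk) * (k : ℝ) ^ (ε / 2) := by ring
      _ ≤ (k : ℝ) ^ (ε / 2) * (k : ℝ) ^ (ε / 2) :=
          mul_le_mul_of_nonneg_right hkey (by positivity)
      _ = (k : ℝ) ^ ε := by
          rw [← Real.rpow_add hkR]
          congr 1
          ring
  exact_mod_cast h10

end Pool.Agent.H665R3.PolyColEst
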